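import Mathlib

/-!
# Transcendence degree and the predimension of rational spaces of complex numbers
-/

set_option autoImplicit false

open Set

namespace Pool.Agent.Q51.Sch

variable {K : Type*} [Field K] [CharZero K]

/-- the rank (transcendence degree over `ℚ`) of a set of elements of `K` -/
noncomputable def rk (K : Type*) [Field K] [CharZero K] (X : Set K) : ℕ∞ :=
  (AlgebraicIndependent.matroid ℚ K).eRk X

/-- the algebraic closure of `ℚ(X)` in `K` -/
noncomputable def cl (K : Type*) [Field K] [CharZero K] (X : Set K) : Set K :=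
  (AlgebraicIndependent.matroid ℚ K).closure X

theorem mem_cl {X : Set K} {a : K} : a ∈ cl K X ↔ IsAlgebraic (Algebra.adjoin ℚ X) a := by
  unfold cl
  rw [AlgebraicIndependent.matroid_closure_eq]
  exact Iff.rfl

theorem subset_cl (X : Set K) : X ⊆ cl K X :=
  (AlgebraicIndependent.matroid ℚ K).subset_closure X (by simp)

theorem cl_mono {X Y : Set K} (h : X ⊆ Y) : cl K X ⊆ cl K Y :=
  (AlgebraicIndependent.matroid ℚ K).closure_subset_closure h

theorem rk_mono {X Y : Set K} (h : X ⊆ Y) : rk K X ≤ rk K Y :=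
  (AlgebraicIndependent.matroid ℚ K).eRk_mono h

theorem rk_le_of_subset_cl {X Y : Set K} (h : X ⊆ cl K Y) : rk K X ≤ rk K Y := by
  have := (AlgebraicIndependent.matroid ℚ K).eRk_mono h
  unfold cl at this
  rwa [Matroid.eRk_closure_eq] at this

theorem rk_eq {X Y : Set K} (h : X ⊆ cl K Y) (h' : Y ⊆ cl K X) : rk K X = rk K Y :=
  le_antisymm (rk_le_of_subset_cl h) (rk_le_of_subset_cl h')

theorem rk_sub (X Y : Set K) : rk K (X ∩ Y) + rk K (X ∪ Y) ≤ rk K X + rk K Y :=
  (AlgebraicIndependent.matroid ℚ K).eRk_inter_add_eRk_union_le X Y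

theorem rk_union_le (X Y : Set K) : rk K (X ∪ Y) ≤ rk K X + rk K Y :=
  (AlgebraicIndependent.matroid ℚ K).eRk_union_le_eRk_add_eRk X Y

theorem cl_add {X : Set K} {a b : K} (ha : a ∈ cl K X) (hb : b ∈ cl K X) : a + b ∈ cl K X := by
  rw [mem_cl] at *; exact ha.add hb

theorem cl_mul {X : Set K} {a b : K} (ha : a ∈ cl K X) (hb : b ∈ cl K X) : a * b ∈ cl K X := by
  rw [mem_cl] at *; exact ha.mul hb

theorem cl_neg {X : Set K} {a : K} (ha : a ∈ cl K X) : -a ∈ cl K X := by
  rw [mem_cl] at *; exact ha.neg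

theorem cl_sub {X : Set K} {a b : K} (ha : a ∈ cl K X) (hb : b ∈ cl K X) : a - b ∈ cl K X := by
  rw [mem_cl] at *; exact ha.sub hb

theorem cl_inv {X : Set K} {a : K} (ha : a ∈ cl K X) : a⁻¹ ∈ cl K X := by
  rw [mem_cl] at *; exact ha.inv

theorem cl_rat {X : Set K} (q : ℚ) : (q : K) ∈ cl K X := by
  rw [mem_cl]
  have := isAlgebraic_algebraMap (R := Algebra.adjoin ℚ X) (A := K) (algebraMap ℚ _ q)
  simpa using this

theorem cl_algebraic {X : Set K} {a : K} (ha : IsAlgebraic ℚ a) : a ∈ cl K X := by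
  rw [mem_cl]
  exact ha.extendScalars (algebraMap ℚ (Algebra.adjoin ℚ X)).injective

theorem cl_of_pow {X : Set K} {a : K} {n : ℕ} (hn : 0 < n) (ha : a ^ n ∈ cl K X) : a ∈ cl K X := by
  rw [mem_cl] at *
  exact IsAlgebraic.of_pow hn ha

theorem cl_pow {X : Set K} {a : K} (ha : a ∈ cl K X) (n : ℕ) : a ^ n ∈ cl K X := by
  rw [mem_cl] at *
  exact ha.pow n

theorem cl_zpow {X : Set K} {a : K} (ha : a ∈ cl K X) (n : ℤ) : a ^ n ∈ cl K X := by
  cases n with
  | ofNat n => simpa using cl_pow ha n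
  | negSucc n => rw [zpow_negSucc]; exact cl_inv (cl_pow ha _)

theorem cl_idem {X Y : Set K} (h : X ⊆ cl K Y) : cl K X ⊆ cl K Y := by
  unfold cl at *
  exact (AlgebraicIndependent.matroid ℚ K).closure_subset_closure_of_subset_closure h

/-- `n` algebraically independent elements -/
def Has (K : Type*) [Field K] [Algebra ℚ K] (n : ℕ) (X : Set K) : Prop :=
  ∃ t : Fin n → K, (∀ i, t i ∈ X) ∧ AlgebraicIndependent ℚ t

theorem has_iff (n : ℕ) (X : Set K) : Has K n X ↔ (n : ℕ∞) ≤ rk K X := by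
  unfold rk
  rw [Matroid.le_eRk_iff]
  constructor
  · rintro ⟨t, ht, hi⟩
    refine ⟨range t, by rintro _ ⟨i, rfl⟩; exact ht i, ?_, ?_⟩
    · rw [AlgebraicIndependent.matroid_indep_iff]
      exact hi.to_subtype_range
    · rw [← Set.image_univ, (hi.injective.injOn).encard_image]
      simp
  · rintro ⟨I, hI, hind, hc⟩
    rw [AlgebraicIndependent.matroid_indep_iff] at hind
    have hfin : I.Finite := Set.finite_of_encard_eq_coe hc
    have hn : Nat.card I = n := by
      have : (Nat.card I : ℕ∞) = n := by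
        rw [← hc, ← hfin.cast_ncard_eq]
        rfl
      exact_mod_cast this
    have : Finite I := hfin
    let e : Fin n ≃ I := (Finite.equivFinOfCardEq hn).symm
    refine ⟨fun i => (e i : K), fun i => hI (e i).2, ?_⟩
    exact hind.comp _ e.injective

variable {K' : Type*} [Field K'] [CharZero K']

theorem has_image (f : K →ₐ[ℚ] K') (n : ℕ) (X : Set K) : Has K' n (f '' X) ↔ Has K n X := by
  constructor
  · rintro ⟨t, ht, hi⟩
    choose u hu hut using ht
    refine ⟨u, hu, ?_⟩
    have : t = f ∘ u := funext fun i => (hut i).symm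
    rw [this] at hi
    exact (AlgHom.algebraicIndependent_iff f f.injective).1 hi
  · rintro ⟨t, ht, hi⟩
    exact ⟨f ∘ t, fun i => ⟨t i, ht i, rfl⟩, (AlgHom.algebraicIndependent_iff f f.injective).2 hi⟩

theorem rk_image (f : K →ₐ[ℚ] K') (X : Set K) : rk K' (f '' X) = rk K X := by
  have h : ∀ n : ℕ, (n : ℕ∞) ≤ rk K' (f '' X) ↔ (n : ℕ∞) ≤ rk K X := by
    intro n
    rw [← has_iff, ← has_iff, has_image]
  refine le_antisymm ?_ ?_
  · exact ENat.forall_natCast_le_iff_le.1 fun n hn => (h n).1 hn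
  · exact ENat.forall_natCast_le_iff_le.1 fun n hn => (h n).2 hn

end Pool.Agent.Q51.Sch
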