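import Mathlib
import Pool.Agent.Q51.Sch.Rk

/-!
# Symmetric counterexamples for conjectures of Schanuel type, with weights

`X` is a set of points with an equivalence relation, to each point belongs a set of numbers (`data`) and a
weight. The inequality: the transcendence degree of the numbers of pairwise inequivalent points is at
least the sum of the weights. If the numbers of equivalent points are algebraic over each other and if an
involution of the points corresponds to an automorphism of the field, then it is enough to know the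
inequality for the symmetric families.
-/

set_option autoImplicit false

open Set

namespace Pool.Agent.Q51.Sch

/-- points with an equivalence relation, numbers, weights and an involution -/
structure Wat (X K : Type) [Field K] [CharZero K] where
  r : Setoid X
  data : X → Set K
  w : X → ℕ
  wr : ∀ x y, r.r x y → w x = w y
  cl_of : ∀ x y, r.r x y → data x ⊆ cl K (data y)
  σ : X → X
  σr : ∀ x y, r.r x y → r.r (σ x) (σ y)
  σσ : ∀ x, r.r (σ (σ x)) x
  wσ : ∀ x, w (σ x) = w x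
  φ : K →ₐ[ℚ] K
  σd : ∀ x, data (σ x) ⊆ cl K (φ '' data x)

namespace Wat

variable {X K : Type} [Field K] [CharZero K] (d : Wat X K)

/-- the classes -/
abbrev Q : Type := Quotient d.r

/-- the class of a point -/
def c (x : X) : d.Q := Quotient.mk d.r x

theorem c_eq {x y : X} : d.c x = d.c y ↔ d.r.r x y := Quotient.eq

/-- the weight of a class -/
def wt : d.Q → ℕ := Quotient.lift d.w d.wr

@[simp] theorem wt_c (x : X) : d.wt (d.c x) = d.w x := rfl

/-- all numbers attached to a set of classes -/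
def D (T : Set d.Q) : Set K := ⋃ x ∈ {x | d.c x ∈ T}, d.data x

theorem mem_D {T : Set d.Q} {a : K} : a ∈ d.D T ↔ ∃ x, d.c x ∈ T ∧ a ∈ d.data x := by
  simp [D]

theorem D_mono {S T : Set d.Q} (h : S ⊆ T) : d.D S ⊆ d.D T := by
  intro a ha
  obtain ⟨x, hx, hax⟩ := d.mem_D.1 ha
  exact d.mem_D.2 ⟨x, h hx, hax⟩

theorem D_union (S T : Set d.Q) : d.D (S ∪ T) = d.D S ∪ d.D T := by
  ext a
  rw [mem_union, mem_D, mem_D, mem_D]
  constructor
  · rintro ⟨x, hx | hx, h⟩
    · exact Or.inl ⟨x, hx, h⟩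
    · exact Or.inr ⟨x, hx, h⟩
  · rintro (⟨x, hx, h⟩ | ⟨x, hx, h⟩)
    · exact ⟨x, Or.inl hx, h⟩
    · exact ⟨x, Or.inr hx, h⟩

/-- the involution of the classes -/
def τ : d.Q → d.Q := Quotient.map d.σ (fun x y h => d.σr x y h)

theorem τ_c (x : X) : d.τ (d.c x) = d.c (d.σ x) := rfl

theorem τ_τ (q : d.Q) : d.τ (d.τ q) = q := by
  obtain ⟨x, rfl⟩ := Quotient.exists_rep q
  exact d.c_eq.2 (d.σσ x)

theorem τ_inj : Function.Injective d.τ := fun a b h => by
  rw [← d.τ_τ a, h, d.τ_τ b]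

theorem wt_τ (q : d.Q) : d.wt (d.τ q) = d.wt q := by
  obtain ⟨x, rfl⟩ := Quotient.exists_rep q
  exact d.wσ x

/-- a set of classes which contradicts the inequality -/
def Bad (T : Finset d.Q) : Prop := rk K (d.D (T : Set d.Q)) < ((∑ q ∈ T, d.wt q : ℕ) : ℕ∞)

open Classical in
theorem bad_or {A B : Finset d.Q} (hA : d.Bad A) (hB : d.Bad B) : d.Bad (A ∩ B) ∨ d.Bad (A ∪ B) := by
  by_contra hcon
  rw [not_or] at hcon
  unfold Bad at *
  rw [not_lt, not_lt] at hcon
  obtain ⟨h1, h2⟩ := hcon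
  have h3 : rk K (d.D ((A ∩ B : Finset d.Q) : Set d.Q)) + rk K (d.D ((A ∪ B : Finset d.Q) : Set d.Q)) ≤
      rk K (d.D (A : Set d.Q)) + rk K (d.D (B : Set d.Q)) := by
    have h4 := rk_sub (K := K) (d.D (A : Set d.Q)) (d.D (B : Set d.Q))
    have h5 : rk K (d.D ((A ∩ B : Finset d.Q) : Set d.Q)) ≤ rk K (d.D (A : Set d.Q) ∩ d.D (B : Set d.Q)) := by
      apply rk_mono
      intro a ha
      refine ⟨d.D_mono ?_ ha, d.D_mono ?_ ha⟩
      · exact_mod_cast Finset.inter_subset_left
      · exact_mod_cast Finset.inter_subset_right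
    have h6 : d.D ((A ∪ B : Finset d.Q) : Set d.Q) = d.D (A : Set d.Q) ∪ d.D (B : Set d.Q) := by
      rw [Finset.coe_union, D_union]
    rw [h6]
    exact (add_le_add_left h5 _).trans h4
  have h7 : ((∑ q ∈ A ∩ B, d.wt q : ℕ) : ℕ∞) + ((∑ q ∈ A ∪ B, d.wt q : ℕ) : ℕ∞) =
      ((∑ q ∈ A, d.wt q : ℕ) : ℕ∞) + ((∑ q ∈ B, d.wt q : ℕ) : ℕ∞) := by
    rw [← Nat.cast_add, ← Nat.cast_add, add_comm, Finset.sum_union_inter]
  have h8 : rk K (d.D (A : Set d.Q)) + rk K (d.D (B : Set d.Q)) <
      ((∑ q ∈ A, d.wt q : ℕ) : ℕ∞) + ((∑ q ∈ B, d.wt q : ℕ) : ℕ∞) := ENat.add_lt_add hA hB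
  have h9 := (add_le_add h1 h2).trans h3
  rw [h7] at h9
  exact absurd (lt_of_lt_of_le h8 h9) (lt_irrefl _)

open Classical in
theorem bad_insert {T : Finset d.Q} (hT : d.Bad T) {q : d.Q} (hq : rk K (d.D {q}) ≤ (d.wt q : ℕ∞)) :
    d.Bad (insert q T) := by
  by_cases h : q ∈ T
  · rwa [Finset.insert_eq_of_mem h]
  · unfold Bad at *
    rw [Finset.sum_insert h, Finset.coe_insert, Set.insert_eq, D_union, Nat.cast_add]
    refine lt_of_le_of_lt (rk_union_le _ _) ?_
    have h1 : rk K (d.D {q}) ≠ ⊤ := ne_top_of_le_ne_top (ENat.natCast_ne_top _) hq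
    rw [add_comm, add_comm ((d.wt q : ℕ) : ℕ∞)]
    exact ENat.add_lt_add_of_lt_of_le h1 hT hq

open Classical in
theorem bad_union {T : Finset d.Q} (hT : d.Bad T) (L : Finset d.Q)
    (hL : ∀ q ∈ L, rk K (d.D {q}) ≤ (d.wt q : ℕ∞)) : d.Bad (L ∪ T) := by
  induction L using Finset.induction_on with
  | empty => simpa using hT
  | insert q L _ ih =>
    rw [Finset.insert_union]
    exact d.bad_insert (ih fun q' hq' => hL q' (Finset.mem_insert_of_mem hq')) (hL q (Finset.mem_insert_self _ _))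

theorem D_τ_sub (T : Set d.Q) : d.D (d.τ '' T) ⊆ cl K (d.φ '' d.D T) := by
  intro a ha
  obtain ⟨x, ⟨q, hq, hqx⟩, hax⟩ := d.mem_D.1 ha
  have h1 : d.c (d.σ x) ∈ T := by
    rw [← τ_c, ← hqx, τ_τ]
    exact hq
  have h2 : d.data x ⊆ cl K (d.data (d.σ (d.σ x))) := d.cl_of _ _ (d.r.symm (d.σσ x))
  have h3 : d.data x ⊆ cl K (d.φ '' d.data (d.σ x)) := h2.trans (cl_idem (d.σd (d.σ x)))
  refine cl_mono ?_ (h3 hax)
  exact Set.image_mono fun b hb => d.mem_D.2 ⟨_, h1, hb⟩

theorem rk_τ (T : Set d.Q) : rk K (d.D (d.τ '' T)) ≤ rk K (d.D T) := by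
  rw [← rk_image d.φ (d.D T)]
  exact rk_le_of_subset_cl (d.D_τ_sub T)

open Classical in
theorem bad_τ {T : Finset d.Q} (hT : d.Bad T) : d.Bad (T.image d.τ) := by
  unfold Bad at *
  rw [Finset.sum_image (fun a _ b _ h => d.τ_inj h), Finset.coe_image]
  simp only [wt_τ]
  exact lt_of_le_of_lt (d.rk_τ _) hT

open Classical in
/-- **Symmetric counterexamples.** -/
theorem symm {T : Finset d.Q} (hT : d.Bad T) (L : Finset d.Q)
    (hL : ∀ q ∈ L, rk K (d.D {q}) ≤ (d.wt q : ℕ∞)) :
    ∃ T' : Finset d.Q, d.Bad T' ∧ (∀ q ∈ T', d.τ q ∈ T') ∧ L ⊆ T' := by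
  set L' : Finset d.Q := L ∪ L.image d.τ with hL'
  have hL'e : ∀ q ∈ L', rk K (d.D {q}) ≤ (d.wt q : ℕ∞) := by
    intro q hq
    rcases Finset.mem_union.1 hq with h | h
    · exact hL q h
    · obtain ⟨q', hq', rfl⟩ := Finset.mem_image.1 h
      have := d.rk_τ {q'}
      rw [Set.image_singleton] at this
      rw [wt_τ]
      exact this.trans (hL q' hq')
  have hL's : ∀ q ∈ L', d.τ q ∈ L' := by
    intro q hq
    rcases Finset.mem_union.1 hq with h | h
    · exact Finset.mem_union_right _ (Finset.mem_image_of_mem _ h)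
    · obtain ⟨q', hq', rfl⟩ := Finset.mem_image.1 h
      rw [τ_τ]
      exact Finset.mem_union_left _ hq'
  set T₁ : Finset d.Q := L' ∪ T with hT₁
  have h1 : d.Bad T₁ := d.bad_union hT L' hL'e
  have hL1 : L' ⊆ T₁ := Finset.subset_union_left
  have hL2 : L' ⊆ T₁.image d.τ := by
    intro q hq
    rw [← d.τ_τ q]
    exact Finset.mem_image_of_mem _ (hL1 (hL's q hq))
  have hLL : L ⊆ L' := Finset.subset_union_left
  rcases d.bad_or h1 (d.bad_τ h1) with h | h
  · refine ⟨_, h, ?_, hLL.trans (Finset.subset_inter hL1 hL2)⟩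
    intro q hq
    obtain ⟨hq1, hq2⟩ := Finset.mem_inter.1 hq
    obtain ⟨q', hq', rfl⟩ := Finset.mem_image.1 hq2
    refine Finset.mem_inter.2 ⟨?_, Finset.mem_image_of_mem _ hq1⟩
    rw [τ_τ]
    exact hq'
  · refine ⟨_, h, ?_, (hLL.trans hL1).trans Finset.subset_union_left⟩
    intro q hq
    rcases Finset.mem_union.1 hq with hq1 | hq2
    · exact Finset.mem_union_right _ (Finset.mem_image_of_mem _ hq1)
    · obtain ⟨q', hq', rfl⟩ := Finset.mem_image.1 hq2
      rw [τ_τ]
      exact Finset.mem_union_left _ hq'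

theorem rk_fam {ι : Type} (z : ι → X) :
    rk K (d.D (range fun i => d.c (z i))) = rk K (⋃ i, d.data (z i)) := by
  refine rk_eq ?_ ?_
  · intro a ha
    obtain ⟨x, ⟨i, hi⟩, hax⟩ := d.mem_D.1 ha
    have h1 := d.cl_of x (z i) (d.r.symm (d.c_eq.1 hi)) hax
    exact cl_mono (subset_iUnion (fun i => d.data (z i)) i) h1
  · intro a ha
    obtain ⟨i, hi⟩ := mem_iUnion.1 ha
    exact subset_cl _ (d.mem_D.2 ⟨z i, ⟨i, rfl⟩, hi⟩)

/-- the points `x_i`, `σ x_i`, `y_k` -/
def fam {r s : ℕ} (x : Fin r → X) (y : Fin s → X) : Fin r ⊕ Fin r ⊕ Fin s → X :=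
  Sum.elim x (Sum.elim (fun i => d.σ (x i)) y)

open Classical in
/-- **Main theorem.** The inequality for all tuples follows from the inequality for the families
`x_1, …, x_r, σ x_1, …, σ x_r, y_1, …, y_s` where the `y_k` are equivalent to their images and have a
property `N` which can be reached by passing to an equivalent point. -/
theorem main (N : X → Prop) (hN1 : ∀ y, d.r.r (d.σ y) y → ∃ y', d.r.r y' y ∧ N y')
    (L : Finset X) (hL : ∀ l ∈ L, rk K (d.data l) ≤ (d.w l : ℕ∞)) :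
    (∀ (n : ℕ) (z : Fin n → X), (∀ i k, i ≠ k → ¬ d.r.r (z i) (z k)) →
      ((∑ i, d.w (z i) : ℕ) : ℕ∞) ≤ rk K (⋃ i, d.data (z i))) ↔
    (∀ (r s : ℕ) (x : Fin r → X) (y : Fin s → X),
      (∀ i k, i ≠ k → ¬ d.r.r (d.fam x y i) (d.fam x y k)) → (∀ k, N (y k)) →
      (∀ l ∈ L, ∃ i, d.r.r l (d.fam x y i)) →
      ((2 * ∑ i, d.w (x i) + ∑ k, d.w (y k) : ℕ) : ℕ∞) ≤ rk K (⋃ i, d.data (d.fam x y i))) := by
  constructor
  · intro h r s x y hz _ _
    let e : Fin (Fintype.card (Fin r ⊕ Fin r ⊕ Fin s)) ≃ Fin r ⊕ Fin r ⊕ Fin s :=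
      (Fintype.equivFin _).symm
    have h1 := h _ (fun i => d.fam x y (e i)) (fun i k hik => hz _ _ (fun h => hik (e.injective h)))
    have h2 : (⋃ i, d.data (d.fam x y (e i))) = ⋃ i, d.data (d.fam x y i) :=
      e.surjective.iUnion_comp (fun i => d.data (d.fam x y i))
    rw [h2] at h1
    refine le_trans (le_of_eq ?_) h1
    congr 1
    rw [e.sum_comp (fun i => d.w (d.fam x y i))]
    simp only [fam, Fintype.sum_sum_type, Sum.elim_inl, Sum.elim_inr, wσ]
    ring
  intro h n z hz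
  by_contra hcon
  rw [not_le] at hcon
  set T : Finset d.Q := Finset.univ.image fun i => d.c (z i) with hT
  have hinj : Function.Injective fun i => d.c (z i) := by
    intro i k hik
    by_contra hne
    exact hz i k hne (d.c_eq.1 hik)
  have hTB : d.Bad T := by
    unfold Bad
    rw [hT, Finset.sum_image (fun a _ b _ h => hinj h), Finset.coe_image, Finset.coe_univ,
      Set.image_univ, rk_fam]
    exact hcon
  obtain ⟨T', hB, hσ, hLT⟩ := d.symm hTB (L.image d.c) (by
    intro q hq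
    obtain ⟨l, hl, rfl⟩ := Finset.mem_image.1 hq
    refine le_trans (le_of_eq ?_) (hL l hl)
    refine rk_eq ?_ ?_
    · intro a ha
      obtain ⟨x, hx, hax⟩ := d.mem_D.1 ha
      exact d.cl_of x l (d.c_eq.1 hx) hax
    · intro a ha
      exact subset_cl _ (d.mem_D.2 ⟨l, rfl, ha⟩))
  -- representatives of the pairs and of the symmetric classes
  let R : d.Q → d.Q → Prop := WellOrderingRel
  set P : Finset d.Q := T'.filter fun q => R q (d.τ q) with hP
  set F : Finset d.Q := T'.filter fun q => d.τ q = q with hF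
  let eP := P.equivFin
  let eF := F.equivFin
  let x : Fin P.card → X := fun i => (eP.symm i).1.out
  have hx : ∀ i, d.c (x i) = (eP.symm i).1 := fun i => Quotient.out_eq _
  have hy0 : ∀ k : Fin F.card, ∃ y', d.r.r y' (eF.symm k).1.out ∧ N y' := by
    intro k
    apply hN1
    apply d.c_eq.1
    have h1 : d.τ (eF.symm k).1 = (eF.symm k).1 := (Finset.mem_filter.1 (eF.symm k).2).2
    have h2 : d.c (eF.symm k).1.out = (eF.symm k).1 := Quotient.out_eq _
    rw [← τ_c, h2, h1]
  choose y hy1 hyN using hy0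
  have hy : ∀ k, d.c (y k) = (eF.symm k).1 := by
    intro k
    have h2 : d.c (eF.symm k).1.out = (eF.symm k).1 := Quotient.out_eq _
    rw [← h2]
    exact d.c_eq.2 (hy1 k)
  have hxx : ∀ i, d.c (d.σ (x i)) = d.τ (eP.symm i).1 := by
    intro i
    rw [← τ_c, hx]
  have hirr : ∀ q, ¬ R q q := fun q h => (irrefl_of (WellOrderingRel (α := d.Q)) q h)
  have hasy : ∀ q q', R q q' → ¬ R q' q := fun q q' h h' => hirr q (_root_.trans h h')
  have hPm : ∀ i, R (eP.symm i).1 (d.τ (eP.symm i).1) ∧ (eP.symm i).1 ∈ T' := by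
    intro i
    have := Finset.mem_filter.1 (eP.symm i).2
    exact ⟨this.2, this.1⟩
  have hFm : ∀ k, d.τ (eF.symm k).1 = (eF.symm k).1 ∧ (eF.symm k).1 ∈ T' := by
    intro k
    have := Finset.mem_filter.1 (eF.symm k).2
    exact ⟨this.2, this.1⟩
  have hrange : (range fun i => d.c (d.fam x y i)) = (T' : Set d.Q) := by
    ext q
    constructor
    · rintro ⟨i | i | k, rfl⟩
      · show d.c (x i) ∈ (T' : Set d.Q)
        rw [hx]
        exact (hPm i).2
      · show d.c (d.σ (x i)) ∈ (T' : Set d.Q)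
        rw [hxx]
        exact hσ _ (hPm i).2
      · show d.c (y k) ∈ (T' : Set d.Q)
        rw [hy]
        exact (hFm k).2
    · intro hq
      rcases trichotomous_of (WellOrderingRel (α := d.Q)) q (d.τ q) with h1 | h1 | h1
      · have hqP : q ∈ P := Finset.mem_filter.2 ⟨hq, h1⟩
        refine ⟨Sum.inl (eP ⟨q, hqP⟩), ?_⟩
        show d.c (x _) = q
        rw [hx, Equiv.symm_apply_apply]
      · have hqF : q ∈ F := Finset.mem_filter.2 ⟨hq, h1.symm⟩
        refine ⟨Sum.inr (Sum.inr (eF ⟨q, hqF⟩)), ?_⟩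
        show d.c (y _) = q
        rw [hy, Equiv.symm_apply_apply]
      · have hqP : d.τ q ∈ P := by
          refine Finset.mem_filter.2 ⟨hσ q hq, ?_⟩
          rw [τ_τ]
          exact h1
        refine ⟨Sum.inr (Sum.inl (eP ⟨d.τ q, hqP⟩)), ?_⟩
        show d.c (d.σ (x _)) = q
        rw [hxx, Equiv.symm_apply_apply, τ_τ]
  have hinj' : Function.Injective fun i => d.c (d.fam x y i) := by
    rintro (i | i | k) (i' | i' | k') hik
    · have h1 : d.c (x i) = d.c (x i') := hik
      rw [hx, hx] at h1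
      rw [eP.symm.injective (Subtype.ext h1)]
    · exfalso
      have h1 : d.c (x i) = d.c (d.σ (x i')) := hik
      rw [hx, hxx] at h1
      have h2 := (hPm i).1
      rw [h1, τ_τ] at h2
      exact hasy _ _ (hPm i').1 h2
    · exfalso
      have h1 : d.c (x i) = d.c (y k') := hik
      rw [hx, hy] at h1
      have h2 := (hPm i).1
      rw [h1, (hFm k').1] at h2
      exact hirr _ h2
    · exfalso
      have h1 : d.c (d.σ (x i)) = d.c (x i') := hik
      rw [hx, hxx] at h1
      have h2 := (hPm i').1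
      rw [← h1, τ_τ] at h2
      exact hasy _ _ (hPm i).1 h2
    · have h1 : d.c (d.σ (x i)) = d.c (d.σ (x i')) := hik
      rw [hxx, hxx] at h1
      rw [eP.symm.injective (Subtype.ext (d.τ_inj h1))]
    · exfalso
      have h1 : d.c (d.σ (x i)) = d.c (y k') := hik
      rw [hxx, hy] at h1
      have h2 := (hPm i).1
      have h3 : (eP.symm i).1 = (eF.symm k').1 := by
        rw [← d.τ_τ (eP.symm i).1, h1, (hFm k').1]
      rw [h3, (hFm k').1] at h2
      exact hirr _ h2
    · exfalso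
      have h1 : d.c (y k) = d.c (x i') := hik
      rw [hx, hy] at h1
      have h2 := (hPm i').1
      rw [← h1, (hFm k).1] at h2
      exact hirr _ h2
    · exfalso
      have h1 : d.c (y k) = d.c (d.σ (x i')) := hik
      rw [hxx, hy] at h1
      have h2 := (hPm i').1
      have h3 : (eP.symm i').1 = (eF.symm k).1 := by
        rw [← d.τ_τ (eP.symm i').1, ← h1, (hFm k).1]
      rw [h3, (hFm k).1] at h2
      exact hirr _ h2
    · have h1 : d.c (y k) = d.c (y k') := hik
      rw [hy, hy] at h1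
      rw [eF.symm.injective (Subtype.ext h1)]
  have h1 := h P.card F.card x y (fun i k hik hr => hik (hinj' (d.c_eq.2 hr))) hyN (by
    intro l hl
    have h2 : d.c l ∈ (T' : Set d.Q) := hLT (Finset.mem_image_of_mem _ hl)
    rw [← hrange] at h2
    obtain ⟨i, hi⟩ := h2
    exact ⟨i, d.r.symm (d.c_eq.1 hi)⟩)
  have hsum : (2 * ∑ i, d.w (x i) + ∑ k, d.w (y k)) = ∑ q ∈ T', d.wt q := by
    have h2 : ∑ i, d.wt (d.c (d.fam x y i)) = ∑ q ∈ T', d.wt q := by
      rw [← Finset.sum_image (f := fun q => d.wt q) (g := fun i => d.c (d.fam x y i))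
        (s := Finset.univ) (fun a _ b _ h => hinj' h)]
      congr 1
      apply Finset.coe_injective
      rw [Finset.coe_image, Finset.coe_univ, Set.image_univ, hrange]
    rw [← h2]
    simp only [wt_c, fam, Fintype.sum_sum_type, Sum.elim_inl, Sum.elim_inr, wσ]
    ring
  unfold Bad at hB
  rw [← hrange, rk_fam, ← hsum] at hB
  exact absurd (lt_of_lt_of_le hB h1) (lt_irrefl _)

end Wat

end Pool.Agent.Q51.Sch
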