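import Mathlib
import Pool.Agent.Q51.Sch.Rk
import Pool.Agent.H294ZP.Main

/-!
# `GL₂⁺(ℚ)`-orbits of points of the upper half plane, the reflection `z ↦ -z̄` and the modular invariant
-/

set_option autoImplicit false

open Set UpperHalfPlane ModularForm H294ZP

namespace Pool.Agent.Q51.Sch.Mod

/-- `z` and `w` lie in the same orbit of `GL₂⁺(ℚ)` -/
def Eqv (z w : ℍ) : Prop :=
  ∃ a b c d : ℚ, 0 < a * d - b * c ∧ (w : ℂ) * ((c : ℂ) * z + d) = (a : ℂ) * z + b

theorem Eqv.refl (z : ℍ) : Eqv z z := ⟨1, 0, 0, 1, by norm_num, by push_cast; ring⟩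

theorem den_ne {z : ℍ} {a b c d : ℚ} (h : 0 < a * d - b * c) : (c : ℂ) * (z : ℂ) + d ≠ 0 := by
  intro h0
  have h1 := congrArg Complex.im h0
  simp only [Complex.add_im, Complex.mul_im, Complex.ratCast_re, Complex.ratCast_im, Complex.zero_im,
    zero_mul, add_zero] at h1
  have hc : (c : ℝ) = 0 := by
    rcases mul_eq_zero.1 h1 with h | h
    · exact h
    · exact absurd h z.im_ne_zero
  have hc' : c = 0 := by exact_mod_cast hc
  rw [hc'] at h0
  simp at h0
  rw [hc', h0] at h
  simp at h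

theorem Eqv.symm {z w : ℍ} (h : Eqv z w) : Eqv w z := by
  obtain ⟨a, b, c, d, hd, h⟩ := h
  refine ⟨d, -b, -c, a, by linarith, ?_⟩
  push_cast
  linear_combination -h

theorem Eqv.trans {z w v : ℍ} (h : Eqv z w) (h' : Eqv w v) : Eqv z v := by
  obtain ⟨a, b, c, d, hd, h⟩ := h
  obtain ⟨a', b', c', d', hd', h'⟩ := h'
  refine ⟨a' * a + b' * c, a' * b + b' * d, c' * a + d' * c, c' * b + d' * d, ?_, ?_⟩
  · have : (a' * a + b' * c) * (c' * b + d' * d) - (a' * b + b' * d) * (c' * a + d' * c) =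
        (a' * d' - b' * c') * (a * d - b * c) := by ring
    rw [this]
    positivity
  · have hne := den_ne (z := z) hd
    push_cast
    linear_combination ((c : ℂ) * z + d) * h' - (c' * (v : ℂ) - a') * h

/-- the reflection `z ↦ -z̄` -/
def rf (z : ℍ) : ℍ := ⟨-(starRingEnd ℂ) (z : ℂ), by simpa using z.im_pos⟩

theorem coe_rf (z : ℍ) : ((rf z : ℍ) : ℂ) = -(starRingEnd ℂ) (z : ℂ) := rfl

theorem rf_rf (z : ℍ) : rf (rf z) = z := by
  apply UpperHalfPlane.ext
  rw [coe_rf, coe_rf]
  simp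

theorem Eqv.rf {z w : ℍ} (h : Eqv z w) : Eqv (rf z) (rf w) := by
  obtain ⟨a, b, c, d, hd, h⟩ := h
  refine ⟨a, -b, -c, d, by linarith, ?_⟩
  have h1 := congrArg (starRingEnd ℂ) h
  simp only [map_add, map_mul, map_ratCast] at h1
  rw [coe_rf, coe_rf]
  push_cast
  linear_combination -h1

/-- CM points: the imaginary quadratic points -/
def CM (z : ℍ) : Prop :=
  ∃ a b c : ℤ, (a ≠ 0 ∨ b ≠ 0 ∨ c ≠ 0) ∧ (a : ℂ) * (z : ℂ) ^ 2 + b * z + c = 0

/-- the quadratic equation with rational coefficients -/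
theorem cm_iff {z : ℍ} : CM z ↔
    ∃ a b c : ℚ, (a ≠ 0 ∨ b ≠ 0 ∨ c ≠ 0) ∧ (a : ℂ) * (z : ℂ) ^ 2 + b * z + c = 0 := by
  constructor
  · rintro ⟨a, b, c, h, h'⟩
    refine ⟨a, b, c, ?_, by push_cast; exact h'⟩
    simpa using h
  · rintro ⟨a, b, c, h, h'⟩
    set N : ℕ := a.den * b.den * c.den with hN
    have hNpos : (N : ℚ) ≠ 0 := by
      have : 0 < N := by positivity
      exact_mod_cast this.ne'
    obtain ⟨A, hA⟩ : ∃ A : ℤ, (A : ℚ) = N * a := by
      refine ⟨a.num * b.den * c.den, ?_⟩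
      have := Rat.mul_den_eq_num a
      push_cast [hN]
      linear_combination (-(b.den : ℚ) * c.den) * this
    obtain ⟨B, hB⟩ : ∃ B : ℤ, (B : ℚ) = N * b := by
      refine ⟨b.num * a.den * c.den, ?_⟩
      have := Rat.mul_den_eq_num b
      push_cast [hN]
      linear_combination (-(a.den : ℚ) * c.den) * this
    obtain ⟨C, hC⟩ : ∃ C : ℤ, (C : ℚ) = N * c := by
      refine ⟨c.num * a.den * b.den, ?_⟩
      have := Rat.mul_den_eq_num c
      push_cast [hN]
      linear_combination (-(a.den : ℚ) * b.den) * this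
    have hA' : (A : ℂ) = N * a := by exact_mod_cast congrArg (fun q : ℚ => (q : ℂ)) hA
    have hB' : (B : ℂ) = N * b := by exact_mod_cast congrArg (fun q : ℚ => (q : ℂ)) hB
    have hC' : (C : ℂ) = N * c := by exact_mod_cast congrArg (fun q : ℚ => (q : ℂ)) hC
    refine ⟨A, B, C, ?_, ?_⟩
    · rcases h with h | h | h
      · left
        intro h0
        rw [h0] at hA
        rcases mul_eq_zero.1 hA.symm with h1 | h1
        · exact hNpos h1
        · exact h h1
      · right; left
        intro h0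
        rw [h0] at hB
        rcases mul_eq_zero.1 hB.symm with h1 | h1
        · exact hNpos h1
        · exact h h1
      · right; right
        intro h0
        rw [h0] at hC
        rcases mul_eq_zero.1 hC.symm with h1 | h1
        · exact hNpos h1
        · exact h h1
    · rw [hA', hB', hC']
      linear_combination (N : ℂ) * h'

theorem CM.of_eqv {z w : ℍ} (h : Eqv z w) (hw : CM w) : CM z := by
  rw [cm_iff] at *
  obtain ⟨a, b, c, d, hd, h⟩ := h
  obtain ⟨p, q, r, hne, he⟩ := hw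
  refine ⟨p * a ^ 2 + q * a * c + r * c ^ 2, 2 * p * a * b + q * (a * d + b * c) + 2 * r * c * d,
    p * b ^ 2 + q * b * d + r * d ^ 2, ?_, ?_⟩
  · by_contra hcon
    push Not at hcon
    obtain ⟨h1, h2, h3⟩ := hcon
    have hD : a * d - b * c ≠ 0 := hd.ne'
    have e1 : p * (a * d - b * c) ^ 2 = 0 := by
      linear_combination d ^ 2 * h1 - c * d * h2 + c ^ 2 * h3
    have e2 : q * (a * d - b * c) ^ 2 = 0 := by
      linear_combination -2 * b * d * h1 + (a * d + b * c) * h2 - 2 * a * c * h3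
    have e3 : r * (a * d - b * c) ^ 2 = 0 := by
      linear_combination b ^ 2 * h1 - a * b * h2 + a ^ 2 * h3
    have hD2 : (a * d - b * c) ^ 2 ≠ 0 := pow_ne_zero 2 hD
    rcases hne with h | h | h
    · exact h ((mul_eq_zero.1 e1).resolve_right hD2)
    · exact h ((mul_eq_zero.1 e2).resolve_right hD2)
    · exact h ((mul_eq_zero.1 e3).resolve_right hD2)
  · push_cast
    have e : (p : ℂ) * (a * z + b) ^ 2 + q * (a * z + b) * (c * z + d) + r * (c * z + d) ^ 2 = 0 := by
      rw [← h]
      linear_combination ((c : ℂ) * z + d) ^ 2 * he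
    linear_combination e

theorem CM.rf {z : ℍ} (h : CM z) : CM (rf z) := by
  obtain ⟨a, b, c, hne, h⟩ := h
  refine ⟨a, -b, c, by simpa using hne, ?_⟩
  have h1 := congrArg (starRingEnd ℂ) h
  simp only [map_add, map_mul, map_intCast, map_pow, map_zero] at h1
  rw [coe_rf]
  push_cast
  linear_combination h1

/-- the points on the circles `|w|² = m`, `m` a positive integer -/
def Circ (w : ℍ) : Prop := ∃ m : ℕ, 0 < m ∧ Complex.normSq (w : ℂ) = m

theorem Circ.eqv {w : ℍ} (h : Circ w) : Eqv (Mod.rf w) w := by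
  obtain ⟨m, hm, h⟩ := h
  refine ⟨0, -m, 1, 0, by simpa using hm, ?_⟩
  rw [coe_rf]
  push_cast
  have h1 : (w : ℂ) * (starRingEnd ℂ) (w : ℂ) = m := by
    rw [Complex.mul_conj, h]
    push_cast
    rfl
  linear_combination -h1

/-- an orbit which is stable under the reflection contains a point of one of the circles -/
theorem exists_circ {z : ℍ} (h : Eqv (rf z) z) : ∃ w, Eqv w z ∧ Circ w := by
  obtain ⟨a, b, c, d, hdet, h⟩ := h.symm
  rw [coe_rf] at h
  have him := congrArg Complex.im h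
  have hre := congrArg Complex.re h
  simp at him hre
  have hy : (z : ℂ).im ≠ 0 := z.im_ne_zero
  have had : a = d := by
    have h1 : (z : ℂ).im * ((d : ℝ) - a) = 0 := by
      simp only [coe_im, coe_re] at *
      linarith
    have h2 := (mul_eq_zero.1 h1).resolve_left hy
    have h3 : (d : ℝ) = a := by linarith
    exact_mod_cast h3.symm
  subst had
  have hg : (c : ℝ) * ((z : ℂ).re ^ 2 + (z : ℂ).im ^ 2) + 2 * a * (z : ℂ).re + b = 0 := by
    simp only [coe_im, coe_re] at *
    linear_combination -hre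
  by_cases hc : c = 0
  · subst hc
    have ha : a ≠ 0 := by
      rintro rfl
      simp at hdet
    have hx : (z : ℂ).re = -(b : ℝ) / (2 * a) := by
      have ha' : (a : ℝ) ≠ 0 := by exact_mod_cast ha
      field_simp
      push_cast at hg
      linarith
    -- `w = (u - 1) / (u + 1)`, `u = z + b / (2 a)`
    set u : ℂ := (z : ℂ) + ((b / (2 * a) : ℚ) : ℂ) with hu
    have hure : u.re = 0 := by
      rw [hu, Complex.add_re, Complex.ratCast_re, hx]
      push_cast
      ring
    have huim : u.im = (z : ℂ).im := by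
      rw [hu, Complex.add_im, Complex.ratCast_im, add_zero]
    have hupos : 0 < u.im := by rw [huim]; exact z.im_pos
    have hu1 : u + 1 ≠ 0 := by
      intro h0
      have := congrArg Complex.im h0
      simp at this
      exact hupos.ne' this
    have hn1 : Complex.normSq (u - 1) = 1 + u.im ^ 2 := by
      rw [Complex.normSq_apply]
      simp [hure]
      ring
    have hn2 : Complex.normSq (u + 1) = 1 + u.im ^ 2 := by
      rw [Complex.normSq_apply]
      simp [hure]
      ring
    have hwim : 0 < ((u - 1) / (u + 1)).im := by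
      have e : ((u - 1) / (u + 1)).im = 2 * u.im / (1 + u.im ^ 2) := by
        rw [Complex.div_im, hn2]
        simp [hure]
        ring
      rw [e]
      positivity
    refine ⟨⟨(u - 1) / (u + 1), hwim⟩, Eqv.symm ⟨1, b / (2 * a) - 1, 1, b / (2 * a) + 1, by ring_nf; norm_num, ?_⟩,
      1, one_pos, ?_⟩
    · show (u - 1) / (u + 1) * _ = _
      rw [div_mul_eq_mul_div, div_eq_iff hu1, hu]
      push_cast
      ring
    · show Complex.normSq ((u - 1) / (u + 1)) = _
      rw [map_div₀, hn1, hn2]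
      have : (1 : ℝ) + u.im ^ 2 ≠ 0 := by positivity
      rw [div_self this]
      simp
  · have hc' : (c : ℝ) ≠ 0 := by exact_mod_cast hc
    set ρ : ℚ := (a ^ 2 - b * c) / c ^ 2 with hρ
    have hρpos : 0 < ρ := by
      have : 0 < a ^ 2 - b * c := by
        have : a ^ 2 - b * c = a * a - b * c := by ring
        rw [this]
        exact hdet
      positivity
    set q : ℕ := ρ.den with hq
    have hqpos : 0 < q := ρ.den_pos
    obtain ⟨p, hp⟩ : ∃ p : ℕ, (p : ℤ) = ρ.num := ⟨ρ.num.toNat, Int.toNat_of_nonneg (Rat.num_pos.2 hρpos).le⟩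
    have hppos : 0 < p := by
      have := Rat.num_pos.2 hρpos
      omega
    have hρq : ρ * q = p := by
      rw [hq, Rat.mul_den_eq_num, ← hp]
      simp
    have hqC : (0 : ℝ) < q := by exact_mod_cast hqpos
    have hwim : 0 < ((q : ℂ) * ((z : ℂ) + ((a / c : ℚ) : ℂ))).im := by
      rw [Complex.mul_im, Complex.add_im, Complex.ratCast_im]
      simp only [Complex.natCast_re, Complex.natCast_im, add_zero, zero_mul]
      exact mul_pos hqC z.im_pos
    refine ⟨⟨(q : ℂ) * ((z : ℂ) + ((a / c : ℚ) : ℂ)), hwim⟩,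
      Eqv.symm ⟨q, q * (a / c), 0, 1, by simpa using hqpos, ?_⟩, p * q, Nat.mul_pos hppos hqpos, ?_⟩
    · show (q : ℂ) * ((z : ℂ) + ((a / c : ℚ) : ℂ)) * _ = _
      push_cast
      ring
    · show Complex.normSq ((q : ℂ) * ((z : ℂ) + ((a / c : ℚ) : ℂ))) = _
      rw [map_mul, Complex.normSq_natCast, Complex.normSq_apply]
      simp only [Complex.add_re, Complex.add_im, Complex.ratCast_re, Complex.ratCast_im, add_zero]
      have h1 : ((z : ℂ).re + ((a / c : ℚ) : ℝ)) * ((z : ℂ).re + ((a / c : ℚ) : ℝ)) +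
          (z : ℂ).im * (z : ℂ).im = (ρ : ℝ) := by
        rw [hρ]
        push_cast
        field_simp
        linear_combination (c : ℝ) * hg
      rw [h1]
      have h2 : (ρ : ℝ) * q = p := by exact_mod_cast congrArg (fun r : ℚ => (r : ℝ)) hρq
      push_cast
      linear_combination (q : ℝ) * h2

/-! ### the modular invariant -/

theorem jj_rf (z : ℍ) : jj (rf z) = (starRingEnd ℂ) (jj z) := by
  have hq : qq 1 (rf z) = (starRingEnd ℂ) (qq 1 z) := by
    unfold qq
    rw [← Complex.exp_conj]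
    congr 1
    rw [coe_rf]
    simp [Complex.conj_ofNat]
  have key : ∀ (P : PowerSeries ℤ) (F : ℍ → ℂ), TA2.R (TA2.mp P) F → F (rf z) = (starRingEnd ℂ) (F z) := by
    intro P F h
    have h1 := h (rf z)
    have h2 := (Complex.hasSum_conj'.2 (h z))
    refine h1.unique ?_
    convert h2 using 2 with n
    rw [hq, map_mul, map_pow, PowerSeries.coeff_map]
    simp
  have h4 : E₄ (rf z) = (starRingEnd ℂ) (E₄ z) := by
    have h := TA2.R_E4
    rw [TA2.E4_eq] at h
    exact key _ _ h
  have hD : discriminant (rf z) = (starRingEnd ℂ) (discriminant z) := key _ _ TA2.R_D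
  unfold jj
  rw [h4, hD, map_div₀, map_pow]

/-- integral matrices -/
theorem exists_int {z w : ℍ} (h : Eqv z w) : ∃ a b c d : ℤ, 0 < a * d - b * c ∧
    (w : ℂ) * ((c : ℂ) * z + d) = (a : ℂ) * z + b := by
  obtain ⟨a, b, c, d, hd, h⟩ := h
  set N : ℕ := a.den * b.den * c.den * d.den with hN
  have hNpos : 0 < N := by positivity
  have hex : ∀ x : ℚ, x.den ∣ N → ∃ A : ℤ, (A : ℚ) = N * x := by
    intro x hx
    obtain ⟨k, hk⟩ := hx
    refine ⟨x.num * k, ?_⟩
    rw [hk]
    push_cast
    linear_combination (-(k : ℚ)) * Rat.mul_den_eq_num x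
  obtain ⟨A, hA⟩ := hex a ⟨b.den * c.den * d.den, by rw [hN]; ring⟩
  obtain ⟨B, hB⟩ := hex b ⟨a.den * c.den * d.den, by rw [hN]; ring⟩
  obtain ⟨C, hC⟩ := hex c ⟨a.den * b.den * d.den, by rw [hN]; ring⟩
  obtain ⟨D, hD⟩ := hex d ⟨a.den * b.den * c.den, by rw [hN]; ring⟩
  refine ⟨A, B, C, D, ?_, ?_⟩
  · have h1 : ((A * D - B * C : ℤ) : ℚ) = N ^ 2 * (a * d - b * c) := by
      push_cast
      rw [hA, hB, hC, hD]
      ring
    have h2 : (0 : ℚ) < ((A * D - B * C : ℤ) : ℚ) := by
      rw [h1]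
      have : (0 : ℚ) < N := by exact_mod_cast hNpos
      positivity
    exact_mod_cast h2
  · have hA' : (A : ℂ) = N * a := by exact_mod_cast congrArg (fun q : ℚ => (q : ℂ)) hA
    have hB' : (B : ℂ) = N * b := by exact_mod_cast congrArg (fun q : ℚ => (q : ℂ)) hB
    have hC' : (C : ℂ) = N * c := by exact_mod_cast congrArg (fun q : ℚ => (q : ℂ)) hC
    have hD' : (D : ℂ) = N * d := by exact_mod_cast congrArg (fun q : ℚ => (q : ℂ)) hD
    rw [hA', hB', hC', hD']
    linear_combination (N : ℂ) * h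

theorem cl_int {S : Set ℂ} (n : ℤ) : (n : ℂ) ∈ cl ℂ S := by
  have := cl_rat (K := ℂ) (X := S) (n : ℚ)
  simpa using this

/-- modular equations -/
theorem jj_mem_cl {z w : ℍ} (h : Eqv z w) : jj w ∈ cl ℂ {jj z} := by
  obtain ⟨a, b, c, d, hd, h⟩ := exists_int h
  have h1 := isogenous_integral z w a b c d hd h
  rw [mem_cl]
  have h2 : IsAlgebraic (Algebra.adjoin ℤ {jj z}) (jj w) := h1.isAlgebraic
  obtain ⟨p, hp, hpe⟩ := h2
  let f : Algebra.adjoin ℤ {jj z} →+* Algebra.adjoin ℚ {jj z} :=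
    { toFun := fun x => ⟨x.1, by
        have hx := x.2
        refine Algebra.adjoin_induction (p := fun x _ => x ∈ Algebra.adjoin ℚ {jj z}) ?_ ?_ ?_ ?_ hx
        · intro y hy
          exact Algebra.subset_adjoin hy
        · intro n
          have := (Algebra.adjoin ℚ {jj z}).algebraMap_mem (n : ℚ)
          simpa using this
        · intro x y _ _ hx hy
          exact add_mem hx hy
        · intro x y _ _ hx hy
          exact mul_mem hx hy⟩
      map_one' := rfl
      map_mul' := fun _ _ => rfl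
      map_zero' := rfl
      map_add' := fun _ _ => rfl }
  have hfinj : Function.Injective f := fun x y hxy =>
    Subtype.ext (congrArg (fun t : Algebra.adjoin ℚ {jj z} => (t : ℂ)) hxy)
  refine ⟨p.map f, (Polynomial.map_ne_zero_iff hfinj).2 hp, ?_⟩
  rw [Polynomial.aeval_def, Polynomial.eval₂_map]
  rw [Polynomial.aeval_def] at hpe
  exact hpe

theorem mem_cl_of_eqv {z w : ℍ} (h : Eqv z w) : (w : ℂ) ∈ cl ℂ {(z : ℂ)} := by
  obtain ⟨a, b, c, d, hd, h⟩ := h
  have hne := den_ne (z := z) hd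
  have e : (w : ℂ) = ((a : ℂ) * z + b) * ((c : ℂ) * z + d)⁻¹ := by
    rw [← h, mul_assoc, mul_inv_cancel₀ hne, mul_one]
  have hz : (z : ℂ) ∈ cl ℂ {(z : ℂ)} := subset_cl _ (mem_singleton _)
  rw [e]
  exact cl_mul (cl_add (cl_mul (cl_rat a) hz) (cl_rat b))
    (cl_inv (cl_add (cl_mul (cl_rat c) hz) (cl_rat d)))

end Pool.Agent.Q51.Sch.Mod
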