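import Mathlib
import Pool.Agent.Q51.Sch.Rk
import Pool.Agent.H135R2.VS.Der

/-!
# Derivations of the constants, applied to the coefficients of power series
-/

set_option autoImplicit false

open PowerSeries

namespace Pool.Agent.Q51.Sch.Ser

/-- membership in the algebraic closure by derivations -/
theorem mem_cl_of_der {K : Type} [Field K] [CharZero K] {S : Set K} {a : K}
    (h : ∀ δ : Derivation ℚ K K, (∀ s ∈ S, δ s = 0) → δ a = 0) : a ∈ cl K S := by
  by_contra hcon
  set F : IntermediateField ℚ K := IntermediateField.adjoin ℚ S with hF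
  have hFc : (F : Set K) ⊆ cl K S := by
    intro b hb
    induction hb using IntermediateField.adjoin_induction with
    | mem x hx => exact subset_cl _ hx
    | algebraMap q => exact cl_rat q
    | add x y _ _ hx hy => exact cl_add hx hy
    | inv x _ hx => exact cl_inv hx
    | mul x y _ _ hx hy => exact cl_mul hx hy
  have htr : Transcendental F a := by
    intro halg
    apply hcon
    refine cl_idem hFc ?_
    rw [mem_cl]
    obtain ⟨p, hp, hpe⟩ := halg
    let f : F →+* Algebra.adjoin ℚ (F : Set K) :=
      { toFun := fun x => ⟨x.1, Algebra.subset_adjoin x.2⟩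
        map_one' := rfl
        map_mul' := fun _ _ => rfl
        map_zero' := rfl
        map_add' := fun _ _ => rfl }
    refine ⟨p.map f, (Polynomial.map_ne_zero_iff f.injective).2 hp, ?_⟩
    rw [Polynomial.aeval_def, Polynomial.eval₂_map]
    rw [Polynomial.aeval_def] at hpe
    exact hpe
  have hai : AlgebraicIndependent F (fun _ : Unit => a) :=
    algebraicIndependent_unique_type_iff.2 htr
  obtain ⟨D, hD⟩ := Pool.Agent.H135R2.VS.exists_der hai (fun _ => (1 : K))
  have h1 := h (D.restrictScalars ℚ) (by
    intro s hs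
    have : s ∈ F := IntermediateField.subset_adjoin ℚ S hs
    show D s = 0
    exact D.map_algebraMap (⟨s, this⟩ : F))
  have h2 : D a = 1 := hD ()
  rw [Derivation.restrictScalars_apply, h2] at h1
  exact one_ne_zero h1

/-- a derivation which vanishes on a set vanishes on its algebraic closure -/
theorem der_cl {K : Type} [Field K] [CharZero K] {S : Set K} (δ : Derivation ℚ K K)
    (h : ∀ s ∈ S, δ s = 0) {a : K} (ha : a ∈ cl K S) : δ a = 0 := by
  rw [mem_cl] at ha
  have hA : ∀ x ∈ Algebra.adjoin ℚ S, δ x = 0 := by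
    intro x hx
    induction hx using Algebra.adjoin_induction with
    | mem x hx => exact h x hx
    | algebraMap q => exact δ.map_algebraMap q
    | add x y _ _ hx hy => rw [map_add, hx, hy, add_zero]
    | mul x y _ _ hx hy => rw [Derivation.leibniz, hx, hy]; simp
  by_contra hne
  obtain ⟨p, hp, hpe⟩ := ha
  -- descent on the degree
  suffices hs : ∀ n : ℕ, ∀ p : Polynomial (Algebra.adjoin ℚ S), p.natDegree ≤ n → p ≠ 0 →
      Polynomial.aeval a p ≠ 0 from hs _ p le_rfl hp hpe
  have key : ∀ p : Polynomial (Algebra.adjoin ℚ S),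
      δ (Polynomial.aeval a p) = Polynomial.aeval a (Polynomial.derivative p) * δ a := by
    intro p
    induction p using Polynomial.induction_on with
    | C c =>
      rw [Polynomial.aeval_C, Polynomial.derivative_C, map_zero, zero_mul]
      exact hA _ c.2
    | add p q hp hq => rw [map_add, map_add, hp, hq, map_add, map_add, add_mul]
    | monomial n c ih =>
      simp only [map_mul, Polynomial.aeval_C, map_pow, Polynomial.aeval_X, Derivation.leibniz,
        Derivation.leibniz_pow, Polynomial.derivative_mul, Polynomial.derivative_C,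
        Polynomial.derivative_X_pow, zero_mul, zero_add, smul_eq_mul, nsmul_eq_mul]
      have : δ (algebraMap (Algebra.adjoin ℚ S) K c) = 0 := hA _ c.2
      rw [this]
      simp
      ring
  intro n
  induction n with
  | zero =>
    intro p hpn hp0 hpe
    rw [Nat.le_zero] at hpn
    rw [Polynomial.eq_C_of_natDegree_eq_zero hpn, Polynomial.aeval_C] at hpe
    have h0 : p.coeff 0 = 0 := by
      apply Subtype.ext
      exact hpe
    apply hp0
    rw [Polynomial.eq_C_of_natDegree_eq_zero hpn, h0, Polynomial.C_0]
  | succ n ih =>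
    intro p hpn hp0 hpe
    by_cases hdeg : p.natDegree ≤ n
    · exact ih p hdeg hp0 hpe
    · have h1 := key p
      rw [hpe, map_zero] at h1
      have h2 : Polynomial.aeval a (Polynomial.derivative p) = 0 :=
        (mul_eq_zero.1 h1.symm).resolve_right hne
      have hpos : 0 < p.natDegree := by omega
      refine ih (Polynomial.derivative p) ?_ ?_ h2
      · have := Polynomial.natDegree_derivative_lt (p := p) hpos.ne'
        omega
      · intro h3
        have := Polynomial.derivative_eq_zero.1 h3
        omega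

/-- a derivation applied to the coefficients -/
noncomputable def co (δ : Derivation ℚ ℂ ℂ) : Derivation ℚ ℂ⟦X⟧ ℂ⟦X⟧ :=
  Derivation.mk'
    { toFun := fun f => PowerSeries.mk fun n => δ (coeff n f)
      map_add' := fun f g => by ext n; simp
      map_smul' := fun q f => by
        ext n
        simp }
    (fun f g => by
      ext n
      simp only [LinearMap.coe_mk, AddHom.coe_mk, coeff_mk, smul_eq_mul, map_add, coeff_mul, map_sum,
        Derivation.leibniz, Finset.sum_add_distrib]
      congr 1
      exact Finset.Nat.sum_antidiagonal_swap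
        (f := fun x : ℕ × ℕ => coeff x.1 g * δ (coeff x.2 f)))

theorem coeff_co (δ : Derivation ℚ ℂ ℂ) (f : ℂ⟦X⟧) (n : ℕ) : coeff n (co δ f) = δ (coeff n f) := by
  show coeff n (PowerSeries.mk fun n => δ (coeff n f)) = _
  rw [coeff_mk]

/-- a derivation of a domain of characteristic zero which kills the coefficients of a polynomial kills its
roots -/
theorem kills_root {R : Type} [CommRing R] [IsDomain R] [CharZero R] [Algebra ℚ R] (E : Derivation ℚ R R)
    (p : Polynomial R) (hp : p ≠ 0) (hk : ∀ k, E (p.coeff k) = 0) {v : R} (hv : p.eval v = 0) : E v = 0 := by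
  by_contra hne
  suffices hs : ∀ n : ℕ, ∀ p : Polynomial R, p.natDegree ≤ n → p ≠ 0 → (∀ k, E (p.coeff k) = 0) →
      p.eval v ≠ 0 from hs _ p le_rfl hp hk hv
  have key : ∀ p : Polynomial R, (∀ k, E (p.coeff k) = 0) →
      E (p.eval v) = (Polynomial.derivative p).eval v * E v := by
    intro p hk
    rw [Polynomial.eval_eq_sum, Polynomial.derivative_eval, Polynomial.sum, Polynomial.sum, map_sum,
      Finset.sum_mul]
    refine Finset.sum_congr rfl fun k _ => ?_
    rw [Derivation.leibniz, hk, Derivation.leibniz_pow]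
    simp only [smul_eq_mul, nsmul_eq_mul, mul_zero, add_zero]
    ring
  intro n
  induction n with
  | zero =>
    intro p hpn hp0 _ hpe
    rw [Nat.le_zero] at hpn
    rw [Polynomial.eq_C_of_natDegree_eq_zero hpn, Polynomial.eval_C] at hpe
    apply hp0
    rw [Polynomial.eq_C_of_natDegree_eq_zero hpn, hpe, Polynomial.C_0]
  | succ n ih =>
    intro p hpn hp0 hk hpe
    by_cases hdeg : p.natDegree ≤ n
    · exact ih p hdeg hp0 hk hpe
    · have h1 := key p hk
      rw [hpe, map_zero] at h1
      have h2 : (Polynomial.derivative p).eval v = 0 := (mul_eq_zero.1 h1.symm).resolve_right hne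
      have hpos : 0 < p.natDegree := by omega
      refine ih (Polynomial.derivative p) ?_ ?_ ?_ h2
      · have := Polynomial.natDegree_derivative_lt (p := p) hpos.ne'
        omega
      · intro h3
        have := Polynomial.derivative_eq_zero.1 h3
        omega
      · intro k
        rw [Polynomial.coeff_derivative, Derivation.leibniz, hk]
        have : E ((k : R) + 1) = 0 := by
          rw [map_add, Derivation.map_natCast, Derivation.map_one_eq_zero, add_zero]
        rw [this]
        simp

/-- `d/dX` -/
noncomputable def dX : Derivation ℚ ℂ⟦X⟧ ℂ⟦X⟧ := (PowerSeries.derivative ℂ).restrictScalars ℚ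

theorem coeff_dX (f : ℂ⟦X⟧) (n : ℕ) : coeff n (dX f) = coeff (n + 1) f * (n + 1) :=
  PowerSeries.coeff_derivative f n

theorem dX_C (c : ℂ) : dX (C c) = 0 := PowerSeries.derivative_C

theorem co_C {δ : Derivation ℚ ℂ ℂ} {c : ℂ} (h : δ c = 0) : co δ (C c) = 0 := by
  ext n
  rw [coeff_co, coeff_C]
  split_ifs
  · rw [h]; simp
  · simp

/-- **Transport.** If `V` is a root of a monic polynomial with coefficients in `ℚ̄[J]`, then
`J' δ(V) = δ(J) V'`. -/
theorem transport (δ : Derivation ℚ ℂ ℂ) (J V : ℂ⟦X⟧) (p : Polynomial (Polynomial ℂ)) (hp : p.Monic)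
    (halg : ∀ l k, IsAlgebraic ℚ ((p.coeff l).coeff k))
    (hV : p.eval₂ (Polynomial.aeval J : Polynomial ℂ →ₐ[ℂ] ℂ⟦X⟧).toRingHom V = 0) :
    dX J * co δ V = co δ J * dX V := by
  set E : Derivation ℚ ℂ⟦X⟧ ℂ⟦X⟧ := dX J • co δ - co δ J • dX with hE
  have hEJ : E J = 0 := by
    rw [hE, Derivation.sub_apply, Derivation.smul_apply, Derivation.smul_apply, smul_eq_mul, smul_eq_mul]
    ring
  have hEC : ∀ c : ℂ, IsAlgebraic ℚ c → E (C c) = 0 := by
    intro c hc
    have h1 : δ c = 0 := der_cl (S := ∅) δ (by simp) (cl_algebraic hc)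
    rw [hE, Derivation.sub_apply, Derivation.smul_apply, Derivation.smul_apply, dX_C, co_C h1]
    simp
  have hEp : ∀ q : Polynomial ℂ, (∀ k, IsAlgebraic ℚ (q.coeff k)) → E (Polynomial.aeval J q) = 0 := by
    intro q hq
    rw [Polynomial.aeval_eq_sum_range, map_sum]
    refine Finset.sum_eq_zero fun k _ => ?_
    rw [PowerSeries.smul_eq_C_mul, Derivation.leibniz, Derivation.leibniz_pow, hEJ, hEC _ (hq k)]
    simp
  set P : Polynomial ℂ⟦X⟧ := p.map (Polynomial.aeval J : Polynomial ℂ →ₐ[ℂ] ℂ⟦X⟧).toRingHom with hP
  have hPm : P.Monic := hp.map _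
  have hcz : CharZero ℂ⟦X⟧ := algebraRat.charZero _
  have h1 : E V = 0 := by
    refine kills_root E P hPm.ne_zero ?_ ?_
    · intro k
      rw [hP, Polynomial.coeff_map]
      exact hEp _ (halg k)
    · rw [hP, Polynomial.eval_map]
      exact hV
  rw [hE, Derivation.sub_apply, Derivation.smul_apply, Derivation.smul_apply, smul_eq_mul, smul_eq_mul] at h1
  linear_combination h1

/-- the first coefficients of `V` are killed if the first coefficients of `J` are killed and `J'(0) ≠ 0` -/
theorem kills_coeff (δ : Derivation ℚ ℂ ℂ) (J V : ℂ⟦X⟧) (h : dX J * co δ V = co δ J * dX V)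
    (h1 : coeff 1 J ≠ 0) (m : ℕ) (hJ : ∀ k < m, δ (coeff k J) = 0) : ∀ k < m, δ (coeff k V) = 0 := by
  have hd : X ^ m ∣ co δ J := by
    rw [X_pow_dvd_iff]
    intro k hk
    rw [coeff_co]
    exact hJ k hk
  have hu : IsUnit (dX J) := by
    rw [isUnit_iff_constantCoeff]
    rw [← coeff_zero_eq_constantCoeff_apply, coeff_dX]
    simpa using h1
  have h2 : X ^ m ∣ dX J * co δ V := by
    rw [h]
    exact hd.mul_right _
  have h3 : X ^ m ∣ co δ V := (hu.dvd_mul_left).1 h2
  rw [X_pow_dvd_iff] at h3
  intro k hk
  rw [← coeff_co]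
  exact h3 k hk

end Pool.Agent.Q51.Sch.Ser
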