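import Mathlib
import Pool.Agent.Q51.Sch.Ser

/-!
# Taylor series as a homomorphism
-/

set_option autoImplicit false

open PowerSeries Filter Topology

namespace Pool.Agent.Q51.Sch.Ser

/-- the functions analytic at `z` -/
def AN (z : ℂ) : Subalgebra ℂ (ℂ → ℂ) where
  carrier := {f | AnalyticAt ℂ f z}
  mul_mem' := fun hf hg => AnalyticAt.mul hf hg
  add_mem' := fun hf hg => AnalyticAt.add hf hg
  algebraMap_mem' := fun c => analyticAt_const

/-- the Taylor series at `z` -/
noncomputable def TH (z : ℂ) : AN z →ₐ[ℂ] ℂ⟦X⟧ where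
  toFun := fun f => PowerSeries.mk fun n => iteratedDeriv n f.1 z / (n.factorial : ℂ)
  map_one' := by
    ext n
    rw [coeff_mk, coeff_one]
    show iteratedDeriv n (fun _ => (1 : ℂ)) z / _ = _
    rw [iteratedDeriv_const]
    split_ifs with h
    · subst h
      simp
    · simp
  map_mul' := by
    intro f g
    ext n
    rw [coeff_mk, coeff_mul]
    have hf : ContDiffAt ℂ n f.1 z := AnalyticAt.contDiffAt f.2
    have hg : ContDiffAt ℂ n g.1 z := AnalyticAt.contDiffAt g.2
    show iteratedDeriv n (f.1 * g.1) z / _ = _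
    rw [iteratedDeriv_mul hf hg, Finset.Nat.sum_antidiagonal_eq_sum_range_succ_mk, Finset.sum_div]
    refine Finset.sum_congr rfl fun k hk => ?_
    rw [coeff_mk, coeff_mk]
    have hkn : k ≤ n := Nat.lt_succ_iff.1 (Finset.mem_range.1 hk)
    rw [Nat.choose_eq_factorial_div_factorial hkn, Nat.cast_div (Nat.factorial_mul_factorial_dvd_factorial hkn)
      (by exact_mod_cast (Nat.mul_pos (Nat.factorial_pos _) (Nat.factorial_pos _)).ne')]
    have h1 : (n.factorial : ℂ) ≠ 0 := by exact_mod_cast n.factorial_ne_zero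
    have h2 : (k.factorial : ℂ) ≠ 0 := by exact_mod_cast k.factorial_ne_zero
    have h3 : ((n - k).factorial : ℂ) ≠ 0 := by exact_mod_cast (n - k).factorial_ne_zero
    push_cast
    field_simp
  map_zero' := by
    ext n
    rw [coeff_mk]
    show iteratedDeriv n (fun _ => (0 : ℂ)) z / _ = _
    rw [iteratedDeriv_const]
    simp
  map_add' := by
    intro f g
    ext n
    have hf : ContDiffAt ℂ n f.1 z := AnalyticAt.contDiffAt f.2
    have hg : ContDiffAt ℂ n g.1 z := AnalyticAt.contDiffAt g.2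
    rw [map_add, coeff_mk, coeff_mk, coeff_mk]
    show iteratedDeriv n (f.1 + g.1) z / _ = _
    rw [iteratedDeriv_add hf hg, add_div]
  commutes' := by
    intro c
    ext n
    rw [coeff_mk]
    show iteratedDeriv n (fun _ => c) z / _ = coeff n (C c)
    rw [iteratedDeriv_const, coeff_C]
    split_ifs with h
    · subst h
      simp
    · simp

theorem coeff_TH {z : ℂ} (f : AN z) (n : ℕ) :
    coeff n (TH z f) = iteratedDeriv n f.1 z / (n.factorial : ℂ) := by
  show coeff n (PowerSeries.mk fun n => iteratedDeriv n f.1 z / (n.factorial : ℂ)) = _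
  rw [coeff_mk]

theorem TH_zero_of {z : ℂ} (f : AN z) (h : f.1 =ᶠ[𝓝 z] (fun _ => (0 : ℂ))) : TH z f = 0 := by
  ext n
  rw [coeff_TH, h.iteratedDeriv_eq]
  show iteratedDeriv n (fun _ => (0 : ℂ)) z / _ = _
  rw [iteratedDeriv_const]
  simp

/-- the transport equation for the Taylor series of `f` and of an algebraic function `v` of `f` -/
theorem trans_TH {z : ℂ} {f v : ℂ → ℂ} (hf : AnalyticAt ℂ f z) (hv : AnalyticAt ℂ v z)
    (p : Polynomial (Polynomial ℂ)) (hp : p.Monic) (halg : ∀ l k, IsAlgebraic ℚ ((p.coeff l).coeff k))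
    (hpv : ∀ᶠ t in 𝓝 z, (p.map (Polynomial.evalRingHom (f t))).eval (v t) = 0)
    (δ : Derivation ℚ ℂ ℂ) :
    dX (TH z ⟨f, hf⟩) * co δ (TH z ⟨v, hv⟩) = co δ (TH z ⟨f, hf⟩) * dX (TH z ⟨v, hv⟩) := by
  set F : AN z := ⟨f, hf⟩ with hF
  set V : AN z := ⟨v, hv⟩ with hV
  have h1 : p.eval₂ (Polynomial.aeval (TH z F) : Polynomial ℂ →ₐ[ℂ] ℂ⟦X⟧).toRingHom (TH z V) = 0 := by
    have h2 : p.eval₂ (Polynomial.aeval (TH z F) : Polynomial ℂ →ₐ[ℂ] ℂ⟦X⟧).toRingHom (TH z V) =
        TH z (p.eval₂ (Polynomial.aeval F : Polynomial ℂ →ₐ[ℂ] AN z).toRingHom V) := by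
      have h3 := Polynomial.hom_eval₂ p (Polynomial.aeval F : Polynomial ℂ →ₐ[ℂ] AN z).toRingHom
        (TH z).toRingHom V
      have h4 : (TH z).toRingHom.comp (Polynomial.aeval F : Polynomial ℂ →ₐ[ℂ] AN z).toRingHom =
          (Polynomial.aeval (TH z F) : Polynomial ℂ →ₐ[ℂ] ℂ⟦X⟧).toRingHom := by
        ext x
        · simp
        · simp
      rw [h4] at h3
      exact h3.symm
    rw [h2]
    apply TH_zero_of
    filter_upwards [hpv] with t ht
    have h5 : (p.eval₂ (Polynomial.aeval F : Polynomial ℂ →ₐ[ℂ] AN z).toRingHom V).1 t =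
        (p.map (Polynomial.evalRingHom (f t))).eval (v t) := by
      let ev : AN z →+* ℂ := (Pi.evalRingHom (fun _ : ℂ => ℂ) t).comp (AN z).val.toRingHom
      have h6 := Polynomial.hom_eval₂ p (Polynomial.aeval F : Polynomial ℂ →ₐ[ℂ] AN z).toRingHom ev V
      have h7 : ev.comp (Polynomial.aeval F : Polynomial ℂ →ₐ[ℂ] AN z).toRingHom =
          Polynomial.evalRingHom (f t) := by
        apply Polynomial.ringHom_ext
        · intro a
          show ((Polynomial.aeval F (Polynomial.C a) : AN z) : ℂ → ℂ) t = _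
          rw [Polynomial.aeval_C]
          simp
        · show ((Polynomial.aeval F Polynomial.X : AN z) : ℂ → ℂ) t = _
          rw [Polynomial.aeval_X]
          simp [hF]
      rw [h7] at h6
      rw [Polynomial.eval_map]
      exact h6
    rw [h5, ht]
  exact transport δ (TH z F) (TH z V) p hp halg h1

theorem der_fac (δ : Derivation ℚ ℂ ℂ) (a : ℂ) (k : ℕ) :
    δ (a / (k.factorial : ℂ)) = δ a / (k.factorial : ℂ) := by
  have h4 : δ ((k.factorial : ℂ)⁻¹) = 0 := by
    have := δ.map_algebraMap ((k.factorial : ℚ)⁻¹)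
    simpa using this
  rw [div_eq_mul_inv, Derivation.leibniz, h4, div_eq_mul_inv, smul_zero, zero_add, smul_eq_mul, mul_comm]

/-- the lowest coefficients of the transport equation -/
theorem trans_low {z : ℂ} {f v : ℂ → ℂ} (hf : AnalyticAt ℂ f z) (hv : AnalyticAt ℂ v z)
    (p : Polynomial (Polynomial ℂ)) (hp : p.Monic) (halg : ∀ l k, IsAlgebraic ℚ ((p.coeff l).coeff k))
    (hpv : ∀ᶠ t in 𝓝 z, (p.map (Polynomial.evalRingHom (f t))).eval (v t) = 0)
    (δ : Derivation ℚ ℂ ℂ) :
    deriv f z * δ (v z) = δ (f z) * deriv v z ∧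
    (δ (f z) = 0 → δ (v z) = 0 → δ (deriv f z) = 0 → δ (deriv v z) = 0 →
      deriv f z * δ (deriv (deriv v) z) = δ (deriv (deriv f) z) * deriv v z) := by
  have h := trans_TH hf hv p hp halg hpv δ
  have e0 : ∀ (g : ℂ → ℂ) (hg : AnalyticAt ℂ g z), coeff 0 (TH z ⟨g, hg⟩) = g z := by
    intro g hg
    rw [coeff_TH]
    simp
  have e1 : ∀ (g : ℂ → ℂ) (hg : AnalyticAt ℂ g z), coeff 1 (TH z ⟨g, hg⟩) = deriv g z := by
    intro g hg
    rw [coeff_TH]
    simp [iteratedDeriv_one]
  have e2 : ∀ (g : ℂ → ℂ) (hg : AnalyticAt ℂ g z),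
      coeff 2 (TH z ⟨g, hg⟩) = deriv (deriv g) z / ((2 : ℕ).factorial : ℂ) := by
    intro g hg
    rw [coeff_TH, iteratedDeriv_succ, iteratedDeriv_one]
  constructor
  · have h0 := congrArg (coeff 0) h
    rw [coeff_mul, coeff_mul] at h0
    simpa [Finset.Nat.antidiagonal_zero, coeff_dX, coeff_co, e0, e1] using h0
  · intro a1 a2 a3 a4
    have h0 := congrArg (coeff 2) h
    rw [coeff_mul, coeff_mul] at h0
    have ha : (Finset.HasAntidiagonal.antidiagonal 2 : Finset (ℕ × ℕ)) = {(0, 2), (1, 1), (2, 0)} := by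
      decide
    rw [ha] at h0
    simp only [Finset.mem_insert, Prod.mk.injEq, OfNat.zero_ne_ofNat, zero_ne_one, false_and, or_false,
      Finset.mem_singleton, not_false_eq_true, Finset.sum_insert, OfNat.one_ne_ofNat,
      Finset.sum_singleton, coeff_dX, coeff_co, e0, e1, e2, zero_add, der_fac, a1, a2, a3, a4] at h0
    simp at h0
    field_simp at h0
    linear_combination h0

/-- **Derivatives of algebraic functions of `f`.** Let `f`, `v` be analytic at `z`, `f' (z) ≠ 0` and let `v` be a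
root of a monic polynomial with coefficients in `ℚ̄[f]`. A derivation of `ℂ` which vanishes on the first
`m` derivatives of `f` at `z` vanishes on the first `m` derivatives of `v`. -/
theorem kills {z : ℂ} {f v : ℂ → ℂ} (hf : AnalyticAt ℂ f z) (hv : AnalyticAt ℂ v z)
    (p : Polynomial (Polynomial ℂ)) (hp : p.Monic) (halg : ∀ l k, IsAlgebraic ℚ ((p.coeff l).coeff k))
    (hpv : ∀ᶠ t in 𝓝 z, (p.map (Polynomial.evalRingHom (f t))).eval (v t) = 0)
    (δ : Derivation ℚ ℂ ℂ) (hd : deriv f z ≠ 0) (m : ℕ) (hJ : ∀ k < m, δ (iteratedDeriv k f z) = 0) :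
    ∀ k < m, δ (iteratedDeriv k v z) = 0 := by
  have h2 := trans_TH hf hv p hp halg hpv δ
  have h3 := kills_coeff δ (TH z ⟨f, hf⟩) (TH z ⟨v, hv⟩) h2 (by
    rw [coeff_TH]
    simpa [iteratedDeriv_one] using hd) m (by
      intro k hk
      rw [coeff_TH, der_fac, hJ k hk]
      simp)
  intro k hk
  have h4 := h3 k hk
  rw [coeff_TH] at h4
  have h5 : iteratedDeriv k v z = (k.factorial : ℂ) * (iteratedDeriv k v z / (k.factorial : ℂ)) := by
    have h1 : (k.factorial : ℂ) ≠ 0 := by exact_mod_cast k.factorial_ne_zero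
    field_simp
  rw [h5, Derivation.leibniz, h4, Derivation.map_natCast]
  simp

end Pool.Agent.Q51.Sch.Ser
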