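import Mathlib
import Pool.Agent.Q51.Sch.Tay
import Pool.Agent.Q51.Sch.ModBase

/-!
# Derivatives of the modular invariant at equivalent points
-/

set_option autoImplicit false

open UpperHalfPlane ModularForm H294ZP Filter Topology Polynomial

namespace Pool.Agent.Q51.Sch.Mod

open H294ZP.TDaux in
/-- modular polynomials: `j (g τ)` is a root of a monic polynomial with coefficients in `ℚ̄[j(τ)]` which
does not depend on `τ` -/
theorem exists_phi (N : ℕ) (hN : 0 < N) : ∃ P : Polynomial (Polynomial ℂ), P.Monic ∧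
    (∀ l k, IsAlgebraic ℚ ((P.coeff l).coeff k)) ∧
    ∀ (τ w : ℍ) (a b c d : ℤ), a * d - b * c = N → (w : ℂ) * (c * τ + d) = a * τ + b →
      (P.map (evalRingHom (jj τ))).eval (jj w) = 0 := by
  have hA : TA := ⟨ta1.1, ta1.2, ta2⟩
  have hB : TB := TBproof.tb ⟨ta1.1, ta1.2, ta2⟩ tc
  have hC : TC := tc
  have hF : TF := TF676.tf ta1.1
  obtain ⟨ι, _, _, α, δ, β, h, h1, h2, h3, h4⟩ := hF N hN
  have hG : ∀ k, Lx N (fun τ => jj (h k τ)) := by
    intro k
    obtain ⟨ha, hd, had⟩ := h1 k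
    have := hC.2.2.2.2 hA.2.1 hA.2.2 (α k) (δ k) (β k) ha hd (h k) (h2 k)
    rw [had] at this
    exact ⟨⟨_, _, this.1⟩, this.2⟩
  let F : ℍ → ℂ[X] := fun τ => ∏ k, (X - C (jj (h k τ)))
  have hco := coeff_prod hC hN (fun k τ => jj (h k τ)) hG Finset.univ
  have hinv : ∀ j, Inv (fun τ => (F τ).coeff j) := by
    intro j p q r s hps τ w hw
    obtain ⟨σ, hσ⟩ := h3 p q r s hps τ w hw
    have : F w = F τ := by
      show ∏ k, (X - C (jj (h k w))) = ∏ k, (X - C (jj (h k τ)))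
      rw [← Equiv.prod_comp σ (fun k => (X - C (jj (h k τ))))]
      exact Finset.prod_congr rfl fun k _ => by rw [hσ k]
    show (F w).coeff j = (F τ).coeff j
    rw [this]
  have hmon : ∀ τ, (F τ).Monic := fun τ => monic_prod_of_monic _ _ fun k _ => monic_X_sub_C _
  have hdeg : ∀ τ, (F τ).natDegree = Fintype.card ι := by
    intro τ
    show (∏ k, (X - C (jj (h k τ)))).natDegree = _
    rw [natDegree_prod_of_monic _ _ fun k _ => monic_X_sub_C _]
    simp
  have hex : ∀ j, ∃ Q : Polynomial ℂ, (∀ k, IsIntegral ℤ (Q.coeff k)) ∧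
      ∀ τ, (F τ).coeff j = Q.eval (jj τ) := by
    intro j
    obtain ⟨⟨m, A, hL⟩, hH⟩ := hco j
    obtain ⟨Q, hP1, hP2, -⟩ := hB N hN m A _ (hinv j) hH hL
    exact ⟨Q, hP1, hP2⟩
  choose Q hQ1 hQ2 using hex
  set n := Fintype.card ι with hn
  refine ⟨X ^ n + ∑ j ∈ Finset.range n, C (Q j) * X ^ j, ?_, ?_, ?_⟩
  · apply monic_X_pow_add
    refine lt_of_le_of_lt (degree_sum_le _ _) ?_
    rw [Finset.sup_lt_iff (by exact_mod_cast WithBot.bot_lt_coe n)]
    intro j hj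
    refine lt_of_le_of_lt (degree_C_mul_X_pow_le j (Q j)) ?_
    exact_mod_cast Finset.mem_range.1 hj
  · intro l k
    rw [coeff_add, coeff_add, coeff_X_pow]
    have hz : ∀ z : ℂ, IsIntegral ℤ z → IsAlgebraic ℚ z := fun z hz =>
      (hz.tower_top (A := ℚ)).isAlgebraic
    refine IsAlgebraic.add ?_ ?_
    · split_ifs
      · rw [coeff_one]
        split_ifs
        · exact isAlgebraic_one
        · exact isAlgebraic_zero
      · rw [coeff_zero]
        exact isAlgebraic_zero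
    · rw [finsetSum_coeff]
      simp only [coeff_C_mul, coeff_X_pow, mul_ite, mul_one, mul_zero]
      rw [finsetSum_coeff]
      refine Finset.sum_induction _ (IsAlgebraic ℚ) (fun _ _ ha hb => ha.add hb) isAlgebraic_zero
        fun j _ => ?_
      split_ifs
      · exact hz _ (hQ1 j k)
      · rw [coeff_zero]
        exact isAlgebraic_zero
  · intro τ w a b c d hdet hw
    obtain ⟨k, hk⟩ := h4 a b c d hdet τ w hw
    have hroot : (F τ).eval (jj w) = 0 := by
      show (∏ k, (X - C (jj (h k τ)))).eval (jj w) = 0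
      rw [eval_prod]
      exact Finset.prod_eq_zero (Finset.mem_univ k) (by rw [hk]; simp)
    rw [eval_eq_sum_range, hdeg, Finset.sum_range_succ] at hroot
    have hlead : (F τ).coeff n = 1 := by
      have := hmon τ
      rw [Monic, leadingCoeff, hdeg] at this
      exact this
    rw [hlead, one_mul] at hroot
    simp only [Polynomial.map_add, Polynomial.map_pow, Polynomial.map_X, Polynomial.map_sum,
      Polynomial.map_mul, Polynomial.map_C, eval_add, eval_pow, eval_X, eval_finsetSum, eval_mul,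
      eval_C, coe_evalRingHom]
    rw [add_comm, ← hroot]
    congr 1
    exact Finset.sum_congr rfl fun j _ => by rw [hQ2]

/-- `j` as a function of a complex variable -/
noncomputable def jc (t : ℂ) : ℂ := jj (ofComplex t)

theorem jc_coe (z : ℍ) : jc (z : ℂ) = jj z := by
  unfold jc
  rw [ofComplex_apply]

theorem isOpen_H : IsOpen {t : ℂ | 0 < t.im} := isOpen_lt continuous_const Complex.continuous_im

theorem jc_an {t : ℂ} (ht : 0 < t.im) : AnalyticAt ℂ jc t := by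
  have h := ta1.2
  exact h.analyticAt (isOpen_H.mem_nhds ht)

/-- the numbers `z, j, j', j''` -/
noncomputable def jet (z : ℍ) : Set ℂ := {(z : ℂ), jj z, deriv jc z, deriv (deriv jc) z}

section

variable (a b c d : ℤ)

/-- the fractional linear map -/
noncomputable def mb (t : ℂ) : ℂ := ((a : ℂ) * t + b) / ((c : ℂ) * t + d)

theorem mb_deriv {t : ℂ} (h : (c : ℂ) * t + d ≠ 0) :
    HasDerivAt (mb a b c d) (((a * d - b * c : ℤ) : ℂ) / ((c : ℂ) * t + d) ^ 2) t := by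
  have h1 : HasDerivAt (fun t : ℂ => (a : ℂ) * t + b) a t := by
    simpa using ((hasDerivAt_id t).const_mul (a : ℂ)).add_const (b : ℂ)
  have h2 : HasDerivAt (fun t : ℂ => (c : ℂ) * t + d) c t := by
    simpa using ((hasDerivAt_id t).const_mul (c : ℂ)).add_const (d : ℂ)
  refine (h1.div h2 h).congr_deriv ?_
  push_cast
  congr 1
  ring

theorem mb_deriv2 {t : ℂ} (h : (c : ℂ) * t + d ≠ 0) :
    HasDerivAt (fun t : ℂ => ((a * d - b * c : ℤ) : ℂ) / ((c : ℂ) * t + d) ^ 2)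
      (-2 * c * ((a * d - b * c : ℤ) : ℂ) / ((c : ℂ) * t + d) ^ 3) t := by
  have h2 : HasDerivAt (fun t : ℂ => (c : ℂ) * t + d) c t := by
    simpa using ((hasDerivAt_id t).const_mul (c : ℂ)).add_const (d : ℂ)
  have h3 := ((h2.pow 2).inv (pow_ne_zero 2 h)).const_mul ((a * d - b * c : ℤ) : ℂ)
  refine HasDerivAt.congr_deriv (f := fun t : ℂ => ((a * d - b * c : ℤ) : ℂ) / ((c : ℂ) * t + d) ^ 2)
    (h3.congr_of_eventuallyEq (Eventually.of_forall fun s => by simp [div_eq_mul_inv])) ?_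
  simp only [Pi.pow_apply]
  field_simp
  push_cast
  ring

end

theorem mb_den {a b c d : ℤ} (hdet : 0 < a * d - b * c) {t : ℂ} (ht : 0 < t.im) : (c : ℂ) * t + d ≠ 0 := by
  have := den_ne (z := ⟨t, ht⟩) (a := a) (b := b) (c := c) (d := d) (by exact_mod_cast hdet)
  simpa using this

theorem mb_im {a b c d : ℤ} (hdet : 0 < a * d - b * c) {t : ℂ} (ht : 0 < t.im) : 0 < (mb a b c d t).im := by
  have h1 := mb_den hdet ht
  have h2 : (mb a b c d t).im = (a * d - b * c) * t.im / Complex.normSq ((c : ℂ) * t + d) := by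
    unfold mb
    rw [Complex.div_im]
    simp
    ring
  rw [h2]
  have h3 : (0 : ℝ) < (a * d - b * c) := by exact_mod_cast hdet
  exact div_pos (mul_pos h3 ht) (Complex.normSq_pos.2 h1)

theorem mb_an {a b c d : ℤ} (hdet : 0 < a * d - b * c) {t : ℂ} (ht : 0 < t.im) :
    AnalyticAt ℂ (mb a b c d) t := by
  unfold mb
  exact (((analyticAt_const.mul analyticAt_id).add analyticAt_const)).div
    ((analyticAt_const.mul analyticAt_id).add analyticAt_const) (mb_den hdet ht)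

/-- the first derivatives of `f ∘ g` for a fractional linear map `g` -/
theorem comp_deriv {f : ℂ → ℂ} (hf : ∀ t : ℂ, 0 < t.im → AnalyticAt ℂ f t) {a b c d : ℤ}
    (hdet : 0 < a * d - b * c) {t : ℂ} (ht : 0 < t.im) :
    deriv (fun t => f (mb a b c d t)) t =
      deriv f (mb a b c d t) * (((a * d - b * c : ℤ) : ℂ) / ((c : ℂ) * t + d) ^ 2) := by
  have h1 := (hf _ (mb_im hdet ht)).differentiableAt.hasDerivAt
  exact (h1.comp t (mb_deriv a b c d (mb_den hdet ht))).deriv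

theorem comp_deriv2 {f : ℂ → ℂ} (hf : ∀ t : ℂ, 0 < t.im → AnalyticAt ℂ f t) {a b c d : ℤ}
    (hdet : 0 < a * d - b * c) {t : ℂ} (ht : 0 < t.im) :
    deriv (deriv (fun t => f (mb a b c d t))) t =
      deriv (deriv f) (mb a b c d t) * (((a * d - b * c : ℤ) : ℂ) / ((c : ℂ) * t + d) ^ 2) ^ 2 +
        deriv f (mb a b c d t) * (-2 * c * ((a * d - b * c : ℤ) : ℂ) / ((c : ℂ) * t + d) ^ 3) := by
  have h1 : deriv (fun t => f (mb a b c d t)) =ᶠ[𝓝 t] fun t => deriv f (mb a b c d t) *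
      (((a * d - b * c : ℤ) : ℂ) / ((c : ℂ) * t + d) ^ 2) := by
    filter_upwards [isOpen_H.mem_nhds ht] with s hs
    exact comp_deriv hf hdet hs
  rw [h1.deriv_eq]
  have h2 : HasDerivAt (deriv f) (deriv (deriv f) (mb a b c d t)) (mb a b c d t) :=
    (hf _ (mb_im hdet ht)).deriv.differentiableAt.hasDerivAt
  have h3 := (h2.comp t (mb_deriv a b c d (mb_den hdet ht))).mul (mb_deriv2 a b c d (mb_den hdet ht))
  have h4 := h3.deriv
  refine Eq.trans ?_ (h4.trans ?_)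
  · rfl
  · simp only [Function.comp_apply]
    ring

/-- the modular equation for `j (g t)` near `z` -/
theorem modeq {a b c d : ℤ} (hdet : 0 < a * d - b * c) :
    ∃ P : Polynomial (Polynomial ℂ), P.Monic ∧ (∀ l k, IsAlgebraic ℚ ((P.coeff l).coeff k)) ∧
      ∀ z : ℂ, 0 < z.im → (AnalyticAt ℂ (fun t => jc (mb a b c d t)) z ∧
        ∀ᶠ t in 𝓝 z, (P.map (evalRingHom (jc t))).eval (jc (mb a b c d t)) = 0) := by
  obtain ⟨N, hN⟩ : ∃ N : ℕ, a * d - b * c = (N : ℤ) := ⟨(a * d - b * c).toNat, by omega⟩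
  have hN0 : 0 < N := by omega
  obtain ⟨P, hPm, hPa, hPr⟩ := exists_phi N hN0
  refine ⟨P, hPm, hPa, fun z hz => ⟨AnalyticAt.fun_comp (jc_an (mb_im hdet hz)) (mb_an hdet hz), ?_⟩⟩
  filter_upwards [isOpen_H.mem_nhds hz] with t ht
  have h1 := hPr ⟨t, ht⟩ ⟨mb a b c d t, mb_im hdet ht⟩ a b c d hN (by
    show mb a b c d t * ((c : ℂ) * t + d) = _
    unfold mb
    rw [div_mul_cancel₀ _ (mb_den hdet ht)])
  have h2 : jc t = jj ⟨t, ht⟩ := jc_coe ⟨t, ht⟩
  have h3 : jc (mb a b c d t) = jj ⟨mb a b c d t, mb_im hdet ht⟩ := jc_coe ⟨mb a b c d t, mb_im hdet ht⟩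
  rw [h2, h3]
  exact h1

theorem mb_eq {a b c d : ℤ} (hdet : 0 < a * d - b * c) {z w : ℍ} (hw : (w : ℂ) * (c * z + d) = a * z + b) :
    mb a b c d z = (w : ℂ) := by
  unfold mb
  rw [div_eq_iff (mb_den hdet z.im_pos)]
  exact hw.symm

/-- killing `z` and the derivatives of `j (g t)` at `z` kills the derivatives of `j` at `g z` -/
theorem jet_of_comp {a b c d : ℤ} (hdet : 0 < a * d - b * c) {z w : ℍ}
    (hw : (w : ℂ) * (c * z + d) = a * z + b) (δ : Derivation ℚ ℂ ℂ) (hz0 : δ (z : ℂ) = 0)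
    (k0 : δ (jc (mb a b c d z)) = 0) (k1 : δ (deriv (fun t => jc (mb a b c d t)) z) = 0)
    (k2 : δ (deriv (deriv (fun t => jc (mb a b c d t))) z) = 0) : ∀ x ∈ jet w, δ x = 0 := by
  have hzim : 0 < (z : ℂ).im := z.im_pos
  have hmz := mb_eq hdet hw
  have hv1 := comp_deriv (fun t ht => jc_an ht) hdet hzim
  have hv2 := comp_deriv2 (fun t ht => jc_an ht) hdet hzim
  rw [hmz, jc_coe] at k0
  rw [hmz] at hv1 hv2
  set S : Set ℂ := {x | δ x = 0} with hS
  have hSk : ∀ {y : ℂ}, y ∈ cl ℂ S → δ y = 0 := fun hy => Ser.der_cl δ (fun s hs => hs) hy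
  have mz : (z : ℂ) ∈ cl ℂ S := subset_cl _ hz0
  have mden : (c : ℂ) * z + d ∈ cl ℂ S := cl_add (cl_mul (cl_int c) mz) (cl_int d)
  have mdet : ((a * d - b * c : ℤ) : ℂ) ∈ cl ℂ S := cl_int _
  have hdet0 : ((a * d - b * c : ℤ) : ℂ) ≠ 0 := by exact_mod_cast hdet.ne'
  have hden0 := mb_den hdet hzim
  have mq : ((a * d - b * c : ℤ) : ℂ) / ((c : ℂ) * z + d) ^ 2 ∈ cl ℂ S := by
    rw [div_eq_mul_inv]
    exact cl_mul mdet (cl_inv (cl_pow mden 2))
  have m1 : deriv jc w ∈ cl ℂ S := by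
    have h1 : deriv (fun t => jc (mb a b c d t)) z ∈ cl ℂ S := subset_cl _ k1
    have e : deriv jc w = deriv (fun t => jc (mb a b c d t)) z *
        (((a * d - b * c : ℤ) : ℂ) / ((c : ℂ) * z + d) ^ 2)⁻¹ := by
      rw [hv1]
      field_simp
    rw [e]
    exact cl_mul h1 (cl_inv mq)
  have m2 : deriv (deriv jc) w ∈ cl ℂ S := by
    have h1 : deriv (deriv (fun t => jc (mb a b c d t))) z ∈ cl ℂ S := subset_cl _ k2
    have e : deriv (deriv jc) w = (deriv (deriv (fun t => jc (mb a b c d t))) z - deriv jc w *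
        (-2 * c * ((a * d - b * c : ℤ) : ℂ) / ((c : ℂ) * z + d) ^ 3)) *
          ((((a * d - b * c : ℤ) : ℂ) / ((c : ℂ) * z + d) ^ 2) ^ 2)⁻¹ := by
      rw [hv2]
      field_simp
      ring
    rw [e]
    refine cl_mul (cl_sub h1 (cl_mul m1 ?_)) (cl_inv (cl_pow mq 2))
    rw [div_eq_mul_inv]
    refine cl_mul (cl_mul (cl_mul ?_ (cl_int c)) mdet) (cl_inv (cl_pow mden 3))
    have := cl_int (S := S) (-2)
    simpa using this
  rintro x (rfl | rfl | rfl | hx)
  · have h1 : (w : ℂ) = ((a : ℂ) * z + b) * ((c : ℂ) * z + d)⁻¹ := by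
      rw [← hw, mul_assoc, mul_inv_cancel₀ hden0, mul_one]
    rw [h1]
    exact hSk (cl_mul (cl_add (cl_mul (cl_int a) mz) (cl_int b)) (cl_inv mden))
  · exact k0
  · exact hSk m1
  · rw [Set.mem_singleton_iff.1 hx]
    exact hSk m2

/-- **Derivatives of `j` at equivalent points.** -/
theorem jet_sub {z w : ℍ} (h : Eqv z w) (hd : deriv jc z ≠ 0) : jet w ⊆ cl ℂ (jet z) := by
  obtain ⟨a, b, c, d, hdet, hw⟩ := exists_int h
  have hzim : 0 < (z : ℂ).im := z.im_pos
  obtain ⟨P, hPm, hPa, hP⟩ := modeq hdet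
  obtain ⟨hvan, hpv⟩ := hP z hzim
  -- the constants
  intro x hx
  refine Ser.mem_cl_of_der fun δ hδ => ?_
  have hz0 : δ (z : ℂ) = 0 := hδ _ (Or.inl rfl)
  have hk := Ser.kills (jc_an hzim) hvan P hPm hPa hpv δ hd 3 (by
    intro k hk
    interval_cases k
    · rw [iteratedDeriv_zero, jc_coe]
      exact hδ _ (Or.inr (Or.inl rfl))
    · rw [iteratedDeriv_one]
      exact hδ _ (Or.inr (Or.inr (Or.inl rfl)))
    · rw [iteratedDeriv_succ, iteratedDeriv_one]
      exact hδ _ (Or.inr (Or.inr (Or.inr rfl))))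
  have k0 := hk 0 (by norm_num)
  have k1 := hk 1 (by norm_num)
  have k2 := hk 2 (by norm_num)
  rw [iteratedDeriv_zero] at k0
  rw [iteratedDeriv_one] at k1
  rw [iteratedDeriv_succ, iteratedDeriv_one] at k2
  exact jet_of_comp hdet hw δ hz0 k0 k1 k2 x hx

/-- the multiplier at a CM point: an integral matrix of positive determinant which fixes `z` and whose
derivative at `z` is not one -/
theorem exists_mult {z : ℍ} (h : CM z) : ∃ a b c d : ℤ, 0 < a * d - b * c ∧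
    (z : ℂ) * (c * z + d) = a * z + b ∧ ((a * d - b * c : ℤ) : ℂ) / ((c : ℂ) * z + d) ^ 2 ≠ 1 := by
  obtain ⟨a, b, c, hne, he⟩ := h
  have hzz : (z : ℂ) - (starRingEnd ℂ) (z : ℂ) ≠ 0 := by
    rw [Complex.sub_conj]
    have : ((z : ℂ).im : ℂ) ≠ 0 := by exact_mod_cast z.im_ne_zero
    simp [z.im_ne_zero]
  have heb : (a : ℂ) * (starRingEnd ℂ) (z : ℂ) ^ 2 + b * (starRingEnd ℂ) (z : ℂ) + c = 0 := by
    have := congrArg (starRingEnd ℂ) he
    simpa using this
  have h1 : (a : ℂ) * ((z : ℂ) + (starRingEnd ℂ) (z : ℂ)) + b = 0 := by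
    apply (mul_eq_zero.1 (?_ : ((z : ℂ) - (starRingEnd ℂ) (z : ℂ)) * _ = 0)).resolve_left hzz
    linear_combination he - heb
  have h2 : (c : ℂ) = a * ((z : ℂ) * (starRingEnd ℂ) (z : ℂ)) := by
    linear_combination he - (z : ℂ) * h1
  have ha : a ≠ 0 := by
    rintro rfl
    have h3 : (c : ℂ) = 0 := by simpa using h2
    have h4 : (b : ℂ) = 0 := by simpa using h1
    have h5 : c = 0 := by exact_mod_cast h3
    have h6 : b = 0 := by exact_mod_cast h4
    simp [h5, h6] at hne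
  have haC : (a : ℂ) ≠ 0 := by exact_mod_cast ha
  have hz0 : (z : ℂ) ≠ 0 := z.ne_zero
  have hdet : 0 < (-b) * 0 - (-c) * a := by
    have h3 : (c : ℝ) = a * Complex.normSq (z : ℂ) := by
      rw [Complex.mul_conj] at h2
      exact_mod_cast h2
    have h4 : (0 : ℝ) < ((-b) * 0 - (-c) * a : ℤ) := by
      push_cast
      rw [h3]
      have h5 : 0 < Complex.normSq (z : ℂ) := Complex.normSq_pos.2 hz0
      have h6 : (0 : ℝ) < (a : ℝ) ^ 2 := by
        have : (a : ℝ) ≠ 0 := by exact_mod_cast ha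
        positivity
      nlinarith [mul_pos h6 h5]
    exact_mod_cast h4
  refine ⟨-b, -c, a, 0, hdet, ?_, ?_⟩
  · push_cast
    linear_combination he
  · push_cast
    intro h3
    have h4 : ((a : ℂ) * z + 0) ^ 2 ≠ 0 := pow_ne_zero 2 (by rw [add_zero]; exact mul_ne_zero haC hz0)
    rw [div_eq_iff h4, h2] at h3
    apply hzz
    have h5 : (a : ℂ) ^ 2 * z * ((z : ℂ) - (starRingEnd ℂ) (z : ℂ)) = 0 := by linear_combination -h3
    exact (mul_eq_zero.1 h5).resolve_left (mul_ne_zero (pow_ne_zero 2 haC) hz0)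

theorem cm_mem_cl {z : ℍ} (h : CM z) {S : Set ℂ} : (z : ℂ) ∈ cl ℂ S := by
  apply cl_algebraic
  obtain ⟨a, b, c, hne, he⟩ := cm_iff.1 h
  refine ⟨Polynomial.C a * Polynomial.X ^ 2 + Polynomial.C b * Polynomial.X +
    Polynomial.C c, ?_, ?_⟩
  · intro h0
    have h1 := congrArg (fun p : Polynomial ℚ => (p.coeff 0, p.coeff 1, p.coeff 2)) h0
    simp [Polynomial.coeff_X, Polynomial.coeff_C] at h1
    obtain ⟨h2, h3, h4⟩ := h1
    simp [h2, h3, h4] at hne
  · simpa using he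

/-- **CM points with `j' ≠ 0`.** `z`, `j (z)`, `j'' (z)` are algebraic over `ℚ (j' (z))`. -/
theorem jet_cm {z : ℍ} (h : CM z) (hd : deriv jc z ≠ 0) : jet z ⊆ cl ℂ {deriv jc (z : ℂ)} := by
  obtain ⟨a, b, c, d, hdet, hw, hl⟩ := exists_mult h
  have hzim : 0 < (z : ℂ).im := z.im_pos
  obtain ⟨P, hPm, hPa, hP⟩ := modeq hdet
  obtain ⟨hvan, hpv⟩ := hP z hzim
  intro x hx
  refine Ser.mem_cl_of_der fun δ hδ => ?_
  have hz0 : δ (z : ℂ) = 0 := Ser.der_cl (S := ∅) δ (by simp) (cm_mem_cl h)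
  have hd1 : δ (deriv jc z) = 0 := hδ _ rfl
  obtain ⟨t1, t2⟩ := Ser.trans_low (jc_an hzim) hvan P hPm hPa hpv δ
  have hmz := mb_eq hdet hw
  have hv1 := comp_deriv (fun t ht => jc_an ht) hdet hzim
  have hv2 := comp_deriv2 (fun t ht => jc_an ht) hdet hzim
  rw [hmz] at hv1 hv2
  have hdet0 : ((a * d - b * c : ℤ) : ℂ) ≠ 0 := by exact_mod_cast hdet.ne'
  have hden0 := mb_den hdet hzim
  set lam : ℂ := ((a * d - b * c : ℤ) : ℂ) / ((c : ℂ) * z + d) ^ 2 with hlam
  set nu : ℂ := -2 * c * ((a * d - b * c : ℤ) : ℂ) / ((c : ℂ) * z + d) ^ 3 with hnu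
  have hlam0 : lam ≠ 0 := div_ne_zero hdet0 (pow_ne_zero 2 hden0)
  set S : Set ℂ := {x | δ x = 0} with hS
  have hSk : ∀ {y : ℂ}, y ∈ cl ℂ S → δ y = 0 := fun hy => Ser.der_cl δ (fun s hs => hs) hy
  have mz : (z : ℂ) ∈ cl ℂ S := subset_cl _ hz0
  have mden : (c : ℂ) * z + d ∈ cl ℂ S := cl_add (cl_mul (cl_int c) mz) (cl_int d)
  have mdet : ((a * d - b * c : ℤ) : ℂ) ∈ cl ℂ S := cl_int _
  have dlam : δ lam = 0 := by
    apply hSk
    rw [hlam, div_eq_mul_inv]
    exact cl_mul mdet (cl_inv (cl_pow mden 2))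
  have dnu : δ nu = 0 := by
    apply hSk
    rw [hnu, div_eq_mul_inv]
    refine cl_mul (cl_mul (cl_mul ?_ (cl_int c)) mdet) (cl_inv (cl_pow mden 3))
    have := cl_int (S := S) (-2)
    simpa using this
  rw [hmz] at t1 t2
  rw [hv1, hv2] at t2
  rw [hv1] at t1
  have e0 : δ (jc z) = 0 := by
    have h1 : (deriv jc z * (1 - lam)) * δ (jc z) = 0 := by linear_combination t1
    exact (mul_eq_zero.1 h1).resolve_left (mul_ne_zero hd (sub_ne_zero.2 (Ne.symm hl)))
  have e1 : δ (deriv jc z * lam) = 0 := by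
    rw [Derivation.leibniz, hd1, dlam]
    simp
  have t3 := t2 e0 e0 hd1 e1
  have e2 : δ (deriv (deriv jc) z) = 0 := by
    have h1 : δ (deriv (deriv jc) z * lam ^ 2 + deriv jc z * nu) = lam ^ 2 * δ (deriv (deriv jc) z) := by
      rw [map_add, Derivation.leibniz, Derivation.leibniz, hd1, dnu, Derivation.leibniz_pow, dlam]
      simp
    rw [h1] at t3
    have h2 : (deriv jc z * lam * (lam - 1)) * δ (deriv (deriv jc) z) = 0 := by linear_combination t3
    exact (mul_eq_zero.1 h2).resolve_left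
      (mul_ne_zero (mul_ne_zero hd hlam0) (sub_ne_zero.2 hl))
  rcases hx with rfl | rfl | rfl | hx
  · exact hz0
  · rw [← jc_coe]
    exact e0
  · exact hd1
  · rw [Set.mem_singleton_iff.1 hx]
    exact e2

end Pool.Agent.Q51.Sch.Mod
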