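import Mathlib
import Pool.Agent.Y685.TauC
import Pool.Agent.Y577.LU.L1
import Pool.Agent.Q51.Sch.Phi

/-!
# The critical points of the modular invariant
-/

set_option autoImplicit false

open UpperHalfPlane ModularForm EisensteinSeries H294ZP Filter Topology

namespace Pool.Agent.Q51.Sch.Mod

open Pool.Agent.Y685 (LL LC LC_coe mem_LC be al Wc)

/-- the elements of the lattice `ℤ + ℤ τ` -/
noncomputable def latV (τ : ℍ) : (Fin 2 → ℤ) ≃ (LL τ).lattice :=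
  Equiv.ofBijective (fun v => ⟨(v 0 * (τ : ℂ) + v 1), PeriodPair.mem_lattice.2 ⟨v 1, v 0, by
    show (v 1 : ℂ) * 1 + v 0 * (τ : ℂ) = _
    ring⟩⟩) ⟨by
    intro v w h
    have h2 : ((v 0 : ℂ) * τ + v 1) = (w 0 * τ + w 1) := congrArg Subtype.val h
    have h3 := congrArg Complex.im h2
    simp at h3
    have h4 : v 0 = w 0 := by
      rcases h3 with h3 | h3
      · exact_mod_cast h3
      · exact absurd h3 τ.im_ne_zero
    have h5 : v 1 = w 1 := by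
      rw [h4] at h2
      have := add_left_cancel h2
      exact_mod_cast this
    funext i
    fin_cases i
    · exact h4
    · exact h5, by
    intro l
    obtain ⟨m, n, h⟩ := PeriodPair.mem_lattice.1 l.2
    refine ⟨![n, m], Subtype.ext ?_⟩
    rw [← h]
    show ((n : ℂ) * τ + m) = (m : ℂ) * 1 + n * (τ : ℂ)
    ring⟩

lemma G_eq (τ : ℍ) {k : ℕ} (hk : 3 ≤ k) : (LL τ).G k = 2 * riemannZeta k * E hk τ := by
  have h1 := tsum_eisSummand_eq_riemannZeta_mul_eisensteinSeries hk τ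
  have h2 : E hk τ = (1 / 2 : ℂ) * eisensteinSeries (N := 1) 0 k τ := rfl
  have h3 : 2 * riemannZeta k * E hk τ = ∑' v : Fin 2 → ℤ, eisSummand k v τ := by
    rw [h1, h2]
    ring
  rw [h3]
  unfold PeriodPair.G
  rw [← (latV τ).tsum_eq]
  refine tsum_congr fun v => ?_
  have h4 : (((latV τ) v : (LL τ).lattice) : ℂ) = (v 0 * τ + v 1) := rfl
  rw [h4]
  unfold eisSummand
  rw [zpow_neg, zpow_natCast]

theorem zeta6 : riemannZeta 6 = (Real.pi : ℂ) ^ 6 / 945 := by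
  have h := riemannZeta_two_mul_nat (k := 3) (by norm_num)
  have hb : bernoulli 6 = 1 / 42 := by decide +kernel
  norm_num [hb, Nat.factorial] at h
  rw [h]
  ring

theorem g2_eq (τ : ℍ) : (LL τ).g₂ = 4 * (Real.pi : ℂ) ^ 4 / 3 * E₄ τ := by
  unfold PeriodPair.g₂
  rw [G_eq τ (k := 4) (by norm_num)]
  have : riemannZeta (4 : ℕ) = (Real.pi : ℂ) ^ 4 / 90 := by exact_mod_cast riemannZeta_four
  rw [this]
  ring

theorem g3_eq (τ : ℍ) : (LL τ).g₃ = 8 * (Real.pi : ℂ) ^ 6 / 27 * E₆ τ := by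
  unfold PeriodPair.g₃
  rw [G_eq τ (k := 6) (by norm_num)]
  have : riemannZeta (6 : ℕ) = (Real.pi : ℂ) ^ 6 / 945 := by exact_mod_cast zeta6
  rw [this]
  ring

/-- the discriminant -/
noncomputable def dl (t : ℂ) : ℂ := (LC t).g₂ ^ 3 - 27 * (LC t).g₃ ^ 2

theorem dl_eq (τ : ℍ) : dl τ = 4096 * (Real.pi : ℂ) ^ 12 * discriminant τ := by
  unfold dl
  rw [LC_coe, g2_eq, g3_eq, discriminant_eq_E₄_cube_sub_E₆_sq]
  ring

theorem pi_ne : (Real.pi : ℂ) ≠ 0 := by exact_mod_cast Real.pi_ne_zero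

theorem dl_ne {t : ℂ} (ht : 0 < t.im) : dl t ≠ 0 := by
  have := dl_eq ⟨t, ht⟩
  rw [show dl t = dl ((⟨t, ht⟩ : ℍ) : ℂ) from rfl, this]
  exact mul_ne_zero (mul_ne_zero (by norm_num) (pow_ne_zero _ pi_ne)) (discriminant_ne_zero _)

theorem jc_eq {t : ℂ} (ht : 0 < t.im) : jc t = 1728 * (LC t).g₂ ^ 3 / dl t := by
  have h1 : jc t = jj ⟨t, ht⟩ := jc_coe ⟨t, ht⟩
  have h2 : dl t = 4096 * (Real.pi : ℂ) ^ 12 * discriminant ⟨t, ht⟩ := dl_eq ⟨t, ht⟩
  have h3 : (LC t).g₂ = 4 * (Real.pi : ℂ) ^ 4 / 3 * E₄ (⟨t, ht⟩ : ℍ) := by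
    rw [← g2_eq, ← LC_coe]
  rw [h1, h2, h3]
  unfold jj
  have h4 := discriminant_ne_zero (⟨t, ht⟩ : ℍ)
  have h5 := pi_ne
  field_simp
  ring

theorem be_ne {t : ℂ} (ht : 0 < t.im) : be t ≠ 0 := by
  have := (Pool.Agent.Y685.H2.task_A4 t ht).2.2.2.2
  unfold be
  exact one_div_ne_zero this

theorem der_be {t : ℂ} (ht : 0 < t.im) : HasDerivAt be 0 t := by
  obtain ⟨-, -, -, h4, h5⟩ := Pool.Agent.Y685.H2.task_A4 t ht
  have := h4.fun_inv h5
  refine HasDerivAt.congr_deriv (f := be) ?_ (by simp : -0 / Wc t ^ 2 = 0)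
  exact this.congr_of_eventuallyEq (Eventually.of_forall fun s => by simp [be])

theorem der_dl {t : ℂ} (ht : 0 < t.im) : HasDerivAt dl (-12 * al t * dl t) t := by
  obtain ⟨-, h2, h3, -, -⟩ := Pool.Agent.Y685.H2.task_A4 t ht
  have h := (h2.pow 3).sub ((h3.pow 2).const_mul 27)
  refine HasDerivAt.congr_deriv (f := dl) h ?_
  rw [dl]
  push_cast
  ring

theorem der_jc {t : ℂ} (ht : 0 < t.im) :
    HasDerivAt jc (-31104 * be t * ((LC t).g₂ ^ 2 * (LC t).g₃) / dl t) t := by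
  have hd := dl_ne ht
  obtain ⟨-, h2, h3, -, -⟩ := Pool.Agent.Y685.H2.task_A4 t ht
  have h := ((h2.pow 3).const_mul 1728).div (der_dl ht) hd
  have he : jc =ᶠ[𝓝 t] fun s => 1728 * (LC s).g₂ ^ 3 / dl s := by
    filter_upwards [isOpen_H.mem_nhds ht] with s hs
    exact jc_eq hs
  refine HasDerivAt.congr_deriv (f := jc) (HasDerivAt.congr_of_eventuallyEq
    (f := fun s => 1728 * (LC s).g₂ ^ 3 / dl s) h he) ?_
  push_cast
  simp only [Pi.pow_apply]
  field_simp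
  ring

theorem djc {t : ℂ} (ht : 0 < t.im) :
    deriv jc t = -31104 * be t * ((LC t).g₂ ^ 2 * (LC t).g₃) / dl t := (der_jc ht).deriv

theorem ddjc {t : ℂ} (ht : 0 < t.im) : deriv (deriv jc) t = -31104 * be t *
    (((2 * (LC t).g₂ * (-4 * al t * (LC t).g₂ - 6 * be t * (LC t).g₃) * (LC t).g₃ +
      (LC t).g₂ ^ 2 * (-6 * al t * (LC t).g₃ - be t * (LC t).g₂ ^ 2 / 3)) +
      12 * al t * ((LC t).g₂ ^ 2 * (LC t).g₃)) / dl t) := by
  have hd := dl_ne ht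
  obtain ⟨-, h2, h3, -, -⟩ := Pool.Agent.Y685.H2.task_A4 t ht
  have h := (((der_be ht).const_mul (-31104)).mul ((h2.pow 2).mul h3)).div (der_dl ht) hd
  have he : deriv jc =ᶠ[𝓝 t] fun s => -31104 * be s * ((LC s).g₂ ^ 2 * (LC s).g₃) / dl s := by
    filter_upwards [isOpen_H.mem_nhds ht] with s hs
    exact djc hs
  rw [he.deriv_eq]
  refine (HasDerivAt.congr_deriv (f := fun s => -31104 * be s * ((LC s).g₂ ^ 2 * (LC s).g₃) / dl s)
    h ?_).deriv
  push_cast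
  simp only [Pi.pow_apply, Pi.mul_apply]
  field_simp
  ring

/-- critical points -/
theorem g_of_crit {t : ℂ} (ht : 0 < t.im) (h : deriv jc t = 0) : (LC t).g₂ = 0 ∨ (LC t).g₃ = 0 := by
  rw [djc ht, div_eq_zero_iff] at h
  have h1 := h.resolve_right (dl_ne ht)
  have h2 := (mul_eq_zero.1 h1).resolve_left (mul_ne_zero (by norm_num) (be_ne ht))
  rcases mul_eq_zero.1 h2 with h3 | h3
  · exact Or.inl (pow_eq_zero_iff (by norm_num) |>.1 h3)
  · exact Or.inr h3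

theorem ddjc_ne {t : ℂ} (ht : 0 < t.im) (h : (LC t).g₃ = 0) : deriv (deriv jc) t ≠ 0 := by
  have hd := dl_ne ht
  have h2 : (LC t).g₂ ≠ 0 := by
    intro h2
    apply hd
    rw [dl, h, h2]
    norm_num
  have hb := be_ne ht
  rw [ddjc ht, h]
  have e : -31104 * be t *
      (((2 * (LC t).g₂ * (-4 * al t * (LC t).g₂ - 6 * be t * 0) * 0 +
        (LC t).g₂ ^ 2 * (-6 * al t * 0 - be t * (LC t).g₂ ^ 2 / 3)) +
        12 * al t * ((LC t).g₂ ^ 2 * 0)) / dl t) = 10368 * be t ^ 2 * (LC t).g₂ ^ 4 / dl t := by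
    ring
  rw [e]
  exact div_ne_zero (mul_ne_zero (mul_ne_zero (by norm_num) (pow_ne_zero _ hb)) (pow_ne_zero _ h2)) hd

end Pool.Agent.Q51.Sch.Mod
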