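import Mathlib
import Pool.Agent.Q51.Sch.Crit

/-!
# The critical points of the modular invariant are the elliptic points
-/

set_option autoImplicit false

open UpperHalfPlane ModularForm EisensteinSeries H294ZP Filter Topology

namespace Pool.Agent.Q51.Sch.Mod

open Pool.Agent.Y685 (LL LC LC_coe mem_LC be al Wc)

/-- the lattice `Ω (ℤ + ℤ τ)` -/
noncomputable def SL (τ : ℍ) (Ω : ℂ) (hΩ : Ω ≠ 0) : PeriodPair where
  ω₁ := Ω
  ω₂ := Ω * τ
  indep := by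
    rw [LinearIndependent.pair_iff]
    intro s t h
    have h1 : Ω * ((s : ℂ) + t * τ) = 0 := by
      simp only [Complex.real_smul] at h
      linear_combination h
    have h2 := (mul_eq_zero.1 h1).resolve_left hΩ
    have h3 := congrArg Complex.im h2
    simp at h3
    have ht : t = 0 := h3.resolve_right τ.im_ne_zero
    refine ⟨?_, ht⟩
    rw [ht] at h2
    simpa using h2

theorem mem_SL {τ : ℍ} {Ω : ℂ} (hΩ : Ω ≠ 0) {z : ℂ} :
    z ∈ (SL τ Ω hΩ).lattice ↔ ∃ l ∈ (LL τ).lattice, z = Ω * l := by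
  rw [PeriodPair.mem_lattice]
  constructor
  · rintro ⟨m, n, h⟩
    refine ⟨m + n * τ, PeriodPair.mem_lattice.2 ⟨m, n, by
      show (m : ℂ) * 1 + n * (τ : ℂ) = _
      ring⟩, ?_⟩
    rw [← h]
    show (m : ℂ) * Ω + n * (Ω * τ) = _
    ring
  · rintro ⟨l, hl, rfl⟩
    obtain ⟨m, n, h⟩ := PeriodPair.mem_lattice.1 hl
    refine ⟨m, n, ?_⟩
    rw [← h]
    show (m : ℂ) * Ω + n * (Ω * τ) = Ω * (m * 1 + n * τ)
    ring

theorem G_SL (τ : ℍ) {Ω : ℂ} (hΩ : Ω ≠ 0) (k : ℕ) : (SL τ Ω hΩ).G k = (Ω ^ k)⁻¹ * (LL τ).G k := by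
  unfold PeriodPair.G
  rw [← tsum_mul_left]
  let e : (LL τ).lattice ≃ (SL τ Ω hΩ).lattice :=
    Equiv.ofBijective (fun l => ⟨Ω * l, (mem_SL hΩ).2 ⟨l, l.2, rfl⟩⟩) ⟨by
      intro l l' h
      exact Subtype.ext (mul_left_cancel₀ hΩ (congrArg Subtype.val h)), by
      intro l
      obtain ⟨l', hl', h⟩ := (mem_SL hΩ).1 l.2
      exact ⟨⟨l', hl'⟩, Subtype.ext h.symm⟩⟩
  rw [← e.tsum_eq]
  refine tsum_congr fun l => ?_
  have h4 : ((e l : (SL τ Ω hΩ).lattice) : ℂ) = Ω * (l : ℂ) := rfl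
  rw [h4, mul_pow, mul_inv]

/-- multiplications of the lattice -/
theorem mul_mem_LL {τ : ℍ} {Ω : ℂ} (hΩ : Ω ≠ 0) (h2 : (Ω ^ 4)⁻¹ * (LL τ).g₂ = (LL τ).g₂)
    (h3 : (Ω ^ 6)⁻¹ * (LL τ).g₃ = (LL τ).g₃) {l : ℂ} (hl : l ∈ (LL τ).lattice) :
    Ω * l ∈ (LL τ).lattice := by
  have e2 : (SL τ Ω hΩ).g₂ = (LL τ).g₂ := by
    rw [← h2]
    unfold PeriodPair.g₂
    rw [G_SL]
    ring
  have e3 : (SL τ Ω hΩ).g₃ = (LL τ).g₃ := by
    rw [← h3]
    unfold PeriodPair.g₃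
    rw [G_SL]
    ring
  rw [← Pool.Agent.Y577.LU.lat_unique _ _ e2 e3]
  exact (mem_SL hΩ).2 ⟨l, hl, rfl⟩

theorem mem_LL {τ : ℍ} {z : ℂ} : z ∈ (LL τ).lattice ↔ ∃ m n : ℤ, z = (m : ℂ) + n * τ := by
  rw [PeriodPair.mem_lattice]
  constructor
  · rintro ⟨m, n, h⟩
    refine ⟨m, n, ?_⟩
    rw [← h]
    show (m : ℂ) * 1 + n * (τ : ℂ) = _
    ring
  · rintro ⟨m, n, h⟩
    refine ⟨m, n, ?_⟩
    rw [h]
    show (m : ℂ) * 1 + n * (τ : ℂ) = _
    ring

theorem one_mem_LL (τ : ℍ) : (1 : ℂ) ∈ (LL τ).lattice := mem_LL.2 ⟨1, 0, by simp⟩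
theorem tau_mem_LL (τ : ℍ) : (τ : ℂ) ∈ (LL τ).lattice := mem_LL.2 ⟨0, 1, by simp⟩

/-- the zeros of `g₃`: fixed points of an element of order two -/
theorem fix_of_g3 {τ : ℍ} (h : (LL τ).g₃ = 0) : ∃ a b c d : ℤ, a * d - b * c = 1 ∧
    (τ : ℂ) * (c * τ + d) = a * τ + b ∧ ((c : ℂ) * τ + d) = Complex.I := by
  have h2 : (Complex.I ^ 4)⁻¹ * (LL τ).g₂ = (LL τ).g₂ := by
    rw [Complex.I_pow_four]
    simp
  have h3 : (Complex.I ^ 6)⁻¹ * (LL τ).g₃ = (LL τ).g₃ := by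
    rw [h]
    simp
  obtain ⟨m, n, e1⟩ := mem_LL.1 (mul_mem_LL Complex.I_ne_zero h2 h3 (one_mem_LL τ))
  obtain ⟨m', n', e2⟩ := mem_LL.1 (mul_mem_LL Complex.I_ne_zero h2 h3 (tau_mem_LL τ))
  rw [mul_one] at e1
  have hn : (n : ℝ) * (τ : ℂ).im = 1 := by
    have := congrArg Complex.im e1
    simp at this
    simpa using this.symm
  have e3 : ((m : ℂ) ^ 2 + n * m' + 1) + (n * (m + n')) * (τ : ℂ) = 0 := by
    have hI : Complex.I * Complex.I = -1 := Complex.I_mul_I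
    linear_combination hI - (Complex.I + m) * e1 - (n : ℂ) * e2
  have h4 : (n : ℝ) * (m + n') = 0 := by
    have h5 := congrArg Complex.im e3
    simp [pow_two] at h5
    have h6 : ((n : ℝ) * (m + n')) * τ.im = 0 := by
      simpa using h5
    exact (mul_eq_zero.1 h6).resolve_right τ.im_ne_zero
  have hn0 : (n : ℝ) ≠ 0 := by
    intro h0
    rw [h0, zero_mul] at hn
    exact zero_ne_one hn
  have h5 : (m : ℝ) + n' = 0 := (mul_eq_zero.1 h4).resolve_left hn0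
  have h6 : m + n' = 0 := by exact_mod_cast h5
  have h7 : (m : ℂ) ^ 2 + n * m' + 1 = 0 := by
    have : (m : ℂ) + n' = 0 := by exact_mod_cast h6
    rw [this] at e3
    simpa using e3
  have h8 : m ^ 2 + n * m' + 1 = 0 := by exact_mod_cast h7
  refine ⟨n', m', n, m, ?_, ?_, ?_⟩
  · have : n' = -m := by omega
    rw [this]
    linarith
  · linear_combination e2 - (τ : ℂ) * e1
  · linear_combination -e1

/-- the orbit of `ρ` -/
noncomputable def rho : ℂ := -1 / 2 + (Real.sqrt 3 / 2 : ℝ) * Complex.I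

/-- `z` lies in `SL₂(ℤ) ρ` -/
def InRho (z : ℍ) : Prop :=
  ∃ a b c d : ℤ, a * d - b * c = 1 ∧ (z : ℂ) * ((c : ℂ) * rho + d) = (a : ℂ) * rho + b

theorem rho_sq : rho ^ 2 + rho + 1 = 0 := by
  have h : ((Real.sqrt 3 : ℝ) : ℂ) ^ 2 = 3 := by
    have : (Real.sqrt 3) ^ 2 = 3 := Real.sq_sqrt (by norm_num)
    exact_mod_cast congrArg (fun r : ℝ => (r : ℂ)) this
  unfold rho
  push_cast
  linear_combination (Complex.I ^ 2 / 4) * h + (3 / 4) * Complex.I_sq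

theorem rho_im : rho.im = Real.sqrt 3 / 2 := by
  unfold rho
  simp

theorem rho_re : rho.re = -1 / 2 := by
  unfold rho
  simp

theorem rho_ne : rho ≠ 0 := by
  intro h
  have := rho_sq
  rw [h] at this
  norm_num at this

/-- the zeros of `g₂` -/
theorem inRho_of_g2 {τ : ℍ} (h : (LL τ).g₂ = 0) : InRho τ := by
  obtain ⟨g, hg⟩ := ModularGroup.exists_smul_mem_fd τ
  set w : ℍ := g • τ with hw
  -- `g₂` vanishes at `w`
  have hE : E₄ τ = 0 := by
    rw [g2_eq] at h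
    exact (mul_eq_zero.1 h).resolve_left (div_ne_zero (mul_ne_zero (by norm_num) (pow_ne_zero _ pi_ne))
      (by norm_num))
  have hEw : E₄ w = 0 := by
    have h4 : E₄ (g • τ) = (denom g τ) ^ (4 : ℤ) * E₄ τ :=
      SlashInvariantForm.slash_action_eqn' E₄ (MonoidHom.mem_range.mpr ⟨g, rfl⟩) τ
    rw [hw, h4, hE, mul_zero]
  have h2w : (LL w).g₂ = 0 := by rw [g2_eq, hEw, mul_zero]
  have hr3 : rho ^ 3 = 1 := by linear_combination (rho - 1) * rho_sq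
  have h3 : (rho ^ 6)⁻¹ * (LL w).g₃ = (LL w).g₃ := by
    rw [show rho ^ 6 = (rho ^ 3) ^ 2 by ring, hr3]
    simp
  obtain ⟨m, n, e1⟩ := mem_LL.1 (mul_mem_LL rho_ne (by rw [h2w]; simp) h3 (one_mem_LL w))
  rw [mul_one] at e1
  have him := congrArg Complex.im e1
  rw [rho_im] at him
  simp at him
  have h34 := ModularGroup.three_le_four_mul_im_sq_of_mem_fd hg
  have hs3 : 0 < Real.sqrt 3 := Real.sqrt_pos.2 (by norm_num)
  have hs3' : Real.sqrt 3 ^ 2 = 3 := Real.sq_sqrt (by norm_num)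
  have hwpos := w.im_pos
  have hn0 : (0 : ℝ) < n := by
    by_contra hcon
    push Not at hcon
    nlinarith
  have hn1 : (n : ℝ) < 2 := by
    by_contra hcon
    push Not at hcon
    have h5 : 2 * w.im ≤ Real.sqrt 3 / 2 := by
      rw [him]
      exact mul_le_mul_of_nonneg_right hcon hwpos.le
    nlinarith
  have hn : n = 1 := by
    have h6 : 0 < n := by exact_mod_cast hn0
    have h7 : n < 2 := by exact_mod_cast hn1
    omega
  subst hn
  have hwτ : (w : ℂ) * ((g 1 0 : ℤ) * τ + (g 1 1 : ℤ)) = (g 0 0 : ℤ) * τ + (g 0 1 : ℤ) := by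
    rw [hw, coe_specialLinearGroup_apply]
    have hne : ((g 1 0 : ℤ) : ℂ) * τ + (g 1 1 : ℤ) ≠ 0 := by
      have := denom_ne_zero (g : GL (Fin 2) ℝ) τ
      rw [ModularGroup.denom_apply] at this
      exact this
    simp only [eq_intCast, Complex.ofReal_intCast]
    rw [div_mul_cancel₀ _ hne]
  have hdet : g 0 0 * g 1 1 - g 0 1 * g 1 0 = 1 := by
    have := g.det_coe
    rwa [Matrix.det_fin_two] at this
  refine ⟨g 1 1, -(g 1 1) * m - g 0 1, -(g 1 0), (g 1 0) * m + g 0 0, ?_, ?_⟩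
  · linear_combination hdet
  · push_cast at e1 ⊢
    rw [e1]
    linear_combination -hwτ

end Pool.Agent.Q51.Sch.Mod
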