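import Mathlib
import Pool.Agent.Q51.Sch.Ellip

/-!
# Derivatives of the modular invariant at points equivalent to `i`
-/

set_option autoImplicit false

open UpperHalfPlane ModularForm H294ZP Filter Topology PowerSeries

namespace Pool.Agent.Q51.Sch

namespace Ser

/-- the case of a double point -/
theorem kills2 {z : ℂ} {f v : ℂ → ℂ} (hf : AnalyticAt ℂ f z) (hv : AnalyticAt ℂ v z)
    (p : Polynomial (Polynomial ℂ)) (hp : p.Monic) (halg : ∀ l k, IsAlgebraic ℚ ((p.coeff l).coeff k))
    (hpv : ∀ᶠ t in 𝓝 z, (p.map (Polynomial.evalRingHom (f t))).eval (v t) = 0)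
    (δ : Derivation ℚ ℂ ℂ) (hd : deriv f z = 0) (hdd : deriv (deriv f) z ≠ 0) (m : ℕ)
    (hJ : ∀ k < m + 1, δ (iteratedDeriv k f z) = 0) :
    ∀ k < m, δ (iteratedDeriv k v z) = 0 := by
  have h := trans_TH hf hv p hp halg hpv δ
  set J := TH z ⟨f, hf⟩ with hJdef
  set V := TH z ⟨v, hv⟩ with hVdef
  have e0 : coeff 0 (dX J) = 0 := by
    rw [coeff_dX, coeff_TH]
    simp [iteratedDeriv_one, hd]
  obtain ⟨U, hU⟩ : X ∣ dX J := by
    rw [X_dvd_iff, ← coeff_zero_eq_constantCoeff_apply]
    exact e0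
  have hU0 : IsUnit U := by
    rw [isUnit_iff_constantCoeff, ← coeff_zero_eq_constantCoeff_apply]
    have h1 : coeff 1 (dX J) = coeff 0 U := by
      rw [hU, show (1 : ℕ) = 0 + 1 from rfl, coeff_succ_X_mul]
    rw [← h1, coeff_dX, coeff_TH, iteratedDeriv_succ, iteratedDeriv_one]
    simpa using hdd
  have hd' : X ^ (m + 1) ∣ co δ J := by
    rw [X_pow_dvd_iff]
    intro k hk
    rw [coeff_co, coeff_TH, der_fac, hJ k hk]
    simp
  obtain ⟨R, hR⟩ := hd'
  have h2 : U * co δ V = X ^ m * (R * dX V) := by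
    have h3 : X * (U * co δ V) = X * (X ^ m * (R * dX V)) := by
      rw [hU, hR] at h
      calc X * (U * co δ V) = X * U * co δ V := by ring
        _ = _ := h
        _ = _ := by ring
    exact mul_left_cancel₀ X_ne_zero h3
  have h3 : X ^ m ∣ co δ V := (hU0.dvd_mul_left).1 ⟨_, h2⟩
  rw [X_pow_dvd_iff] at h3
  intro k hk
  have h4 := h3 k hk
  rw [coeff_co, coeff_TH, der_fac, div_eq_zero_iff] at h4
  exact h4.resolve_right (by exact_mod_cast k.factorial_ne_zero)

/-- the second derivative of a product -/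
theorem deriv2_mul {z : ℂ} {f g : ℂ → ℂ} (hf : AnalyticAt ℂ f z) (hg : AnalyticAt ℂ g z) :
    deriv (deriv (fun t => f t * g t)) z = deriv (deriv f) z * g z + 2 * (deriv f z * deriv g z) +
      f z * deriv (deriv g) z := by
  have h1 : deriv (fun t => f t * g t) =ᶠ[𝓝 z] fun t => deriv f t * g t + f t * deriv g t := by
    filter_upwards [hf.eventually_analyticAt, hg.eventually_analyticAt] with t h1 h2
    exact (h1.differentiableAt.hasDerivAt.mul h2.differentiableAt.hasDerivAt).deriv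
  rw [h1.deriv_eq]
  have h2 := (hf.deriv.differentiableAt.hasDerivAt.mul hg.differentiableAt.hasDerivAt).add
    (hf.differentiableAt.hasDerivAt.mul hg.deriv.differentiableAt.hasDerivAt)
  refine Eq.trans ?_ (h2.deriv.trans ?_)
  · rfl
  · ring

end Ser

namespace Mod

open Pool.Agent.Y685 (LL LC LC_coe mem_LC be al Wc)

/-- `j (γ t) = j (t)` -/
theorem jc_mb {a b c d : ℤ} (hdet : a * d - b * c = 1) {t : ℂ} (ht : 0 < t.im) :
    jc (mb a b c d t) = jc t := by
  have hdet' : 0 < a * d - b * c := by omega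
  have h1 := ta1.1 a b c d hdet ⟨t, ht⟩ ⟨mb a b c d t, mb_im hdet' ht⟩ (by
    show mb a b c d t * ((c : ℂ) * t + d) = _
    unfold mb
    rw [div_mul_cancel₀ _ (mb_den hdet' ht)])
  have h2 : jc t = jj ⟨t, ht⟩ := jc_coe ⟨t, ht⟩
  have h3 : jc (mb a b c d t) = jj ⟨mb a b c d t, mb_im hdet' ht⟩ := jc_coe ⟨mb a b c d t, mb_im hdet' ht⟩
  rw [h2, h3]
  exact h1

/-- the derivative is a form of weight two -/
theorem djc_mb {a b c d : ℤ} (hdet : a * d - b * c = 1) {t : ℂ} (ht : 0 < t.im) :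
    deriv jc (mb a b c d t) * (1 / ((c : ℂ) * t + d) ^ 2) = deriv jc t := by
  have hdet' : 0 < a * d - b * c := by omega
  have h1 := comp_deriv (fun t ht => jc_an ht) hdet' ht
  have h2 : (fun t => jc (mb a b c d t)) =ᶠ[𝓝 t] jc := by
    filter_upwards [isOpen_H.mem_nhds ht] with s hs
    exact jc_mb hdet hs
  rw [h2.deriv_eq, hdet] at h1
  rw [h1]
  norm_num

theorem rho_im_pos : 0 < rho.im := by
  rw [rho_im]
  have : 0 < Real.sqrt 3 := Real.sqrt_pos.2 (by norm_num)
  positivity

theorem djc_rho : deriv jc rho = 0 := by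
  have h := djc_mb (a := 0) (b := -1) (c := 1) (d := 1) (by norm_num) rho_im_pos
  have h1 : rho + 1 ≠ 0 := by
    intro h1
    have h2 := rho_sq
    have h3 : rho = -1 := by linear_combination h1
    rw [h3] at h2
    norm_num at h2
  have h2 : mb 0 (-1) 1 1 rho = rho := by
    unfold mb
    push_cast
    rw [div_eq_iff (by simpa using h1)]
    linear_combination -rho_sq
  rw [h2] at h
  have h3 : (((1 : ℤ) : ℂ) * rho + ((1 : ℤ) : ℂ)) ^ 2 = rho := by
    push_cast
    linear_combination rho_sq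
  rw [h3] at h
  have h4 : deriv jc rho * (1 - rho) = 0 := by
    have hr := rho_ne
    have h5 : deriv jc rho = deriv jc rho * rho := by
      have h6 : deriv jc rho * (1 / rho) * rho = deriv jc rho := by
        field_simp
      rw [h] at h6
      exact h6.symm
    linear_combination h5
  refine (mul_eq_zero.1 h4).resolve_right fun h5 => ?_
  have h6 : rho = 1 := by linear_combination -h5
  have h7 := rho_sq
  rw [h6] at h7
  norm_num at h7

theorem djc_inRho {z : ℍ} (h : InRho z) : deriv jc z = 0 := by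
  obtain ⟨a, b, c, d, hdet, h⟩ := h
  have h1 := djc_mb hdet rho_im_pos
  rw [djc_rho] at h1
  have hden := mb_den (a := a) (b := b) (c := c) (d := d) (by omega) rho_im_pos
  have h2 : mb a b c d rho = z := by
    unfold mb
    rw [div_eq_iff hden]
    exact h.symm
  rw [h2] at h1
  exact (mul_eq_zero.1 h1).resolve_right (one_div_ne_zero (pow_ne_zero 2 hden))

theorem InRho.cm {z : ℍ} (h : InRho z) : CM z := by
  obtain ⟨a, b, c, d, hdet, h⟩ := h
  -- `ρ = (d z - b) / (- c z + a)`
  refine ⟨c ^ 2 - c * d + d ^ 2, -(2 * a * c) + (a * d + b * c) - 2 * b * d, a ^ 2 - a * b + b ^ 2, ?_, ?_⟩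
  · left
    intro h0
    have hc : c = 0 := by nlinarith [sq_nonneg (c - 2 * d), sq_nonneg c]
    have hd : d = 0 := by nlinarith [sq_nonneg (2 * c - d), sq_nonneg d]
    rw [hc, hd] at hdet
    norm_num at hdet
  · have e : (((d : ℂ) * z - b) ^ 2 + (d * z - b) * (-(c : ℂ) * z + a) + (-(c : ℂ) * z + a) ^ 2) = 0 := by
      have e1 : (d : ℂ) * z - b = rho * (-(c : ℂ) * z + a) := by linear_combination h
      rw [e1]
      linear_combination ((-(c : ℂ) * z + a) ^ 2) * rho_sq
    push_cast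
    linear_combination e

/-- the derivative of `j` does not vanish outside of CM points -/
theorem djc_ne {z : ℍ} (h : ¬ CM z) : deriv jc z ≠ 0 := by
  intro h0
  rcases g_of_crit z.im_pos h0 with h1 | h1
  · rw [LC_coe] at h1
    exact h (inRho_of_g2 h1).cm
  · rw [LC_coe] at h1
    obtain ⟨a, b, c, d, hdet, h2, h3⟩ := fix_of_g3 h1
    apply h
    refine ⟨c, d - a, -b, ?_, ?_⟩
    · left
      rintro rfl
      have := congrArg Complex.im h3
      simp at this
    · push_cast
      linear_combination h2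

/-- **Derivatives of `j` at points equivalent to `i`.** -/
theorem jet_sub2 {z w : ℍ} (h : Eqv z w) (hg3 : (LL z).g₃ = 0) : jet w ⊆ cl ℂ (jet z) := by
  have hzim : 0 < (z : ℂ).im := z.im_pos
  have hg3' : (LC (z : ℂ)).g₃ = 0 := by rw [LC_coe]; exact hg3
  have hdd : deriv (deriv jc) z ≠ 0 := ddjc_ne hzim hg3'
  have hd : deriv jc z = 0 := by
    rw [djc hzim, hg3']
    simp
  obtain ⟨a, b, c, d, hdet, hw⟩ := exists_int h
  obtain ⟨P, hPm, hPa, hP⟩ := modeq hdet
  obtain ⟨hvan, hpv⟩ := hP z hzim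
  intro x hx
  refine Ser.mem_cl_of_der fun δ hδ => ?_
  have hz0 : δ (z : ℂ) = 0 := hδ _ (Or.inl rfl)
  -- the third derivative
  have h3 : δ (deriv (deriv (deriv jc)) z) = 0 := by
    obtain ⟨a, b, c, d, hdet, hfix, hI⟩ := fix_of_g3 hg3
    have hdet' : 0 < a * d - b * c := by omega
    have hmz : mb a b c d z = (z : ℂ) := mb_eq hdet' hfix
    have hq : AnalyticAt ℂ (fun t : ℂ => 1 / ((c : ℂ) * t + d) ^ 2) z := by
      have h1 : AnalyticAt ℂ (fun t : ℂ => (c : ℂ) * t + d) z :=
        (analyticAt_const.mul analyticAt_id).add analyticAt_const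
      exact analyticAt_const.div (h1.pow 2) (pow_ne_zero 2 (mb_den hdet' hzim))
    have hA : AnalyticAt ℂ (fun t => deriv jc (mb a b c d t)) z :=
      AnalyticAt.fun_comp (jc_an (mb_im hdet' hzim)).deriv (mb_an hdet' hzim)
    have h1 : (fun t => deriv jc (mb a b c d t) * (1 / ((c : ℂ) * t + d) ^ 2)) =ᶠ[𝓝 (z : ℂ)] deriv jc := by
      filter_upwards [isOpen_H.mem_nhds hzim] with s hs
      exact djc_mb hdet hs
    have h2 := Ser.deriv2_mul hA hq
    rw [h1.deriv.deriv_eq, comp_deriv (fun t ht => (jc_an ht).deriv) hdet' hzim,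
      comp_deriv2 (fun t ht => (jc_an ht).deriv) hdet' hzim, hmz, hd, hdet] at h2
    have hq' := (mb_deriv2 a b c d (mb_den hdet' hzim)).deriv
    rw [hdet] at hq'
    have hq'' : deriv (fun t : ℂ => 1 / ((c : ℂ) * t + d) ^ 2) z = -2 * c * ((1 : ℤ) : ℂ) / ((c : ℂ) * z + d) ^ 3 := by
      rw [← hq']
      norm_num
    rw [hq'', hI] at h2
    have hI2 : Complex.I ^ 2 = -1 := Complex.I_sq
    have hI3 : Complex.I ^ 3 = -Complex.I := by rw [pow_succ, hI2]; ring
    rw [hI2, hI3] at h2
    have h4 : deriv (deriv (deriv jc)) z = -3 * c * Complex.I⁻¹ * deriv (deriv jc) z := by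
      have hII : Complex.I ≠ 0 := Complex.I_ne_zero
      push_cast at h2
      field_simp at h2 ⊢
      linear_combination h2 / 2
    rw [h4]
    have hS : ∀ {y : ℂ}, y ∈ cl ℂ {x | δ x = 0} → δ y = 0 := fun hy => Ser.der_cl δ (fun s hs => hs) hy
    apply hS
    refine cl_mul (cl_mul (cl_mul ?_ (cl_int c)) (cl_inv (cl_algebraic ?_))) (subset_cl _ (hδ _
      (Or.inr (Or.inr (Or.inr rfl)))))
    · have := cl_int (S := {x | δ x = 0}) (-3)
      simpa using this
    · refine ⟨Polynomial.X ^ 2 + 1, ?_, ?_⟩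
      · intro h0
        have := congrArg (fun p : Polynomial ℚ => p.coeff 2) h0
        simp [Polynomial.coeff_one] at this
      · simp
  have hk := Ser.kills2 (jc_an hzim) hvan P hPm hPa hpv δ hd hdd 3 (by
    intro k hk
    interval_cases k
    · rw [iteratedDeriv_zero, jc_coe]
      exact hδ _ (Or.inr (Or.inl rfl))
    · rw [iteratedDeriv_one]
      exact hδ _ (Or.inr (Or.inr (Or.inl rfl)))
    · rw [iteratedDeriv_succ, iteratedDeriv_one]
      exact hδ _ (Or.inr (Or.inr (Or.inr rfl)))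
    · rw [iteratedDeriv_succ, iteratedDeriv_succ, iteratedDeriv_one]
      exact h3)
  have k0 := hk 0 (by norm_num)
  have k1 := hk 1 (by norm_num)
  have k2 := hk 2 (by norm_num)
  rw [iteratedDeriv_zero] at k0
  rw [iteratedDeriv_one] at k1
  rw [iteratedDeriv_succ, iteratedDeriv_one] at k2
  exact jet_of_comp hdet hw δ hz0 k0 k1 k2 x hx

/-- **Good representatives.** -/
theorem exists_rep {z : ℍ} (h : ¬ InRho z) : ∃ w : ℍ, Eqv z w ∧ deriv jc w ≠ 0 ∧ jet w ⊆ cl ℂ (jet z) := by
  by_cases hd : deriv jc z = 0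
  · rcases g_of_crit z.im_pos hd with h1 | h1
    · rw [LC_coe] at h1
      exact absurd (inRho_of_g2 h1) h
    · have hdd := ddjc_ne z.im_pos h1
      rw [LC_coe] at h1
      have h2 : HasDerivAt (deriv jc) (deriv (deriv jc) z) z :=
        (jc_an z.im_pos).deriv.differentiableAt.hasDerivAt
      have h3 : ∀ᶠ t in 𝓝[≠] (z : ℂ), deriv jc t ≠ 0 := h2.eventually_ne hdd
      -- a rational translate
      have h4 : Tendsto (fun n : ℕ => (z : ℂ) + ((1 / ((n : ℚ) + 1) : ℚ) : ℂ)) atTop (𝓝[≠] (z : ℂ)) := by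
        rw [tendsto_nhdsWithin_iff]
        constructor
        · have h5 : Tendsto (fun n : ℕ => ((1 : ℂ) / ((n : ℂ) + 1))) atTop (𝓝 0) :=
            tendsto_one_div_add_atTop_nhds_zero_nat
          have h6 := h5.const_add (z : ℂ)
          rw [add_zero] at h6
          refine h6.congr fun n => ?_
          push_cast
          ring
        · refine Eventually.of_forall fun n => ?_
          simp only [Set.mem_compl_iff, Set.mem_singleton_iff, add_eq_left]
          have : (1 / ((n : ℚ) + 1) : ℚ) ≠ 0 := by positivity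
          exact_mod_cast this
      obtain ⟨n, hn⟩ := (h4.eventually h3).exists
      set q : ℚ := 1 / ((n : ℚ) + 1) with hq
      refine ⟨⟨(z : ℂ) + (q : ℂ), by simpa using z.im_pos⟩, ?_, hn, ?_⟩
      · exact ⟨1, q, 0, 1, by norm_num, by push_cast; ring⟩
      · exact jet_sub2 ⟨1, q, 0, 1, by norm_num, by push_cast; ring⟩ h1
  · exact ⟨z, Eqv.refl z, hd, subset_cl _⟩

end Mod

end Pool.Agent.Q51.Sch
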