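import Mathlib
import Pool.Agent.Q51.Sch.Rk

/-!
# Schanuel's conjecture for real and purely imaginary numbers
-/

set_option autoImplicit false

open Set

namespace Pool.Agent.Q51.Sch

/-- `W` together with its exponentials -/
def S (W : Submodule ℚ ℂ) : Set ℂ := (W : Set ℂ) ∪ Complex.exp '' (W : Set ℂ)

theorem exp_smul_mem {X : Set ℂ} {z : ℂ} (q : ℚ) (hz : Complex.exp z ∈ cl ℂ X) :
    Complex.exp (q • z) ∈ cl ℂ X := by
  apply cl_of_pow (n := q.den) q.den_pos
  have : Complex.exp (q • z) ^ q.den = Complex.exp z ^ q.num := by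
    rw [← Complex.exp_nat_mul, ← Complex.exp_int_mul]
    congr 1
    have h : (q.den : ℂ) * (q : ℂ) = q.num := by
      have := Rat.den_mul_eq_num q
      exact_mod_cast this
    rw [Rat.smul_def, ← mul_assoc, h]
  rw [this]
  exact cl_zpow hz _

theorem smul_mem_cl {X : Set ℂ} {z : ℂ} (q : ℚ) (hz : z ∈ cl ℂ X) : q • z ∈ cl ℂ X := by
  rw [Rat.smul_def]
  exact cl_mul (cl_rat q) hz

/-- spaces spanned by a set -/
theorem span_cl {X : Set ℂ} {Z : Set ℂ} (hZ : ∀ z ∈ Z, z ∈ cl ℂ X ∧ Complex.exp z ∈ cl ℂ X) {z : ℂ}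
    (hz : z ∈ Submodule.span ℚ Z) : z ∈ cl ℂ X ∧ Complex.exp z ∈ cl ℂ X := by
  induction hz using Submodule.span_induction with
  | mem x h => exact hZ x h
  | zero => exact ⟨by simpa using cl_rat (K := ℂ) (X := X) 0, by simpa using cl_rat (K := ℂ) (X := X) 1⟩
  | add x y _ _ hx hy => exact ⟨cl_add hx.1 hy.1, by rw [Complex.exp_add]; exact cl_mul hx.2 hy.2⟩
  | smul q x _ hx => exact ⟨smul_mem_cl q hx.1, exp_smul_mem q hx.2⟩

theorem S_span_subset {X : Set ℂ} {Z : Set ℂ} (hZ : ∀ z ∈ Z, z ∈ cl ℂ X ∧ Complex.exp z ∈ cl ℂ X) :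
    S (Submodule.span ℚ Z) ⊆ cl ℂ X := by
  rintro w (hw | ⟨z, hz, rfl⟩)
  · exact (span_cl hZ hw).1
  · exact (span_cl hZ hz).2

theorem rk_S_span (Z : Set ℂ) : rk ℂ (S (Submodule.span ℚ Z)) = rk ℂ (Z ∪ Complex.exp '' Z) := by
  apply rk_eq
  · exact S_span_subset fun z hz => ⟨subset_cl _ (Or.inl hz), subset_cl _ (Or.inr ⟨z, hz, rfl⟩)⟩
  · rintro w (hw | ⟨z, hz, rfl⟩)
    · exact subset_cl _ (Or.inl (Submodule.subset_span hw))
    · exact subset_cl _ (Or.inr ⟨z, Submodule.subset_span hz, rfl⟩)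

/-- a failure of Schanuel's inequality -/
def Bad (W : Submodule ℚ ℂ) : Prop :=
  FiniteDimensional ℚ W ∧ rk ℂ (S W) < (Module.finrank ℚ W : ℕ∞)

/-- **Submodularity.** -/
theorem bad_or {A B : Submodule ℚ ℂ} (hA : Bad A) (hB : Bad B) : Bad (A ⊓ B) ∨ Bad (A ⊔ B) := by
  obtain ⟨fA, rA⟩ := hA
  obtain ⟨fB, rB⟩ := hB
  have f1 : FiniteDimensional ℚ (A ⊓ B : Submodule ℚ ℂ) :=
    Submodule.finiteDimensional_of_le inf_le_left
  have f2 : FiniteDimensional ℚ (A ⊔ B : Submodule ℚ ℂ) := inferInstance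
  by_contra hcon
  push Not at hcon
  have h1 : (Module.finrank ℚ (A ⊓ B : Submodule ℚ ℂ) : ℕ∞) ≤ rk ℂ (S (A ⊓ B)) := by
    by_contra h; exact hcon.1 ⟨f1, not_le.1 h⟩
  have h2 : (Module.finrank ℚ (A ⊔ B : Submodule ℚ ℂ) : ℕ∞) ≤ rk ℂ (S (A ⊔ B)) := by
    by_contra h; exact hcon.2 ⟨f2, not_le.1 h⟩
  have h3 : rk ℂ (S (A ⊓ B)) ≤ rk ℂ (S A ∩ S B) := by
    apply rk_mono
    rintro w (hw | ⟨z, hz, rfl⟩)
    · exact ⟨Or.inl hw.1, Or.inl hw.2⟩
    · exact ⟨Or.inr ⟨z, hz.1, rfl⟩, Or.inr ⟨z, hz.2, rfl⟩⟩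
  have h4 : rk ℂ (S (A ⊔ B)) ≤ rk ℂ (S A ∪ S B) := by
    apply rk_le_of_subset_cl
    rintro w (hw | ⟨z, hz, rfl⟩)
    · obtain ⟨a, ha, b, hb, rfl⟩ := Submodule.mem_sup.1 hw
      exact cl_add (subset_cl _ (Or.inl (Or.inl ha))) (subset_cl _ (Or.inr (Or.inl hb)))
    · obtain ⟨a, ha, b, hb, rfl⟩ := Submodule.mem_sup.1 hz
      rw [Complex.exp_add]
      exact cl_mul (subset_cl _ (Or.inl (Or.inr ⟨a, ha, rfl⟩))) (subset_cl _ (Or.inr (Or.inr ⟨b, hb, rfl⟩)))
  have h5 := rk_sub (S A) (S B)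
  have h6 : Module.finrank ℚ (A ⊔ B : Submodule ℚ ℂ) + Module.finrank ℚ (A ⊓ B : Submodule ℚ ℂ) =
    Module.finrank ℚ A + Module.finrank ℚ B := Submodule.finrank_sup_add_finrank_inf_eq A B
  have h7 : ((Module.finrank ℚ A + Module.finrank ℚ B : ℕ) : ℕ∞) ≤ rk ℂ (S A) + rk ℂ (S B) := by
    rw [← h6]
    push_cast
    calc (Module.finrank ℚ (A ⊔ B : Submodule ℚ ℂ) : ℕ∞) + Module.finrank ℚ (A ⊓ B : Submodule ℚ ℂ)
        ≤ rk ℂ (S (A ⊔ B)) + rk ℂ (S (A ⊓ B)) := add_le_add h2 h1
      _ ≤ rk ℂ (S A ∪ S B) + rk ℂ (S A ∩ S B) := add_le_add h4 h3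
      _ ≤ _ := by rw [add_comm]; exact h5
  have h8 : rk ℂ (S A) + rk ℂ (S B) < ((Module.finrank ℚ A + Module.finrank ℚ B : ℕ) : ℕ∞) := by
    push_cast
    exact ENat.add_lt_add rA rB
  exact absurd h7 (not_le.2 h8)

/-- numbers `z` such that `z` and `e^z` are algebraically dependent -/
def Easy (z : ℂ) : Prop := ¬ AlgebraicIndependent ℚ ![z, Complex.exp z]

theorem Easy.rk_le {z : ℂ} (h : Easy z) : rk ℂ {z, Complex.exp z} ≤ 1 := by
  by_contra hcon
  have h2 : ((2 : ℕ) : ℕ∞) ≤ rk ℂ {z, Complex.exp z} := by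
    have := Order.add_one_le_of_lt (not_le.1 hcon)
    simpa [one_add_one_eq_two] using this
  rw [← has_iff] at h2
  obtain ⟨t, ht, hi⟩ := h2
  apply h
  have hne : t 0 ≠ t 1 := fun hh => by simpa using hi.injective hh
  rcases ht 0 with h0 | h0 <;> rcases ht 1 with h1 | h1
  · exact absurd (h0.trans h1.symm) hne
  · have : ![z, Complex.exp z] = t := by
      ext i; fin_cases i
      · simpa using h0.symm
      · simpa using h1.symm
    rw [this]; exact hi
  · have : ![z, Complex.exp z] = t ∘ ![1, 0] := by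
      ext i; fin_cases i
      · simpa using h1.symm
      · simpa using h0.symm
    rw [this]
    apply hi.comp
    intro a b hab
    fin_cases a <;> fin_cases b <;> simp_all
  · exact absurd (h0.trans h1.symm) hne

theorem Bad.sup_easy {W : Submodule ℚ ℂ} (hW : Bad W) {z : ℂ} (hz : Easy z) :
    Bad (W ⊔ Submodule.span ℚ {z}) := by
  obtain ⟨fW, rW⟩ := hW
  by_cases hzW : z ∈ W
  · have : W ⊔ Submodule.span ℚ {z} = W := by
      rw [sup_eq_left, Submodule.span_singleton_le_iff_mem]; exact hzW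
    rw [this]; exact ⟨fW, rW⟩
  · refine ⟨inferInstance, ?_⟩
    have hd : Module.finrank ℚ (W ⊔ Submodule.span ℚ {z} : Submodule ℚ ℂ) = Module.finrank ℚ W + 1 := by
      have h0 : z ≠ 0 := fun h => hzW (h ▸ W.zero_mem)
      have hdis : W ⊓ Submodule.span ℚ {z} = ⊥ := by
        rw [← disjoint_iff, disjoint_comm]
        exact (Submodule.disjoint_span_singleton' h0).2 hzW |>.symm
      have := Submodule.finrank_sup_add_finrank_inf_eq W (Submodule.span ℚ {z})
      rw [hdis, finrank_bot, finrank_span_singleton h0] at this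
      omega
    have hr : rk ℂ (S (W ⊔ Submodule.span ℚ {z})) ≤ rk ℂ (S W) + 1 := by
      have h1 : rk ℂ (S (W ⊔ Submodule.span ℚ {z})) ≤ rk ℂ (S W ∪ {z, Complex.exp z}) := by
        apply rk_le_of_subset_cl
        have hsp : ∀ b ∈ Submodule.span ℚ ({z} : Set ℂ), b ∈ cl ℂ (S W ∪ {z, Complex.exp z}) ∧
            Complex.exp b ∈ cl ℂ (S W ∪ {z, Complex.exp z}) := by
          intro b hb
          apply span_cl _ hb
          rintro y rfl
          exact ⟨subset_cl _ (Or.inr (Or.inl rfl)), subset_cl _ (Or.inr (Or.inr rfl))⟩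
        rintro w (hw | ⟨u, hu, rfl⟩)
        · obtain ⟨a, ha, b, hb, rfl⟩ := Submodule.mem_sup.1 hw
          exact cl_add (subset_cl _ (Or.inl (Or.inl ha))) (hsp b hb).1
        · obtain ⟨a, ha, b, hb, rfl⟩ := Submodule.mem_sup.1 hu
          rw [Complex.exp_add]
          exact cl_mul (subset_cl _ (Or.inl (Or.inr ⟨a, ha, rfl⟩))) (hsp b hb).2
      exact h1.trans ((rk_union_le _ _).trans (by gcongr; exact hz.rk_le))
    rw [hd]
    push_cast
    refine lt_of_le_of_lt hr ?_
    exact (ENat.add_lt_add_iff_right (by simp)).2 rW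

theorem Bad.sup_span {W : Submodule ℚ ℂ} (hW : Bad W) (Z : Finset ℂ) (hZ : ∀ z ∈ Z, Easy z) :
    Bad (W ⊔ Submodule.span ℚ (Z : Set ℂ)) := by
  classical
  induction Z using Finset.induction_on with
  | empty => simpa using hW
  | insert a Z ha ih =>
    have h1 := ih fun z hz => hZ z (Finset.mem_insert_of_mem hz)
    have h2 := h1.sup_easy (hZ a (Finset.mem_insert_self a Z))
    have : W ⊔ Submodule.span ℚ ((insert a Z : Finset ℂ) : Set ℂ) =
        W ⊔ Submodule.span ℚ (Z : Set ℂ) ⊔ Submodule.span ℚ {a} := by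
      rw [Finset.coe_insert, Submodule.span_insert, sup_assoc, sup_comm (Submodule.span ℚ {a})]
    rw [this]
    exact h2

/-- complex conjugation -/
noncomputable def cj : ℂ →ₐ[ℚ] ℂ := (Complex.conjAe.toAlgHom).restrictScalars ℚ

theorem cj_apply (z : ℂ) : cj z = (starRingEnd ℂ) z := rfl

theorem cj_cj (z : ℂ) : cj (cj z) = z := by simp [cj_apply]

/-- complex conjugation, linear -/
noncomputable def cjE : ℂ ≃ₗ[ℚ] ℂ :=
  LinearEquiv.ofInvolutive cj.toLinearMap cj_cj

theorem cjE_apply (z : ℂ) : cjE z = (starRingEnd ℂ) z := rfl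

/-- the conjugate space -/
noncomputable def bar (W : Submodule ℚ ℂ) : Submodule ℚ ℂ := W.map (cjE : ℂ →ₗ[ℚ] ℂ)

theorem mem_bar {W : Submodule ℚ ℂ} {z : ℂ} : z ∈ bar W ↔ (starRingEnd ℂ) z ∈ W := by
  unfold bar
  constructor
  · rintro ⟨w, hw, rfl⟩
    simpa [cjE_apply] using hw
  · intro h
    exact ⟨_, h, by simp [cjE_apply]⟩

theorem S_bar (W : Submodule ℚ ℂ) : S (bar W) = cj '' S W := by
  ext w
  constructor
  · rintro (hw | ⟨z, hz, rfl⟩)
    · exact ⟨(starRingEnd ℂ) w, Or.inl (mem_bar.1 hw), by simp [cj_apply]⟩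
    · exact ⟨Complex.exp ((starRingEnd ℂ) z), Or.inr ⟨_, mem_bar.1 hz, rfl⟩, by
        rw [cj_apply, ← Complex.exp_conj]; simp⟩
  · rintro ⟨u, (hu | ⟨z, hz, rfl⟩), rfl⟩
    · exact Or.inl (mem_bar.2 (by simpa [cj_apply] using hu))
    · refine Or.inr ⟨(starRingEnd ℂ) z, mem_bar.2 (by simpa using hz), ?_⟩
      rw [cj_apply, ← Complex.exp_conj]

theorem Bad.bar {W : Submodule ℚ ℂ} (hW : Bad W) : Bad (bar W) := by
  obtain ⟨fW, rW⟩ := hW
  refine ⟨by unfold Sch.bar; infer_instance, ?_⟩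
  rw [S_bar, rk_image]
  have : Module.finrank ℚ (Sch.bar W) = Module.finrank ℚ W := LinearEquiv.finrank_map_eq cjE W
  rw [this]
  exact rW

theorem Easy.conj {z : ℂ} (h : Easy z) : Easy ((starRingEnd ℂ) z) := by
  intro hi
  apply h
  have h2 : AlgebraicIndependent ℚ (cj ∘ ![(starRingEnd ℂ) z, Complex.exp ((starRingEnd ℂ) z)]) :=
    (AlgHom.algebraicIndependent_iff cj cj.injective).2 hi
  have h3 : cj ∘ ![(starRingEnd ℂ) z, Complex.exp ((starRingEnd ℂ) z)] = ![z, Complex.exp z] := by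
    ext i
    fin_cases i
    · simp [cj_apply]
    · simp [cj_apply, ← Complex.exp_conj]
  rwa [h3] at h2

/-- **Symmetric failures.** -/
theorem Bad.symm {W : Submodule ℚ ℂ} (hW : Bad W) (L : Finset ℂ) (hL : ∀ z ∈ L, Easy z) :
    ∃ V : Submodule ℚ ℂ, Bad V ∧ (∀ z ∈ L, z ∈ V) ∧ ∀ z, z ∈ V → (starRingEnd ℂ) z ∈ V := by
  classical
  set Z : Finset ℂ := L ∪ L.image (starRingEnd ℂ) with hZdef
  have hZ : ∀ z ∈ Z, Easy z := by
    intro z hz
    rcases Finset.mem_union.1 hz with h | h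
    · exact hL z h
    · obtain ⟨w, hw, rfl⟩ := Finset.mem_image.1 h
      exact (hL w hw).conj
  have hZc : ∀ z ∈ Z, (starRingEnd ℂ) z ∈ Z := by
    intro z hz
    rcases Finset.mem_union.1 hz with h | h
    · exact Finset.mem_union_right _ (Finset.mem_image_of_mem _ h)
    · obtain ⟨w, hw, rfl⟩ := Finset.mem_image.1 h
      exact Finset.mem_union_left _ (by simpa using hw)
  have hB := hW.sup_span Z hZ
  set W' := W ⊔ Submodule.span ℚ (Z : Set ℂ) with hW'
  have hZW : ∀ z ∈ Z, z ∈ W' := fun z hz => Submodule.mem_sup_right (Submodule.subset_span hz)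
  have hLZ : ∀ z ∈ L, z ∈ Z := fun z hz => Finset.mem_union_left _ hz
  rcases bad_or hB hB.bar with h | h
  · refine ⟨_, h, fun z hz => ⟨hZW z (hLZ z hz), mem_bar.2 (hZW _ (hZc z (hLZ z hz)))⟩, ?_⟩
    rintro z ⟨h1, h2⟩
    exact ⟨mem_bar.1 h2, mem_bar.2 (by simpa using h1)⟩
  · refine ⟨_, h, fun z hz => Submodule.mem_sup_left (hZW z (hLZ z hz)), ?_⟩
    intro z hz
    obtain ⟨a, ha, b, hb, rfl⟩ := Submodule.mem_sup.1 hz
    rw [map_add]
    exact Submodule.add_mem _ (Submodule.mem_sup_right (mem_bar.2 (by simpa using ha)))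
      (Submodule.mem_sup_left (mem_bar.1 hb))

/-- the real numbers in the complex numbers -/
noncomputable def oR : ℝ →ₐ[ℚ] ℂ := Complex.ofRealAm.restrictScalars ℚ

theorem oR_apply (x : ℝ) : oR x = (x : ℂ) := rfl

/-- the imaginary axis -/
noncomputable def oI : ℝ →ₗ[ℚ] ℂ := (LinearMap.mulLeft ℚ Complex.I).comp oR.toLinearMap

theorem oI_apply (x : ℝ) : oI x = Complex.I * (x : ℂ) := rfl

theorem oR_inj : Function.Injective oR.toLinearMap := fun a b h => by
  have : (a : ℂ) = b := h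
  exact_mod_cast this

theorem oI_inj : Function.Injective oI := fun a b h => by
  have : Complex.I * (a : ℂ) = Complex.I * b := h
  have := mul_left_cancel₀ Complex.I_ne_zero this
  exact_mod_cast this

/-- the real numbers of the real form -/
def RS {r s : ℕ} (x : Fin r → ℝ) (y : Fin s → ℝ) : Set ℝ :=
  range x ∪ range (fun i => Real.exp (x i)) ∪ (range y ∪ range (fun j => Real.cos (y j)))

/-- the corresponding space -/
noncomputable def sp {r s : ℕ} (x : Fin r → ℝ) (y : Fin s → ℝ) : Submodule ℚ ℂ :=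
  Submodule.span ℚ (range (fun i => (x i : ℂ)) ∪ range (fun j => Complex.I * (y j : ℂ)))

theorem I_mem_cl (X : Set ℂ) : Complex.I ∈ cl ℂ X := by
  apply cl_of_pow (n := 2) (by norm_num)
  rw [Complex.I_sq]
  simpa using cl_rat (K := ℂ) (X := X) (-1)

/-- **Comparison of the real and the complex form.** -/
theorem rk_real {r s : ℕ} (x : Fin r → ℝ) (y : Fin s → ℝ) : rk ℂ (S (sp x y)) = rk ℝ (RS x y) := by
  rw [← rk_image oR]
  apply rk_eq
  · apply S_span_subset
    set X := oR '' RS x y with hX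
    have hx : ∀ i, (x i : ℂ) ∈ cl ℂ X := fun i => subset_cl _ ⟨x i, Or.inl (Or.inl ⟨i, rfl⟩), rfl⟩
    have hex : ∀ i, Complex.exp (x i : ℂ) ∈ cl ℂ X := fun i =>
      subset_cl _ ⟨Real.exp (x i), Or.inl (Or.inr ⟨i, rfl⟩), by rw [oR_apply]; push_cast; rfl⟩
    have hy : ∀ j, (y j : ℂ) ∈ cl ℂ X := fun j => subset_cl _ ⟨y j, Or.inr (Or.inl ⟨j, rfl⟩), rfl⟩
    have hcy : ∀ j, Complex.cos (y j : ℂ) ∈ cl ℂ X := fun j =>
      subset_cl _ ⟨Real.cos (y j), Or.inr (Or.inr ⟨j, rfl⟩), by rw [oR_apply]; push_cast; rfl⟩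
    have hsy : ∀ j, Complex.sin (y j : ℂ) ∈ cl ℂ X := fun j => by
      apply cl_of_pow (n := 2) (by norm_num)
      have : Complex.sin (y j : ℂ) ^ 2 = ((1 : ℚ) : ℂ) - Complex.cos (y j : ℂ) ^ 2 := by
        have := Complex.sin_sq_add_cos_sq (y j : ℂ)
        push_cast
        linear_combination this
      rw [this]
      exact cl_sub (cl_rat 1) (cl_pow (hcy j) 2)
    rintro z (⟨i, rfl⟩ | ⟨j, rfl⟩)
    · exact ⟨hx i, hex i⟩
    · refine ⟨cl_mul (I_mem_cl X) (hy j), ?_⟩
      change Complex.exp (Complex.I * (y j : ℂ)) ∈ cl ℂ X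
      rw [mul_comm Complex.I, Complex.exp_mul_I]
      exact cl_add (hcy j) (cl_mul (hsy j) (I_mem_cl X))
  · have hmx : ∀ i, (x i : ℂ) ∈ sp x y := fun i => Submodule.subset_span (Or.inl ⟨i, rfl⟩)
    have hmy : ∀ j, Complex.I * (y j : ℂ) ∈ sp x y := fun j => Submodule.subset_span (Or.inr ⟨j, rfl⟩)
    rintro _ ⟨u, ((⟨i, rfl⟩ | ⟨i, rfl⟩) | (⟨j, rfl⟩ | ⟨j, rfl⟩)), rfl⟩
    · exact subset_cl _ (Or.inl (hmx i))
    · refine subset_cl _ (Or.inr ⟨_, hmx i, ?_⟩)
      rw [oR_apply]; push_cast; rfl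
    · rw [oR_apply]
      have : (y j : ℂ) = -Complex.I * (Complex.I * (y j : ℂ)) := by
        rw [← mul_assoc]; simp
      rw [this]
      exact cl_mul (cl_neg (I_mem_cl _)) (subset_cl _ (Or.inl (hmy j)))
    · rw [oR_apply]
      push_cast
      have : Complex.cos (y j : ℂ) = ((1 / 2 : ℚ) : ℂ) * (Complex.exp (Complex.I * (y j : ℂ)) +
          (Complex.exp (Complex.I * (y j : ℂ)))⁻¹) := by
        rw [← Complex.exp_neg, Complex.cos]
        push_cast
        rw [mul_comm Complex.I, neg_mul]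
        ring
      rw [this]
      have h1 : Complex.exp (Complex.I * (y j : ℂ)) ∈ cl ℂ (S (sp x y)) :=
        subset_cl _ (Or.inr ⟨_, hmy j, rfl⟩)
      exact cl_mul (cl_rat _) (cl_add h1 (cl_inv h1))

theorem finrank_sp {r s : ℕ} {x : Fin r → ℝ} {y : Fin s → ℝ} (hx : LinearIndependent ℚ x)
    (hy : LinearIndependent ℚ y) :
    LinearIndependent ℚ (Sum.elim (fun i => (x i : ℂ)) (fun j => Complex.I * (y j : ℂ))) := by
  have h1 : LinearIndependent ℚ (fun i => (x i : ℂ)) := hx.map' oR.toLinearMap (LinearMap.ker_eq_bot.2 oR_inj)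
  have h2 : LinearIndependent ℚ (fun j => Complex.I * (y j : ℂ)) := hy.map' oI (LinearMap.ker_eq_bot.2 oI_inj)
  apply h1.sum_type h2
  rw [Submodule.disjoint_def]
  intro z hz1 hz2
  have hre : z.im = 0 := by
    clear hz2
    induction hz1 using Submodule.span_induction with
    | mem x h => obtain ⟨i, rfl⟩ := h; simp
    | zero => simp
    | add x y _ _ hx hy => simp [hx, hy]
    | smul q x _ hx => simp [Rat.smul_def, hx]
  have him : z.re = 0 := by
    clear hz1 hre
    induction hz2 using Submodule.span_induction with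
    | mem x h => obtain ⟨i, rfl⟩ := h; simp
    | zero => simp
    | add x y _ _ hx hy => simp [hx, hy]
    | smul q x _ hx => simp [Rat.smul_def, hx]
  exact Complex.ext him hre

/-- **Schanuel's conjecture is a statement on real numbers.** -/
theorem main (L : Finset ℂ) (hL : ∀ z ∈ L, Easy z) :
    (∀ (n : ℕ) (z : Fin n → ℂ), LinearIndependent ℚ z →
      Has ℂ n (range z ∪ range (fun i => Complex.exp (z i)))) ↔
    (∀ (r s : ℕ) (x : Fin r → ℝ) (y : Fin s → ℝ), LinearIndependent ℚ x → LinearIndependent ℚ y →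
      (∀ z ∈ L, z ∈ sp x y) → Has ℝ (r + s) (RS x y)) := by
  constructor
  · intro h r s x y hx hy _
    rw [has_iff, ← rk_real, sp, rk_S_span, ← has_iff]
    have hli := finrank_sp hx hy
    have h1 := h (r + s) (Sum.elim (fun i => (x i : ℂ)) (fun j => Complex.I * (y j : ℂ)) ∘ finSumFinEquiv.symm)
      (hli.comp _ finSumFinEquiv.symm.injective)
    obtain ⟨t, ht, hi⟩ := h1
    refine ⟨t, fun i => ?_, hi⟩
    rcases ht i with ⟨k, hk⟩ | ⟨k, hk⟩
    · left
      rw [← hk]
      simp only [Function.comp]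
      rcases finSumFinEquiv.symm k with a | b
      · exact Or.inl ⟨a, rfl⟩
      · exact Or.inr ⟨b, rfl⟩
    · right
      rw [← hk]
      simp only [Function.comp]
      rcases finSumFinEquiv.symm k with a | b
      · exact ⟨_, Or.inl ⟨a, rfl⟩, rfl⟩
      · exact ⟨_, Or.inr ⟨b, rfl⟩, rfl⟩
  · intro h n z hz
    by_contra hcon
    have hbad : Bad (Submodule.span ℚ (range z)) := by
      refine ⟨FiniteDimensional.span_of_finite ℚ (finite_range z), ?_⟩
      rw [rk_S_span, finrank_span_eq_card hz, Fintype.card_fin]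
      rw [has_iff, not_le] at hcon
      rwa [← Set.range_comp] 
    obtain ⟨V, ⟨fV, rV⟩, hLV, hcV⟩ := hbad.symm L hL
    set R : Submodule ℚ ℝ := V.comap oR.toLinearMap with hR
    set J : Submodule ℚ ℝ := V.comap oI with hJ
    have hsup : V = R.map oR.toLinearMap ⊔ J.map oI := by
      apply le_antisymm
      · intro v hv
        have hcv := hcV v hv
        have h1 : ((v.re : ℝ) : ℂ) ∈ V := by
          have : ((v.re : ℝ) : ℂ) = (1 / 2 : ℚ) • (v + (starRingEnd ℂ) v) := by
            rw [Complex.add_conj, Rat.smul_def]; push_cast; ring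
          rw [this]
          exact V.smul_mem _ (V.add_mem hv hcv)
        have h2 : Complex.I * ((v.im : ℝ) : ℂ) ∈ V := by
          have : Complex.I * ((v.im : ℝ) : ℂ) = (1 / 2 : ℚ) • (v - (starRingEnd ℂ) v) := by
            rw [Complex.sub_conj, Rat.smul_def]; push_cast; ring
          rw [this]
          exact V.smul_mem _ (V.sub_mem hv hcv)
        rw [Submodule.mem_sup]
        refine ⟨_, ⟨v.re, h1, rfl⟩, _, ⟨v.im, h2, rfl⟩, ?_⟩
        change (v.re : ℂ) + Complex.I * (v.im : ℂ) = v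
        rw [mul_comm]
        exact Complex.re_add_im v
      · apply sup_le
        · rintro _ ⟨w, hw, rfl⟩; exact hw
        · rintro _ ⟨w, hw, rfl⟩; exact hw
    have fR : FiniteDimensional ℚ R := by
      apply Module.Finite.of_injective (oR.toLinearMap.restrict (p := R) (q := V) fun w hw => hw)
      intro a b hab
      exact Subtype.ext (oR_inj (congrArg Subtype.val hab))
    have fJ : FiniteDimensional ℚ J := by
      apply Module.Finite.of_injective (oI.restrict (p := J) (q := V) fun w hw => hw)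
      intro a b hab
      exact Subtype.ext (oI_inj (congrArg Subtype.val hab))
    have hinf : R.map oR.toLinearMap ⊓ J.map oI = ⊥ := by
      rw [eq_bot_iff]
      rintro w ⟨⟨a, _, ha⟩, ⟨b, _, hb⟩⟩
      have ha' : (a : ℂ) = w := ha
      have hb' : Complex.I * (b : ℂ) = w := hb
      have him : w.im = 0 := by rw [← ha']; simp
      have hre : w.re = 0 := by rw [← hb']; simp
      exact (Submodule.mem_bot ℚ).2 (Complex.ext hre him)
    have hdim : Module.finrank ℚ V = Module.finrank ℚ R + Module.finrank ℚ J := by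
      have h1 := Submodule.finrank_sup_add_finrank_inf_eq (R.map oR.toLinearMap) (J.map oI)
      rw [hinf, finrank_bot, ← hsup, add_zero] at h1
      rw [h1, (Submodule.equivMapOfInjective oR.toLinearMap oR_inj R).finrank_eq,
        (Submodule.equivMapOfInjective oI oI_inj J).finrank_eq]
    let bR := Module.finBasis ℚ R
    let bJ := Module.finBasis ℚ J
    set x : Fin (Module.finrank ℚ R) → ℝ := fun i => (bR i : ℝ) with hx
    set y : Fin (Module.finrank ℚ J) → ℝ := fun i => (bJ i : ℝ) with hy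
    have hxi : LinearIndependent ℚ x := bR.linearIndependent.map' R.subtype (Submodule.ker_subtype R)
    have hyi : LinearIndependent ℚ y := bJ.linearIndependent.map' J.subtype (Submodule.ker_subtype J)
    have hVsp : V = sp x y := by
      have e1 : Submodule.span ℚ (range x) = R := by
        have := congrArg (Submodule.map R.subtype) bR.span_eq
        rwa [Submodule.map_span, ← range_comp, Submodule.map_top, Submodule.range_subtype] at this
      have e2 : Submodule.span ℚ (range y) = J := by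
        have := congrArg (Submodule.map J.subtype) bJ.span_eq
        rwa [Submodule.map_span, ← range_comp, Submodule.map_top, Submodule.range_subtype] at this
      rw [hsup, sp, Submodule.span_union]
      congr 1
      · have := congrArg (Submodule.map oR.toLinearMap) e1
        rw [Submodule.map_span, ← range_comp] at this
        exact this.symm
      · have := congrArg (Submodule.map oI) e2
        rw [Submodule.map_span, ← range_comp] at this
        exact this.symm
    have hfin := h _ _ x y hxi hyi (fun z hz => hVsp ▸ hLV z hz)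
    rw [has_iff, ← rk_real, ← hVsp, ← hdim] at hfin
    exact absurd rV (not_lt.2 hfin)

end Pool.Agent.Q51.Sch
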