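import Mathlib
import Pool.Agent.Q51.Sch.Abs2
import Pool.Agent.Q51.Sch.Real
import Pool.Agent.Q51.Sch.ModBase

/-!
# The modular Schanuel conjecture: reflection
-/

set_option autoImplicit false

open Set UpperHalfPlane ModularForm H294ZP

namespace Pool.Agent.Q51.Sch.Mod

/-- the points which are not CM points -/
abbrev X : Type := {z : ℍ // ¬ CM z}

/-- the numbers `z`, `j(z)` -/
noncomputable def dt (z : ℍ) : Set ℂ := {(z : ℂ), jj z}

/-- the data of the modular Schanuel conjecture -/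
noncomputable def W1 : Wat X ℂ where
  r :=
    { r := fun z w => Eqv z.1 w.1
      iseqv := ⟨fun z => Eqv.refl z.1, fun h => h.symm, fun h h' => h.trans h'⟩ }
  data := fun z => dt z.1
  w := fun _ => 1
  wr := fun _ _ _ => rfl
  cl_of := by
    rintro ⟨x, hx⟩ ⟨y, hy⟩ h a ha
    have h' : Eqv y x := Eqv.symm h
    rcases ha with rfl | ha
    · exact cl_mono (by intro b hb; exact Or.inl hb) (mem_cl_of_eqv h')
    · rw [Set.mem_singleton_iff.1 ha]
      exact cl_mono (by intro b hb; exact Or.inr hb) (jj_mem_cl h')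
  σ := fun z => ⟨rf z.1, fun h => z.2 (by have := h.rf; rwa [rf_rf] at this)⟩
  σr := fun _ _ h => Eqv.rf h
  σσ := fun z => by
    show Eqv (rf (rf z.1)) z.1
    rw [rf_rf]
    exact Eqv.refl _
  wσ := fun _ => rfl
  φ := cj
  σd := by
    rintro ⟨x, hx⟩ a ha
    rcases ha with rfl | ha
    · show ((rf x : ℍ) : ℂ) ∈ _
      rw [coe_rf]
      exact cl_neg (subset_cl _ ⟨(x : ℂ), Or.inl rfl, cj_apply _⟩)
    · rw [Set.mem_singleton_iff.1 ha]
      refine subset_cl _ ⟨jj x, Or.inr rfl, ?_⟩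
      rw [cj_apply]
      exact (jj_rf x).symm

theorem W1_w (x : X) : W1.w x = 1 := rfl
theorem W1_data (x : X) : W1.data x = dt x.1 := rfl
theorem W1_r {x y : X} : W1.r.r x y ↔ Eqv x.1 y.1 := Iff.rfl

theorem re_mem {S : Set ℂ} {a : ℂ} (h : a ∈ cl ℂ S) (h' : (starRingEnd ℂ) a ∈ cl ℂ S) :
    ((a.re : ℝ) : ℂ) ∈ cl ℂ S := by
  have h2 : ((2⁻¹ : ℚ) : ℂ) ∈ cl ℂ S := cl_rat _
  have e : ((a.re : ℝ) : ℂ) = ((2⁻¹ : ℚ) : ℂ) * (a + (starRingEnd ℂ) a) := by
    rw [Complex.add_conj]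
    push_cast
    ring
  rw [e]
  exact cl_mul h2 (cl_add h h')

theorem im_mem {S : Set ℂ} {a : ℂ} (h : a ∈ cl ℂ S) (h' : (starRingEnd ℂ) a ∈ cl ℂ S) :
    ((a.im : ℝ) : ℂ) ∈ cl ℂ S := by
  have h1 := re_mem h h'
  have e : ((a.im : ℝ) : ℂ) = (a - (a.re : ℝ)) * Complex.I⁻¹ := by
    have h2 : a = (a.re : ℂ) + (a.im : ℂ) * Complex.I := (Complex.re_add_im a).symm
    have h3 : a - ((a.re : ℝ) : ℂ) = (a.im : ℂ) * Complex.I := by
      linear_combination h2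
    rw [h3, mul_assoc, mul_inv_cancel₀ Complex.I_ne_zero, mul_one]
  rw [e]
  exact cl_mul (cl_sub h h1) (cl_inv (I_mem_cl S))

theorem mem_of_parts {S : Set ℂ} {a : ℂ} (h : ((a.re : ℝ) : ℂ) ∈ cl ℂ S) (h' : ((a.im : ℝ) : ℂ) ∈ cl ℂ S) :
    a ∈ cl ℂ S := by
  have e := (Complex.re_add_im a).symm
  rw [e]
  exact cl_add h (cl_mul h' (I_mem_cl S))

theorem conj_mem_of_parts {S : Set ℂ} {a : ℂ} (h : ((a.re : ℝ) : ℂ) ∈ cl ℂ S)
    (h' : ((a.im : ℝ) : ℂ) ∈ cl ℂ S) : (starRingEnd ℂ) a ∈ cl ℂ S := by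
  have e : (starRingEnd ℂ) a = (a.re : ℂ) - (a.im : ℂ) * Complex.I := by
    apply Complex.ext <;> simp
  rw [e]
  exact cl_sub h (cl_mul h' (I_mem_cl S))

/-- the points `x_i`, `-x̄_i`, `w_k` -/
def fam {r s : ℕ} (x : Fin r → ℍ) (w : Fin s → ℍ) : Fin r ⊕ Fin r ⊕ Fin s → ℍ :=
  Sum.elim x (Sum.elim (fun i => rf (x i)) w)

/-- the real numbers -/
def RS1 {r s : ℕ} (x : Fin r → ℍ) (w : Fin s → ℍ) : Set ℝ :=
  (⋃ i, {(x i : ℂ).re, (x i : ℂ).im, (jj (x i)).re, (jj (x i)).im}) ∪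
    (⋃ k, {(w k : ℂ).re, (jj (w k)).re, (jj (w k)).im})

theorem rk_RS1 {r s : ℕ} (x : Fin r → ℍ) (w : Fin s → ℍ) (hw : ∀ k, Circ (w k)) :
    rk ℂ (⋃ i, dt (fam x w i)) = rk ℝ (RS1 x w) := by
  rw [← rk_image oR]
  refine rk_eq ?_ ?_
  · intro a ha
    obtain ⟨i, hi⟩ := mem_iUnion.1 ha
    have hS : ∀ b, b ∈ RS1 x w → ((b : ℝ) : ℂ) ∈ cl ℂ (oR '' RS1 x w) := fun b hb =>
      subset_cl _ ⟨b, hb, oR_apply b⟩
    have hx : ∀ i, (∀ b, b ∈ ({(x i : ℂ).re, (x i : ℂ).im, (jj (x i)).re, (jj (x i)).im} : Set ℝ) →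
        b ∈ RS1 x w) := fun i b hb => Or.inl (mem_iUnion.2 ⟨i, hb⟩)
    have hw' : ∀ k, (∀ b, b ∈ ({(w k : ℂ).re, (jj (w k)).re, (jj (w k)).im} : Set ℝ) →
        b ∈ RS1 x w) := fun k b hb => Or.inr (mem_iUnion.2 ⟨k, hb⟩)
    rcases i with i | i | k
    · have hi' : a ∈ dt (x i) := hi
      rcases hi' with rfl | hi'
      · exact mem_of_parts (hS _ (hx i _ (by simp))) (hS _ (hx i _ (by simp)))
      · rw [Set.mem_singleton_iff.1 hi']
        exact mem_of_parts (hS _ (hx i _ (by simp))) (hS _ (hx i _ (by simp)))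
    · rcases hi with rfl | hi
      · show ((rf (x i) : ℍ) : ℂ) ∈ _
        rw [coe_rf]
        exact cl_neg (conj_mem_of_parts (hS _ (hx i _ (by simp))) (hS _ (hx i _ (by simp))))
      · rw [Set.mem_singleton_iff.1 hi]
        show jj (rf (x i)) ∈ _
        rw [jj_rf]
        exact conj_mem_of_parts (hS _ (hx i _ (by simp))) (hS _ (hx i _ (by simp)))
    · have hi' : a ∈ dt (w k) := hi
      rcases hi' with rfl | hi'
      · show ((w k : ℍ) : ℂ) ∈ _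
        have h1 := hS _ (hw' k _ (by simp : (w k : ℂ).re ∈ _))
        refine mem_of_parts h1 ?_
        obtain ⟨m, hm, hn⟩ := hw k
        refine cl_of_pow (n := 2) (by norm_num) ?_
        have e : (((w k : ℂ).im : ℝ) : ℂ) ^ 2 = ((m : ℚ) : ℂ) - (((w k : ℂ).re : ℝ) : ℂ) ^ 2 := by
          rw [Complex.normSq_apply] at hn
          have h2 : ((((w k : ℂ).re * (w k : ℂ).re + (w k : ℂ).im * (w k : ℂ).im : ℝ)) : ℂ) = ((m : ℝ) : ℂ) := by
            rw [hn]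
          push_cast at h2 ⊢
          linear_combination h2
        rw [e]
        exact cl_sub (cl_rat _) (cl_pow h1 2)
      · rw [Set.mem_singleton_iff.1 hi']
        exact mem_of_parts (hS _ (hw' k _ (by simp))) (hS _ (hw' k _ (by simp)))
  · rintro a ⟨b, hb, rfl⟩
    rw [oR_apply]
    have hD : ∀ i, ∀ a, a ∈ dt (fam x w i) → a ∈ cl ℂ (⋃ i, dt (fam x w i)) := fun i a ha =>
      subset_cl _ (mem_iUnion.2 ⟨i, ha⟩)
    rcases hb with hb | hb
    · obtain ⟨i, hi⟩ := mem_iUnion.1 hb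
      have h1 : (x i : ℂ) ∈ cl ℂ (⋃ i, dt (fam x w i)) := hD (Sum.inl i) _ (Or.inl rfl)
      have h2 : jj (x i) ∈ cl ℂ (⋃ i, dt (fam x w i)) := hD (Sum.inl i) _ (Or.inr rfl)
      have h3 : ((rf (x i) : ℍ) : ℂ) ∈ cl ℂ (⋃ i, dt (fam x w i)) :=
        hD (Sum.inr (Sum.inl i)) _ (Or.inl rfl)
      have h4 : jj (rf (x i)) ∈ cl ℂ (⋃ i, dt (fam x w i)) :=
        hD (Sum.inr (Sum.inl i)) _ (Or.inr rfl)
      rw [coe_rf] at h3
      have h3' := cl_neg h3
      rw [neg_neg] at h3'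
      rw [jj_rf] at h4
      rcases hi with rfl | rfl | rfl | hi
      · exact re_mem h1 h3'
      · exact im_mem h1 h3'
      · exact re_mem h2 h4
      · rw [Set.mem_singleton_iff.1 hi]
        exact im_mem h2 h4
    · obtain ⟨k, hk⟩ := mem_iUnion.1 hb
      have h1 : (w k : ℂ) ∈ cl ℂ (⋃ i, dt (fam x w i)) := hD (Sum.inr (Sum.inr k)) _ (Or.inl rfl)
      have h2 : jj (w k) ∈ cl ℂ (⋃ i, dt (fam x w i)) := hD (Sum.inr (Sum.inr k)) _ (Or.inr rfl)
      have he : Eqv (w k) (rf (w k)) := (hw k).eqv.symm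
      have h3 : ((rf (w k) : ℍ) : ℂ) ∈ cl ℂ (⋃ i, dt (fam x w i)) :=
        cl_idem (by intro b hb; rw [Set.mem_singleton_iff.1 hb]; exact h1) (mem_cl_of_eqv he)
      have h4 : jj (rf (w k)) ∈ cl ℂ (⋃ i, dt (fam x w i)) :=
        cl_idem (by intro b hb; rw [Set.mem_singleton_iff.1 hb]; exact h2) (jj_mem_cl he)
      rw [coe_rf] at h3
      have h3' := cl_neg h3
      rw [neg_neg] at h3'
      rw [jj_rf] at h4
      rcases hk with rfl | rfl | hk
      · exact re_mem h1 h3'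
      · exact re_mem h2 h4
      · rw [Set.mem_singleton_iff.1 hk]
        exact im_mem h2 h4

theorem rk_pair_le {a b : ℂ} (h : ¬ AlgebraicIndependent ℚ ![a, b]) : rk ℂ {a, b} ≤ 1 := by
  by_contra hcon
  rw [not_le] at hcon
  have h2 : ((2 : ℕ) : ℕ∞) ≤ rk ℂ {a, b} := by
    have := Order.add_one_le_of_lt hcon
    rw [one_add_one_eq_two] at this
    exact_mod_cast this
  rw [← has_iff] at h2
  obtain ⟨t, ht, hi⟩ := h2
  apply h
  have hinj := hi.injective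
  have h0 : t 0 ≠ t 1 := fun h => by simpa using hinj h
  rcases ht 0 with h3 | h3
  · rcases ht 1 with h4 | h4
    · exact absurd (h3.trans h4.symm) h0
    · have e : ![a, b] = t := by
        funext i
        fin_cases i
        · exact h3.symm
        · exact (Set.mem_singleton_iff.1 h4).symm
      rw [e]
      exact hi
  · rcases ht 1 with h4 | h4
    · have e : ![a, b] = t ∘ Equiv.swap 0 1 := by
        funext i
        fin_cases i
        · simpa using h4.symm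
        · simpa using (Set.mem_singleton_iff.1 h3).symm
      rw [e]
      exact hi.comp _ (Equiv.injective _)
    · exact absurd ((Set.mem_singleton_iff.1 h3).trans (Set.mem_singleton_iff.1 h4).symm) h0

theorem W1_fam {r s : ℕ} (x : Fin r → X) (y : Fin s → X) (i : Fin r ⊕ Fin r ⊕ Fin s) :
    (W1.fam x y i).1 = fam (fun i => (x i).1) (fun k => (y k).1) i := by
  rcases i with i | i | i <;> rfl

theorem W1_iUnion {r s : ℕ} (x : Fin r → X) (y : Fin s → X) :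
    (⋃ i, W1.data (W1.fam x y i)) = ⋃ i, dt (fam (fun i => (x i).1) (fun k => (y k).1) i) := by
  refine iUnion_congr fun i => ?_
  rw [W1_data, W1_fam]

theorem W1_iff {r s : ℕ} (x : Fin r → X) (y : Fin s → X) :
    (∀ i k, i ≠ k → ¬ W1.r.r (W1.fam x y i) (W1.fam x y k)) ↔
      ∀ i k, i ≠ k → ¬ Eqv (fam (fun i => (x i).1) (fun k => (y k).1) i)
        (fam (fun i => (x i).1) (fun k => (y k).1) k) := by
  simp only [W1_r, W1_fam]

theorem W1_main (L : Finset X) (hL : ∀ l ∈ L, rk ℂ (dt l.1) ≤ 1) :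
    (∀ (n : ℕ) (z : Fin n → X), (∀ i k, i ≠ k → ¬ Eqv (z i).1 (z k).1) →
      (n : ℕ∞) ≤ rk ℂ (⋃ i, dt (z i).1)) ↔
    (∀ (r s : ℕ) (x : Fin r → X) (y : Fin s → X),
      (∀ i k, i ≠ k → ¬ Eqv (fam (fun i => (x i).1) (fun k => (y k).1) i)
        (fam (fun i => (x i).1) (fun k => (y k).1) k)) → (∀ k, Circ (y k).1) →
      (∀ l ∈ L, ∃ i, Eqv l.1 (fam (fun i => (x i).1) (fun k => (y k).1) i)) →
      ((2 * r + s : ℕ) : ℕ∞) ≤ rk ℂ (⋃ i, dt (fam (fun i => (x i).1) (fun k => (y k).1) i))) := by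
  have hm := W1.main (fun y => Circ y.1) (by
    rintro ⟨y, hy⟩ h
    obtain ⟨w, hw1, hw2⟩ := exists_circ h
    exact ⟨⟨w, fun hc => hy (CM.of_eqv (Eqv.symm hw1) hc)⟩, hw1, hw2⟩) L
    (fun l hl => by rw [W1_data, W1_w]; exact_mod_cast hL l hl)
  simp only [W1_w, W1_r, W1_fam, W1_data, Finset.sum_const, Finset.card_univ,
    Fintype.card_fin, smul_eq_mul, mul_one] at hm
  exact hm

/-- **The modular Schanuel conjecture as a statement on real numbers.** -/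
theorem main1 (L : Finset ℍ) (hL : ∀ l ∈ L, ¬ CM l ∧ ¬ AlgebraicIndependent ℚ ![(l : ℂ), jj l]) :
    (∀ (n : ℕ) (z : Fin n → ℍ), (∀ i, ¬ CM (z i)) → (∀ i k, i ≠ k → ¬ Eqv (z i) (z k)) →
      (n : ℕ∞) ≤ rk ℂ (⋃ i, dt (z i))) ↔
    (∀ (r s : ℕ) (x : Fin r → ℍ) (w : Fin s → ℍ), (∀ i, ¬ CM (fam x w i)) → (∀ k, Circ (w k)) →
      (∀ i k, i ≠ k → ¬ Eqv (fam x w i) (fam x w k)) → (∀ l ∈ L, ∃ i, Eqv l (fam x w i)) →
      ((2 * r + s : ℕ) : ℕ∞) ≤ rk ℝ (RS1 x w)) := by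
  classical
  have h0 : ∀ l ∈ L.subtype (fun z => ¬ CM z), rk ℂ (dt l.1) ≤ 1 := by
    intro l hl
    have h1 := rk_pair_le (hL l.1 (Finset.mem_subtype.1 hl)).2
    unfold dt
    exact h1
  have hm := W1_main _ h0
  constructor
  · intro h r s x w hcm hw hne hl
    have h1 := hm.1 (fun n z hz => h n (fun i => (z i).1) (fun i => (z i).2) hz) r s
      (fun i => ⟨x i, hcm (Sum.inl i)⟩) (fun k => ⟨w k, hcm (Sum.inr (Sum.inr k))⟩) hne hw (by
        intro l hl'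
        exact hl l.1 (Finset.mem_subtype.1 hl'))
    rw [← rk_RS1 x w hw]
    exact h1
  · intro h n z hcm hne
    exact hm.2 (fun r s x y hne hy hl => by
      have h3 := h r s (fun i => (x i).1) (fun k => (y k).1) (fun i => by
          rw [← W1_fam]
          exact (W1.fam x y i).2) hy hne
        (fun l hl' => hl ⟨l, (hL l hl').1⟩ (Finset.mem_subtype.2 hl'))
      rw [← rk_RS1 _ _ hy] at h3
      exact h3) n (fun i => ⟨z i, hcm i⟩) hne

end Pool.Agent.Q51.Sch.Mod
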