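import Mathlib
import Pool.Agent.Q51.Sch.Rk

/-!
# The transcendence degree of the field generated by a set
-/

set_option autoImplicit false

open Set

namespace Pool.Agent.Q51.Sch

/-- `n` is at most the transcendence degree over `ℚ` of the field generated by the set `X` -/
def AtLeast (K : Type) [Field K] [Algebra ℚ K] (n : ℕ) (X : Set K) : Prop :=
  (n : Cardinal) ≤ Algebra.trdeg ℚ (IntermediateField.adjoin ℚ X)

theorem adjoin_subset_cl {K : Type} [Field K] [CharZero K] (X : Set K) :
    ((IntermediateField.adjoin ℚ X : IntermediateField ℚ K) : Set K) ⊆ cl K X := by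
  intro a ha
  induction ha using IntermediateField.adjoin_induction with
  | mem x hx => exact subset_cl _ hx
  | algebraMap q => exact cl_rat q
  | add x y _ _ hx hy => exact cl_add hx hy
  | inv x _ hx => exact cl_inv hx
  | mul x y _ _ hx hy => exact cl_mul hx hy

theorem atLeast_iff {K : Type} [Field K] [CharZero K] (n : ℕ) (X : Set K) :
    AtLeast K n X ↔ (n : ℕ∞) ≤ rk K X := by
  rw [← has_iff]
  constructor
  · intro h
    obtain ⟨B, hB⟩ := exists_isTranscendenceBasis ℚ (IntermediateField.adjoin ℚ X)
    have hc := hB.cardinalMk_eq_trdeg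
    unfold AtLeast at h
    rw [← hc, ← Cardinal.mk_fin, Cardinal.le_def] at h
    obtain ⟨e⟩ := h
    have h1 : AlgebraicIndependent ℚ (fun i => ((e i : IntermediateField.adjoin ℚ X) : K)) := by
      have h2 := hB.1.comp e e.injective
      exact (AlgHom.algebraicIndependent_iff (IntermediateField.adjoin ℚ X).val
        (IntermediateField.adjoin ℚ X).val.injective).2 h2
    have h2 : Has K n ((IntermediateField.adjoin ℚ X : IntermediateField ℚ K) : Set K) :=
      ⟨_, fun i => (e i : IntermediateField.adjoin ℚ X).2, h1⟩
    rw [has_iff] at h2 ⊢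
    exact h2.trans (rk_le_of_subset_cl (adjoin_subset_cl X))
  · rintro ⟨t, ht, hi⟩
    have h1 : AlgebraicIndependent ℚ (fun i => (⟨t i, IntermediateField.subset_adjoin ℚ X (ht i)⟩ :
        IntermediateField.adjoin ℚ X)) :=
      (AlgHom.algebraicIndependent_iff (IntermediateField.adjoin ℚ X).val
        (IntermediateField.adjoin ℚ X).val.injective).1 hi
    have h2 := h1.lift_cardinalMk_le_trdeg
    unfold AtLeast
    simpa using h2

end Pool.Agent.Q51.Sch
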