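import Mathlib
import Pool.Agent.Q51.Sch.Abs2
import Pool.Agent.Q51.Sch.Real
import Pool.Agent.Q51.Sch.ModJ
import Pool.Agent.Q51.Sch.Phi
import Pool.Agent.Q51.Sch.Trdeg

/-!
# The modular Schanuel conjecture with derivatives: reflection
-/

set_option autoImplicit false

open Set UpperHalfPlane ModularForm H294ZP Filter Topology

namespace Pool.Agent.Q51.Sch.Mod

/-- rational geodesics -/
def Geo (w : ℍ) : Prop :=
  ∃ a b c : ℤ, (a ≠ 0 ∨ b ≠ 0 ∨ c ≠ 0) ∧ (a : ℝ) * Complex.normSq (w : ℂ) + b * (w : ℂ).re + c = 0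

theorem Geo.eqv {w : ℍ} (h : Geo w) : Eqv w (Mod.rf w) := by
  obtain ⟨a, b, c, hne, h⟩ := h
  have hy : 0 < (w : ℂ).im := w.im_pos
  refine ⟨b / 2, c, a, b / 2, ?_, ?_⟩
  · have h1 : (0 : ℝ) < (b / 2) * (b / 2) - c * a := by
      by_cases ha : a = 0
      · subst ha
        have hb : b ≠ 0 := by
          rintro rfl
          simp at h hne
          exact hne (by exact_mod_cast h)
        have : (0 : ℝ) < (b : ℝ) ^ 2 := by positivity
        push_cast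
        nlinarith
      · rw [Complex.normSq_apply] at h
        have ha' : (0 : ℝ) < (a : ℝ) ^ 2 := by positivity
        have e : ((b : ℝ) / 2) * (b / 2) - c * a = (b / 2 + a * (w : ℂ).re) ^ 2 + a ^ 2 * (w : ℂ).im ^ 2 := by
          linear_combination (-(a : ℝ)) * h
        rw [e]
        have : 0 < (a : ℝ) ^ 2 * (w : ℂ).im ^ 2 := by positivity
        positivity
    exact_mod_cast h1
  · rw [coe_rf]
    have h1 : (w : ℂ) * (starRingEnd ℂ) (w : ℂ) = Complex.normSq (w : ℂ) := by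
      rw [Complex.mul_conj]
    have h2 : (w : ℂ) + (starRingEnd ℂ) (w : ℂ) = 2 * ((w : ℂ).re : ℝ) := by
      rw [Complex.add_conj]
      push_cast
      rfl
    have h3 : (a : ℂ) * ((Complex.normSq (w : ℂ) : ℝ) : ℂ) + b * (((w : ℂ).re : ℝ) : ℂ) + c = 0 := by
      have := congrArg (fun r : ℝ => (r : ℂ)) h
      push_cast at this
      exact this
    push_cast
    linear_combination (-(a : ℂ)) * h1 - (b / 2 : ℂ) * h2 - h3

/-- an orbit which contains the reflection of a point: the point lies on a rational geodesic -/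
theorem geo_of {z : ℍ} (h : Eqv (rf z) z) : Geo z := by
  obtain ⟨a, b, c, d, hdet, h⟩ := exists_int h.symm
  rw [coe_rf] at h
  have him := congrArg Complex.im h
  have hre := congrArg Complex.re h
  simp at him hre
  have hy : (z : ℂ).im ≠ 0 := z.im_ne_zero
  have had : a = d := by
    have h1 : (z : ℂ).im * ((d : ℝ) - a) = 0 := by
      simp only [coe_im] at *
      linarith
    have h2 := (mul_eq_zero.1 h1).resolve_left hy
    have h3 : (d : ℝ) = a := by linarith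
    exact_mod_cast h3.symm
  subst had
  refine ⟨c, 2 * a, b, ?_, ?_⟩
  · by_contra hcon
    push Not at hcon
    obtain ⟨h1, h2, h3⟩ := hcon
    have h4 : a = 0 := by omega
    rw [h1, h4, h3] at hdet
    simp at hdet
  · rw [Complex.normSq_apply]
    push_cast
    simp only [coe_im, coe_re] at *
    linear_combination -hre

/-! ### conjugation of the derivatives -/

theorem jc_conj {t : ℂ} (ht : 0 < t.im) : jc (-(starRingEnd ℂ) t) = (starRingEnd ℂ) (jc t) := by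
  have h := jj_rf ⟨t, ht⟩
  have h1 : jc (-(starRingEnd ℂ) t) = jj (rf ⟨t, ht⟩) := jc_coe (rf ⟨t, ht⟩)
  have h2 : jc t = jj ⟨t, ht⟩ := jc_coe ⟨t, ht⟩
  rw [h1, h2]
  exact h

/-- if `f (-t̄) = ε conj (f t)` on the upper half plane, then `f' (-t̄) = -ε conj (f' t)` -/
theorem deriv_refl {f : ℂ → ℂ} {ε : ℂ}
    (hf : ∀ t : ℂ, 0 < t.im → AnalyticAt ℂ f t)
    (h : ∀ t : ℂ, 0 < t.im → f (-(starRingEnd ℂ) t) = ε * (starRingEnd ℂ) (f t)) {t : ℂ} (ht : 0 < t.im) :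
    deriv f (-(starRingEnd ℂ) t) = -ε * (starRingEnd ℂ) (deriv f t) := by
  have h0 : 0 < (-(starRingEnd ℂ) t).im := by simpa using ht
  have h1 := (hf _ ht).differentiableAt.hasDerivAt.conj_conj
  -- `conj (f (conj s))` at `s = conj t`
  have h2 : HasDerivAt (fun s : ℂ => -s) (-1) (-(starRingEnd ℂ) t) := hasDerivAt_neg _
  have h1' : HasDerivAt (⇑(starRingEnd ℂ) ∘ f ∘ ⇑(starRingEnd ℂ)) ((starRingEnd ℂ) (deriv f t))
      (-(-(starRingEnd ℂ) t)) := by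
    rw [neg_neg]
    exact h1
  have h3 := h1'.comp (-(starRingEnd ℂ) t) h2
  have h4 : f =ᶠ[𝓝 (-(starRingEnd ℂ) t)] fun s => ε * ((⇑(starRingEnd ℂ) ∘ f ∘ ⇑(starRingEnd ℂ)) ∘ fun s => -s) s := by
    filter_upwards [isOpen_H.mem_nhds h0] with s hs
    simp only [Function.comp_apply]
    have hs' : 0 < (-(starRingEnd ℂ) s).im := by simpa using hs
    have h5 := h (-(starRingEnd ℂ) s) hs'
    simp only [map_neg, Complex.conj_conj, neg_neg] at h5 ⊢
    exact h5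
  rw [h4.deriv_eq, (h3.const_mul ε).deriv]
  ring

theorem d1_conj {t : ℂ} (ht : 0 < t.im) :
    deriv jc (-(starRingEnd ℂ) t) = -(starRingEnd ℂ) (deriv jc t) := by
  have := deriv_refl (f := jc) (ε := 1) (fun t ht => jc_an ht)
    (fun t ht => by rw [jc_conj ht, one_mul]) ht
  rw [this]
  ring

theorem d2_conj {t : ℂ} (ht : 0 < t.im) :
    deriv (deriv jc) (-(starRingEnd ℂ) t) = (starRingEnd ℂ) (deriv (deriv jc) t) := by
  have := deriv_refl (f := deriv jc) (ε := -1) (fun t ht => (jc_an ht).deriv)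
    (fun t ht => by rw [d1_conj ht]; ring) ht
  rw [this]
  ring

theorem jet_rf (z : ℍ) : jet (rf z) = {-(starRingEnd ℂ) (z : ℂ), (starRingEnd ℂ) (jj z),
    -(starRingEnd ℂ) (deriv jc z), (starRingEnd ℂ) (deriv (deriv jc) z)} := by
  unfold jet
  rw [jj_rf, coe_rf, d1_conj z.im_pos, d2_conj z.im_pos]

/-- the points with `j' ≠ 0` -/
abbrev X2 : Type := {z : ℍ // deriv jc z ≠ 0}

open Classical in
/-- the weight -/
noncomputable def wgt (z : ℍ) : ℕ := if CM z then 1 else 3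

theorem cm_eqv {z w : ℍ} (h : Eqv z w) : CM z ↔ CM w :=
  ⟨fun hz => CM.of_eqv h.symm hz, fun hw => CM.of_eqv h hw⟩

theorem cm_rf {z : ℍ} : CM (rf z) ↔ CM z :=
  ⟨fun h => by have := h.rf; rwa [rf_rf] at this, fun h => h.rf⟩

theorem wgt_eqv {z w : ℍ} (h : Eqv z w) : wgt z = wgt w := by
  unfold wgt
  by_cases hz : CM z
  · rw [if_pos hz, if_pos ((cm_eqv h).1 hz)]
  · rw [if_neg hz, if_neg (fun h' => hz ((cm_eqv h).2 h'))]

theorem wgt_rf (z : ℍ) : wgt (rf z) = wgt z := by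
  unfold wgt
  by_cases hz : CM z
  · rw [if_pos hz, if_pos (cm_rf.2 hz)]
  · rw [if_neg hz, if_neg (fun h' => hz (cm_rf.1 h'))]

theorem d1_rf_ne {z : ℍ} (h : deriv jc z ≠ 0) : deriv jc (rf z) ≠ 0 := by
  rw [coe_rf, d1_conj z.im_pos]
  exact neg_ne_zero.2 (fun h0 => h (by simpa using h0))

/-- the data of the modular Schanuel conjecture with derivatives -/
noncomputable def W2 : Wat X2 ℂ where
  r :=
    { r := fun z w => Eqv z.1 w.1
      iseqv := ⟨fun z => Eqv.refl z.1, fun h => h.symm, fun h h' => h.trans h'⟩ }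
  data := fun z => jet z.1
  w := fun z => wgt z.1
  wr := fun _ _ h => wgt_eqv h
  cl_of := fun x y h => jet_sub (Eqv.symm h) y.2
  σ := fun z => ⟨rf z.1, d1_rf_ne z.2⟩
  σr := fun _ _ h => Eqv.rf h
  σσ := fun z => by
    show Eqv (rf (rf z.1)) z.1
    rw [rf_rf]
    exact Eqv.refl _
  wσ := fun z => wgt_rf z.1
  φ := cj
  σd := by
    rintro ⟨x, hx⟩
    show jet (rf x) ⊆ cl ℂ (cj '' jet x)
    rw [jet_rf]
    rintro a (rfl | rfl | rfl | ha)
    · exact cl_neg (subset_cl _ ⟨(x : ℂ), Or.inl rfl, cj_apply _⟩)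
    · exact subset_cl _ ⟨jj x, Or.inr (Or.inl rfl), cj_apply _⟩
    · exact cl_neg (subset_cl _ ⟨deriv jc x, Or.inr (Or.inr (Or.inl rfl)), cj_apply _⟩)
    · rw [Set.mem_singleton_iff.1 ha]
      exact subset_cl _ ⟨deriv (deriv jc) x, Or.inr (Or.inr (Or.inr rfl)), cj_apply _⟩

theorem W2_w (x : X2) : W2.w x = wgt x.1 := rfl
theorem W2_data (x : X2) : W2.data x = jet x.1 := rfl
theorem W2_r {x y : X2} : W2.r.r x y ↔ Eqv x.1 y.1 := Iff.rfl

theorem W2_fam {r s : ℕ} (x : Fin r → X2) (y : Fin s → X2) (i : Fin r ⊕ Fin r ⊕ Fin s) :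
    (W2.fam x y i).1 = fam (fun i => (x i).1) (fun k => (y k).1) i := by
  rcases i with i | i | i <;> rfl

/-- the real and imaginary parts of the numbers `z, j, j', j''` -/
noncomputable def parts (z : ℍ) : Set ℝ := Complex.re '' jet z ∪ Complex.im '' jet z

theorem jet_mem_parts (z : ℍ) {S : Set ℝ} (h : parts z ⊆ S) : jet z ⊆ cl ℂ (oR '' S) := by
  intro a ha
  refine mem_of_parts (subset_cl _ ⟨a.re, h (Or.inl ⟨a, ha, rfl⟩), oR_apply _⟩)
    (subset_cl _ ⟨a.im, h (Or.inr ⟨a, ha, rfl⟩), oR_apply _⟩)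

theorem jet_rf_mem_parts (z : ℍ) {S : Set ℝ} (h : parts z ⊆ S) : jet (rf z) ⊆ cl ℂ (oR '' S) := by
  have h1 : ∀ a ∈ jet z, (starRingEnd ℂ) a ∈ cl ℂ (oR '' S) := fun a ha =>
    conj_mem_of_parts (subset_cl _ ⟨a.re, h (Or.inl ⟨a, ha, rfl⟩), oR_apply _⟩)
      (subset_cl _ ⟨a.im, h (Or.inr ⟨a, ha, rfl⟩), oR_apply _⟩)
  rw [jet_rf]
  rintro a (rfl | rfl | rfl | ha)
  · exact cl_neg (h1 _ (Or.inl rfl))
  · exact h1 _ (Or.inr (Or.inl rfl))
  · exact cl_neg (h1 _ (Or.inr (Or.inr (Or.inl rfl))))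
  · rw [Set.mem_singleton_iff.1 ha]
    exact h1 _ (Or.inr (Or.inr (Or.inr rfl)))

theorem conj_mem_of_rf {z : ℍ} {S : Set ℂ} (h : jet (rf z) ⊆ cl ℂ S) :
    ∀ a ∈ jet z, (starRingEnd ℂ) a ∈ cl ℂ S := by
  rw [jet_rf] at h
  rintro a (rfl | rfl | rfl | ha)
  · have := cl_neg (h (Or.inl rfl))
    rwa [neg_neg] at this
  · exact h (Or.inr (Or.inl rfl))
  · have := cl_neg (h (Or.inr (Or.inr (Or.inl rfl))))
    rwa [neg_neg] at this
  · rw [Set.mem_singleton_iff.1 ha]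
    exact h (Or.inr (Or.inr (Or.inr rfl)))

/-- the real numbers -/
noncomputable def RS2 {r s : ℕ} (x : Fin r → ℍ) (w : Fin s → ℍ) : Set ℝ :=
  (⋃ i, parts (x i)) ∪ (⋃ k, parts (w k))

theorem rk_RS2 {r s : ℕ} (x : Fin r → ℍ) (w : Fin s → ℍ) (hw : ∀ k, Eqv (w k) (rf (w k)))
    (hd : ∀ k, deriv jc (w k) ≠ 0) :
    rk ℂ (⋃ i, jet (fam x w i)) = rk ℝ (RS2 x w) := by
  rw [← rk_image oR]
  refine rk_eq ?_ ?_
  · intro a ha
    obtain ⟨i, hi⟩ := mem_iUnion.1 ha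
    rcases i with i | i | k
    · exact jet_mem_parts (x i) (fun b hb => Or.inl (mem_iUnion.2 ⟨i, hb⟩)) hi
    · exact jet_rf_mem_parts (x i) (fun b hb => Or.inl (mem_iUnion.2 ⟨i, hb⟩)) hi
    · exact jet_mem_parts (w k) (fun b hb => Or.inr (mem_iUnion.2 ⟨k, hb⟩)) hi
  · have key : ∀ z : ℍ, jet z ⊆ cl ℂ (⋃ i, jet (fam x w i)) → jet (rf z) ⊆ cl ℂ (⋃ i, jet (fam x w i)) →
        ∀ b ∈ parts z, ((b : ℝ) : ℂ) ∈ cl ℂ (⋃ i, jet (fam x w i)) := by
      intro z h1 h2 b hb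
      rcases hb with ⟨a, ha, rfl⟩ | ⟨a, ha, rfl⟩
      · exact re_mem (h1 ha) (conj_mem_of_rf h2 a ha)
      · exact im_mem (h1 ha) (conj_mem_of_rf h2 a ha)
    have hsub : ∀ i, jet (fam x w i) ⊆ cl ℂ (⋃ i, jet (fam x w i)) := fun i a ha =>
      subset_cl _ (mem_iUnion.2 ⟨i, ha⟩)
    rintro a ⟨b, hb, rfl⟩
    rw [oR_apply]
    rcases hb with hb | hb
    · obtain ⟨i, hi⟩ := mem_iUnion.1 hb
      exact key (x i) (hsub (Sum.inl i)) (hsub (Sum.inr (Sum.inl i))) b hi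
    · obtain ⟨k, hk⟩ := mem_iUnion.1 hb
      refine key (w k) (hsub (Sum.inr (Sum.inr k))) ?_ b hk
      exact (jet_sub (hw k) (hd k)).trans (cl_idem (hsub (Sum.inr (Sum.inr k))))

theorem W2_main (L : Finset X2) (hL : ∀ l ∈ L, rk ℂ (jet l.1) ≤ (wgt l.1 : ℕ∞)) :
    (∀ (n : ℕ) (z : Fin n → X2), (∀ i k, i ≠ k → ¬ Eqv (z i).1 (z k).1) →
      ((∑ i, wgt (z i).1 : ℕ) : ℕ∞) ≤ rk ℂ (⋃ i, jet (z i).1)) ↔
    (∀ (r s : ℕ) (x : Fin r → X2) (y : Fin s → X2),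
      (∀ i k, i ≠ k → ¬ Eqv (fam (fun i => (x i).1) (fun k => (y k).1) i)
        (fam (fun i => (x i).1) (fun k => (y k).1) k)) → (∀ k, Geo (y k).1) →
      (∀ l ∈ L, ∃ i, Eqv l.1 (fam (fun i => (x i).1) (fun k => (y k).1) i)) →
      ((2 * ∑ i, wgt (x i).1 + ∑ k, wgt (y k).1 : ℕ) : ℕ∞) ≤
        rk ℂ (⋃ i, jet (fam (fun i => (x i).1) (fun k => (y k).1) i))) := by
  have hm := W2.main (fun y => Geo y.1) (fun y h => ⟨y, Eqv.refl y.1, geo_of h⟩) L
    (fun l hl => by rw [W2_data, W2_w]; exact hL l hl)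
  simp only [W2_w, W2_r, W2_fam, W2_data] at hm
  exact hm

/-- **The modular Schanuel conjecture with derivatives as a statement on real numbers.** -/
theorem main2 (L : Finset ℍ) (hL : ∀ l ∈ L, deriv jc l ≠ 0 ∧ rk ℂ (jet l) ≤ (wgt l : ℕ∞)) :
    (∀ (n : ℕ) (z : Fin n → ℍ), (∀ i, deriv jc (z i) ≠ 0) → (∀ i k, i ≠ k → ¬ Eqv (z i) (z k)) →
      ((∑ i, wgt (z i) : ℕ) : ℕ∞) ≤ rk ℂ (⋃ i, jet (z i))) ↔
    (∀ (r s : ℕ) (x : Fin r → ℍ) (w : Fin s → ℍ), (∀ i, deriv jc (x i) ≠ 0) →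
      (∀ k, deriv jc (w k) ≠ 0) → (∀ k, Geo (w k)) →
      (∀ i k, i ≠ k → ¬ Eqv (fam x w i) (fam x w k)) → (∀ l ∈ L, ∃ i, Eqv l (fam x w i)) →
      ((2 * ∑ i, wgt (x i) + ∑ k, wgt (w k) : ℕ) : ℕ∞) ≤ rk ℝ (RS2 x w)) := by
  classical
  have h0 : ∀ l ∈ L.subtype (fun z : ℍ => deriv jc (z : ℂ) ≠ 0), rk ℂ (jet l.1) ≤ (wgt l.1 : ℕ∞) := by
    intro l hl
    exact (hL l.1 (Finset.mem_subtype.1 hl)).2
  have hm := W2_main _ h0
  constructor
  · intro h r s x w hx hw hg hne hl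
    have h1 := hm.1 (fun n z hz => h n (fun i => (z i).1) (fun i => (z i).2) hz) r s
      (fun i => ⟨x i, hx i⟩) (fun k => ⟨w k, hw k⟩) hne hg (by
        intro l hl'
        exact hl l.1 (Finset.mem_subtype.1 hl'))
    rw [← rk_RS2 x w (fun k => (hg k).eqv) hw]
    exact h1
  · intro h n z hcm hne
    exact hm.2 (fun r s x y hne hy hl => by
      have h3 := h r s (fun i => (x i).1) (fun k => (y k).1) (fun i => (x i).2) (fun k => (y k).2) hy hne
        (fun l hl' => hl ⟨l, (hL l hl').1⟩ (Finset.mem_subtype.2 hl'))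
      rw [← rk_RS2 _ _ (fun k => (hy k).eqv) (fun k => (y k).2)] at h3
      exact h3) n (fun i => ⟨z i, hcm i⟩) hne

theorem rk_cm {z : ℍ} (h : CM z) (hd : deriv jc z ≠ 0) : rk ℂ (jet z) ≤ 1 := by
  refine (rk_le_of_subset_cl (jet_cm h hd)).trans ?_
  exact (AlgebraicIndependent.matroid ℚ ℂ).eRk_singleton_le _

theorem rk_wgt {z : ℍ} (hd : deriv jc z ≠ 0) (h : CM z ∨ ¬ AtLeast ℂ 4 (jet z)) :
    rk ℂ (jet z) ≤ (wgt z : ℕ∞) := by
  unfold wgt
  split_ifs with hcm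
  · exact_mod_cast rk_cm hcm hd
  · have h1 := h.resolve_left hcm
    rw [atLeast_iff, not_le] at h1
    have h2 : rk ℂ (jet z) < 3 + 1 := by
      refine lt_of_lt_of_le h1 ?_
      norm_num
    exact_mod_cast Order.le_of_lt_add_one h2

end Pool.Agent.Q51.Sch.Mod
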