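import Mathlib
import Pool.Agent.Q51.Sch.Ell2
import Pool.Agent.Q51.Sch.ModD

/-!
# Arbitrary tuples
-/

set_option autoImplicit false

open UpperHalfPlane ModularForm H294ZP Set

namespace Pool.Agent.Q51.Sch.Mod

/-- the orbit of a point -/
def orb (z : ℍ) : Set ℍ := {w | Eqv z w}

theorem orb_eq {z w : ℍ} : orb z = orb w ↔ Eqv z w := by
  constructor
  · intro h
    have : w ∈ orb w := Eqv.refl w
    rw [← h] at this
    exact this
  · intro h
    ext v
    exact ⟨fun h' => h.symm.trans h', fun h' => h.trans h'⟩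

/-- the lower bound for arbitrary tuples -/
noncomputable def bnd {n : ℕ} (z : Fin n → ℍ) : ℕ :=
  3 * {o : Set ℍ | ∃ i, ¬ CM (z i) ∧ o = orb (z i)}.ncard +
    {o : Set ℍ | ∃ i, CM (z i) ∧ ¬ InRho (z i) ∧ o = orb (z i)}.ncard

open Classical in
theorem sum_wgt {n : ℕ} (z : Fin n → ℍ) : ∑ i, wgt (z i) =
    3 * (Finset.univ.filter (fun i => ¬ CM (z i))).card + (Finset.univ.filter (fun i => CM (z i))).card := by
  unfold wgt
  rw [Finset.sum_ite, Finset.sum_const, Finset.sum_const, smul_eq_mul, smul_eq_mul]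
  ring

open Classical in
theorem full_iff :
    (∀ (n : ℕ) (z : Fin n → ℍ), (bnd z : ℕ∞) ≤ rk ℂ (⋃ i, jet (z i))) ↔
    (∀ (n : ℕ) (z : Fin n → ℍ), (∀ i, deriv jc (z i) ≠ 0) → (∀ i k, i ≠ k → ¬ Eqv (z i) (z k)) →
      ((∑ i, wgt (z i) : ℕ) : ℕ∞) ≤ rk ℂ (⋃ i, jet (z i))) := by
  constructor
  · intro h n z hd hne
    refine le_trans ?_ (h n z)
    have hinj : ∀ i k, orb (z i) = orb (z k) → i = k := by
      intro i k hik
      by_contra hcon
      exact hne i k hcon (orb_eq.1 hik)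
    have e1 : {o : Set ℍ | ∃ i, ¬ CM (z i) ∧ o = orb (z i)} =
        (fun i => orb (z i)) '' ((Finset.univ.filter (fun i => ¬ CM (z i)) : Finset (Fin n)) : Set (Fin n)) := by
      ext o
      constructor
      · rintro ⟨i, hi, rfl⟩
        exact ⟨i, by simpa using hi, rfl⟩
      · rintro ⟨i, hi, rfl⟩
        exact ⟨i, by simpa using hi, rfl⟩
    have e2 : {o : Set ℍ | ∃ i, CM (z i) ∧ ¬ InRho (z i) ∧ o = orb (z i)} =
        (fun i => orb (z i)) '' ((Finset.univ.filter (fun i => CM (z i)) : Finset (Fin n)) : Set (Fin n)) := by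
      ext o
      constructor
      · rintro ⟨i, hi, -, rfl⟩
        exact ⟨i, by simpa using hi, rfl⟩
      · rintro ⟨i, hi, rfl⟩
        exact ⟨i, by simpa using hi, fun hr => hd i (djc_inRho hr), rfl⟩
    have : ∑ i, wgt (z i) = bnd z := by
      rw [sum_wgt, bnd, e1, e2, Set.ncard_image_of_injective _ (fun i k hik => hinj i k hik),
        Set.ncard_image_of_injective _ (fun i k hik => hinj i k hik), Set.ncard_coe_finset,
        Set.ncard_coe_finset]
    rw [this]
  · intro h n z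
    set F : Finset (Set ℍ) := (Finset.univ.filter (fun i => ¬ InRho (z i))).image (fun i => orb (z i))
      with hF
    let e : Fin F.card ≃ F := F.equivFin.symm
    have hex : ∀ k : Fin F.card, ∃ i, ¬ InRho (z i) ∧ orb (z i) = (e k : Set ℍ) := by
      intro k
      obtain ⟨i, hi, hi'⟩ := Finset.mem_image.1 (e k).2
      exact ⟨i, (Finset.mem_filter.1 hi).2, hi'⟩
    choose i hi1 hi2 using hex
    have hex2 : ∀ k : Fin F.card, ∃ w : ℍ, Eqv (z (i k)) w ∧ deriv jc w ≠ 0 ∧ jet w ⊆ cl ℂ (jet (z (i k))) :=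
      fun k => exists_rep (hi1 k)
    choose w hw1 hw2 hw3 using hex2
    have hne : ∀ k l, k ≠ l → ¬ Eqv (w k) (w l) := by
      intro k l hkl hcon
      apply hkl
      have h1 : orb (z (i k)) = orb (z (i l)) := orb_eq.2 (((hw1 k).trans hcon).trans (hw1 l).symm)
      rw [hi2, hi2] at h1
      exact e.injective (Subtype.ext h1)
    have h1 := h F.card w hw2 hne
    have h2 : rk ℂ (⋃ k, jet (w k)) ≤ rk ℂ (⋃ j, jet (z j)) := by
      apply rk_le_of_subset_cl
      intro a ha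
      obtain ⟨k, hk⟩ := mem_iUnion.1 ha
      exact cl_mono (fun b hb => mem_iUnion.2 ⟨i k, hb⟩) (hw3 k hk)
    refine le_trans ?_ (h1.trans h2)
    -- the count
    have key : ∀ j, ¬ InRho (z j) → ∃ k, orb (z j) = (e k : Set ℍ) ∧ Eqv (z j) (w k) := by
      intro j hj
      have hmem : orb (z j) ∈ F := by
        rw [hF]
        exact Finset.mem_image_of_mem _ (Finset.mem_filter.2 ⟨Finset.mem_univ _, hj⟩)
      obtain ⟨k, hk⟩ := e.surjective ⟨_, hmem⟩
      have hk' : orb (z j) = (e k : Set ℍ) := by rw [hk]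
      refine ⟨k, hk', ?_⟩
      have h3 : orb (z j) = orb (z (i k)) := by rw [hi2]; exact hk'
      exact (orb_eq.1 h3).trans (hw1 k)
    have c1 : {o : Set ℍ | ∃ i, ¬ CM (z i) ∧ o = orb (z i)}.ncard ≤
        (Finset.univ.filter (fun k => ¬ CM (w k))).card := by
      rw [← Set.ncard_coe_finset]
      refine le_trans (Set.ncard_le_ncard (t := (fun k => (e k : Set ℍ)) ''
        ((Finset.univ.filter (fun k => ¬ CM (w k)) : Finset (Fin F.card)) : Set (Fin F.card))) ?_
        ((Finset.finite_toSet _).image _)) (Set.ncard_image_le (Finset.finite_toSet _))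
      rintro o ⟨j, hj, rfl⟩
      obtain ⟨k, hk1, hk2⟩ := key j (fun hr => hj hr.cm)
      refine ⟨k, ?_, hk1.symm⟩
      simp only [Finset.coe_filter, Finset.mem_univ, true_and, mem_ofPred_eq]
      exact fun hc => hj ((cm_eqv hk2).2 hc)
    have c2 : {o : Set ℍ | ∃ i, CM (z i) ∧ ¬ InRho (z i) ∧ o = orb (z i)}.ncard ≤
        (Finset.univ.filter (fun k => CM (w k))).card := by
      rw [← Set.ncard_coe_finset]
      refine le_trans (Set.ncard_le_ncard (t := (fun k => (e k : Set ℍ)) ''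
        ((Finset.univ.filter (fun k => CM (w k)) : Finset (Fin F.card)) : Set (Fin F.card))) ?_
        ((Finset.finite_toSet _).image _)) (Set.ncard_image_le (Finset.finite_toSet _))
      rintro o ⟨j, hj, hj', rfl⟩
      obtain ⟨k, hk1, hk2⟩ := key j hj'
      refine ⟨k, ?_, hk1.symm⟩
      simp only [Finset.coe_filter, Finset.mem_univ, true_and, mem_ofPred_eq]
      exact (cm_eqv hk2).1 hj
    rw [sum_wgt]
    unfold bnd
    exact_mod_cast Nat.add_le_add (Nat.mul_le_mul_left 3 c1) c2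

/-- **The full conjecture as a statement on real numbers.** -/
theorem main3 (L : Finset ℍ) (hL : ∀ l ∈ L, deriv jc l ≠ 0 ∧ rk ℂ (jet l) ≤ (wgt l : ℕ∞)) :
    (∀ (n : ℕ) (z : Fin n → ℍ), (bnd z : ℕ∞) ≤ rk ℂ (⋃ i, jet (z i))) ↔
    (∀ (r s : ℕ) (x : Fin r → ℍ) (w : Fin s → ℍ), (∀ i, deriv jc (x i) ≠ 0) →
      (∀ k, deriv jc (w k) ≠ 0) → (∀ k, Geo (w k)) →
      (∀ i k, i ≠ k → ¬ Eqv (fam x w i) (fam x w k)) → (∀ l ∈ L, ∃ i, Eqv l (fam x w i)) →
      ((2 * ∑ i, wgt (x i) + ∑ k, wgt (w k) : ℕ) : ℕ∞) ≤ rk ℝ (RS2 x w)) :=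
  full_iff.trans (main2 L hL)

end Pool.Agent.Q51.Sch.Mod
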