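import Mathlib
import Pool.Agent.Q51.Sch.Real

/-!
# Logarithms of algebraic numbers: reduction to real logarithms and arguments
-/

set_option autoImplicit false

open Set

namespace Pool.Agent.Q51.Sch

/-- the logarithms of algebraic numbers -/
def LogA (z : ℂ) : Prop := IsAlgebraic ℚ (Complex.exp z)

theorem LogA.conj {z : ℂ} (h : LogA z) : LogA ((starRingEnd ℂ) z) := by
  unfold LogA at *
  rw [Complex.exp_conj]
  exact h.algHom cj

theorem LogA.add {z w : ℂ} (h : LogA z) (h' : LogA w) : LogA (z + w) := by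
  unfold LogA at *
  rw [Complex.exp_add]
  exact h.mul h'

theorem LogA.smul {z : ℂ} (h : LogA z) (q : ℚ) : LogA (q • z) := by
  unfold LogA at *
  have : Complex.exp (q • z) ^ q.den = Complex.exp z ^ q.num := by
    rw [← Complex.exp_nat_mul, ← Complex.exp_int_mul]
    congr 1
    have h : (q.den : ℂ) * (q : ℂ) = q.num := by
      have := Rat.den_mul_eq_num q
      exact_mod_cast this
    rw [Rat.smul_def, ← mul_assoc, h]
  have h2 : IsAlgebraic ℚ (Complex.exp z ^ q.num) := by
    cases q.num with
    | ofNat n => simpa using h.pow n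
    | negSucc n => rw [zpow_negSucc]; exact (h.pow _).inv
  rw [← this] at h2
  exact IsAlgebraic.of_pow q.den_pos h2

/-- the space of the logarithms of algebraic numbers -/
def LL : Submodule ℚ ℂ where
  carrier := {z | LogA z}
  add_mem' := fun h h' => LogA.add h h'
  zero_mem' := by
    change IsAlgebraic ℚ (Complex.exp 0)
    rw [Complex.exp_zero]
    exact isAlgebraic_one
  smul_mem' := fun q _ h => LogA.smul h q

theorem mem_LL {z : ℂ} : z ∈ LL ↔ IsAlgebraic ℚ (Complex.exp z) := Iff.rfl

/-- a failure -/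
def BadL (W : Submodule ℚ ℂ) : Prop :=
  FiniteDimensional ℚ W ∧ W ≤ LL ∧ rk ℂ (W : Set ℂ) < (Module.finrank ℚ W : ℕ∞)

theorem badL_or {A B : Submodule ℚ ℂ} (hA : BadL A) (hB : BadL B) : BadL (A ⊓ B) ∨ BadL (A ⊔ B) := by
  obtain ⟨fA, lA, rA⟩ := hA
  obtain ⟨fB, lB, rB⟩ := hB
  have f1 : FiniteDimensional ℚ (A ⊓ B : Submodule ℚ ℂ) :=
    Submodule.finiteDimensional_of_le inf_le_left
  have f2 : FiniteDimensional ℚ (A ⊔ B : Submodule ℚ ℂ) := inferInstance
  have l1 : A ⊓ B ≤ LL := inf_le_left.trans lA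
  have l2 : A ⊔ B ≤ LL := sup_le lA lB
  by_contra hcon
  push Not at hcon
  have h1 : (Module.finrank ℚ (A ⊓ B : Submodule ℚ ℂ) : ℕ∞) ≤ rk ℂ ((A ⊓ B : Submodule ℚ ℂ) : Set ℂ) := by
    by_contra h; exact hcon.1 ⟨f1, l1, not_le.1 h⟩
  have h2 : (Module.finrank ℚ (A ⊔ B : Submodule ℚ ℂ) : ℕ∞) ≤ rk ℂ ((A ⊔ B : Submodule ℚ ℂ) : Set ℂ) := by
    by_contra h; exact hcon.2 ⟨f2, l2, not_le.1 h⟩
  have h4 : rk ℂ ((A ⊔ B : Submodule ℚ ℂ) : Set ℂ) ≤ rk ℂ ((A : Set ℂ) ∪ B) := by
    apply rk_le_of_subset_cl
    rintro w hw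
    obtain ⟨a, ha, b, hb, rfl⟩ := Submodule.mem_sup.1 hw
    exact cl_add (subset_cl _ (Or.inl ha)) (subset_cl _ (Or.inr hb))
  have h5 := rk_sub (A : Set ℂ) (B : Set ℂ)
  have h6 : Module.finrank ℚ (A ⊔ B : Submodule ℚ ℂ) + Module.finrank ℚ (A ⊓ B : Submodule ℚ ℂ) =
    Module.finrank ℚ A + Module.finrank ℚ B := Submodule.finrank_sup_add_finrank_inf_eq A B
  have h7 : ((Module.finrank ℚ A + Module.finrank ℚ B : ℕ) : ℕ∞) ≤ rk ℂ (A : Set ℂ) + rk ℂ (B : Set ℂ) := by
    rw [← h6]
    push_cast
    calc (Module.finrank ℚ (A ⊔ B : Submodule ℚ ℂ) : ℕ∞) + Module.finrank ℚ (A ⊓ B : Submodule ℚ ℂ)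
        ≤ rk ℂ ((A ⊔ B : Submodule ℚ ℂ) : Set ℂ) + rk ℂ ((A ⊓ B : Submodule ℚ ℂ) : Set ℂ) :=
          add_le_add h2 h1
      _ ≤ rk ℂ ((A : Set ℂ) ∪ B) + rk ℂ ((A : Set ℂ) ∩ B) := add_le_add h4 (by rfl)
      _ ≤ _ := by rw [add_comm]; exact h5
  have h8 : rk ℂ (A : Set ℂ) + rk ℂ (B : Set ℂ) <
      ((Module.finrank ℚ A + Module.finrank ℚ B : ℕ) : ℕ∞) := by
    push_cast
    exact ENat.add_lt_add rA rB
  exact absurd h7 (not_le.2 h8)

theorem BadL.sup_one {W : Submodule ℚ ℂ} (hW : BadL W) {z : ℂ} (hz : z ∈ LL) :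
    BadL (W ⊔ Submodule.span ℚ {z}) := by
  obtain ⟨fW, lW, rW⟩ := hW
  by_cases hzW : z ∈ W
  · have : W ⊔ Submodule.span ℚ {z} = W := by
      rw [sup_eq_left, Submodule.span_singleton_le_iff_mem]; exact hzW
    rw [this]; exact ⟨fW, lW, rW⟩
  · refine ⟨inferInstance, sup_le lW ((Submodule.span_singleton_le_iff_mem z LL).2 hz), ?_⟩
    have hd : Module.finrank ℚ (W ⊔ Submodule.span ℚ {z} : Submodule ℚ ℂ) = Module.finrank ℚ W + 1 := by
      have h0 : z ≠ 0 := fun h => hzW (h ▸ W.zero_mem)
      have hdis : W ⊓ Submodule.span ℚ {z} = ⊥ := by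
        rw [← disjoint_iff, disjoint_comm]
        exact (Submodule.disjoint_span_singleton' h0).2 hzW |>.symm
      have := Submodule.finrank_sup_add_finrank_inf_eq W (Submodule.span ℚ {z})
      rw [hdis, finrank_bot, finrank_span_singleton h0] at this
      omega
    have hr : rk ℂ ((W ⊔ Submodule.span ℚ {z} : Submodule ℚ ℂ) : Set ℂ) ≤ rk ℂ (W : Set ℂ) + 1 := by
      have h1 : rk ℂ ((W ⊔ Submodule.span ℚ {z} : Submodule ℚ ℂ) : Set ℂ) ≤ rk ℂ ((W : Set ℂ) ∪ {z}) := by
        apply rk_le_of_subset_cl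
        rintro w hw
        obtain ⟨a, ha, b, hb, rfl⟩ := Submodule.mem_sup.1 hw
        obtain ⟨q, rfl⟩ := Submodule.mem_span_singleton.1 hb
        exact cl_add (subset_cl _ (Or.inl ha)) (smul_mem_cl q (subset_cl _ (Or.inr rfl)))
      refine h1.trans ((rk_union_le _ _).trans ?_)
      gcongr
      unfold rk
      exact ((AlgebraicIndependent.matroid ℚ ℂ).eRk_le_encard {z}).trans (by simp)
    rw [hd]
    push_cast
    refine lt_of_le_of_lt hr ?_
    exact (ENat.add_lt_add_iff_right (by simp)).2 rW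

theorem BadL.sup_span {W : Submodule ℚ ℂ} (hW : BadL W) (Z : Finset ℂ) (hZ : ∀ z ∈ Z, z ∈ LL) :
    BadL (W ⊔ Submodule.span ℚ (Z : Set ℂ)) := by
  classical
  induction Z using Finset.induction_on with
  | empty => simpa using hW
  | insert a Z ha ih =>
    have h1 := ih fun z hz => hZ z (Finset.mem_insert_of_mem hz)
    have h2 := h1.sup_one (hZ a (Finset.mem_insert_self a Z))
    have : W ⊔ Submodule.span ℚ ((insert a Z : Finset ℂ) : Set ℂ) =
        W ⊔ Submodule.span ℚ (Z : Set ℂ) ⊔ Submodule.span ℚ {a} := by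
      rw [Finset.coe_insert, Submodule.span_insert, sup_assoc, sup_comm (Submodule.span ℚ {a})]
    rw [this]
    exact h2

theorem coe_bar (W : Submodule ℚ ℂ) : (bar W : Set ℂ) = cj '' W := by
  ext w
  constructor
  · intro hw
    exact ⟨(starRingEnd ℂ) w, mem_bar.1 hw, by simp [cj_apply]⟩
  · rintro ⟨u, hu, rfl⟩
    exact mem_bar.2 (by simpa [cj_apply] using hu)

theorem BadL.bar {W : Submodule ℚ ℂ} (hW : BadL W) : BadL (bar W) := by
  obtain ⟨fW, lW, rW⟩ := hW
  refine ⟨by unfold Sch.bar; infer_instance, ?_, ?_⟩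
  · intro z hz
    have := (lW (mem_bar.1 hz) : LogA _).conj
    change LogA z
    simpa using this
  · rw [coe_bar, rk_image]
    have : Module.finrank ℚ (Sch.bar W) = Module.finrank ℚ W := LinearEquiv.finrank_map_eq cjE W
    rw [this]
    exact rW

theorem BadL.symm {W : Submodule ℚ ℂ} (hW : BadL W) (L : Finset ℂ) (hL : ∀ z ∈ L, z ∈ LL) :
    ∃ V : Submodule ℚ ℂ, BadL V ∧ (∀ z ∈ L, z ∈ V) ∧ ∀ z, z ∈ V → (starRingEnd ℂ) z ∈ V := by
  classical
  set Z : Finset ℂ := L ∪ L.image (starRingEnd ℂ) with hZdef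
  have hZ : ∀ z ∈ Z, z ∈ LL := by
    intro z hz
    rcases Finset.mem_union.1 hz with h | h
    · exact hL z h
    · obtain ⟨w, hw, rfl⟩ := Finset.mem_image.1 h
      exact (hL w hw : LogA w).conj
  have hZc : ∀ z ∈ Z, (starRingEnd ℂ) z ∈ Z := by
    intro z hz
    rcases Finset.mem_union.1 hz with h | h
    · exact Finset.mem_union_right _ (Finset.mem_image_of_mem _ h)
    · obtain ⟨w, hw, rfl⟩ := Finset.mem_image.1 h
      exact Finset.mem_union_left _ (by simpa using hw)
  have hB := hW.sup_span Z hZ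
  set W' := W ⊔ Submodule.span ℚ (Z : Set ℂ) with hW'
  have hZW : ∀ z ∈ Z, z ∈ W' := fun z hz => Submodule.mem_sup_right (Submodule.subset_span hz)
  have hLZ : ∀ z ∈ L, z ∈ Z := fun z hz => Finset.mem_union_left _ hz
  rcases badL_or hB hB.bar with h | h
  · refine ⟨_, h, fun z hz => ⟨hZW z (hLZ z hz), mem_bar.2 (hZW _ (hZc z (hLZ z hz)))⟩, ?_⟩
    rintro z ⟨h1, h2⟩
    exact ⟨mem_bar.1 h2, mem_bar.2 (by simpa using h1)⟩
  · refine ⟨_, h, fun z hz => Submodule.mem_sup_left (hZW z (hLZ z hz)), ?_⟩
    intro z hz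
    obtain ⟨a, ha, b, hb, rfl⟩ := Submodule.mem_sup.1 hz
    rw [map_add]
    exact Submodule.add_mem _ (Submodule.mem_sup_right (mem_bar.2 (by simpa using ha)))
      (Submodule.mem_sup_left (mem_bar.1 hb))

theorem rk_span (Z : Set ℂ) : rk ℂ (Submodule.span ℚ Z : Set ℂ) = rk ℂ Z := by
  apply rk_eq
  · intro z hz
    induction hz using Submodule.span_induction with
    | mem x h => exact subset_cl _ h
    | zero => simpa using cl_rat (K := ℂ) (X := Z) 0
    | add x y _ _ hx hy => exact cl_add hx hy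
    | smul q x _ hx => exact smul_mem_cl q hx
  · exact fun z hz => subset_cl _ (Submodule.subset_span hz)

/-- independent families -/
theorem algInd_iff {K : Type} [Field K] [CharZero K] {n : ℕ} {ι : Type} [Fintype ι]
    (hn : Fintype.card ι = n) {l : ι → K} (hl : Function.Injective l) :
    AlgebraicIndependent ℚ l ↔ (n : ℕ∞) ≤ rk K (range l) := by
  have hfin : (range l).Finite := finite_range l
  have henc : (range l).encard = n := by
    rw [← Set.image_univ, hl.injOn.encard_image, Set.encard_univ, ENat.card_eq_coe_fintype_card, hn]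
  constructor
  · intro h
    have h1 : (AlgebraicIndependent.matroid ℚ K).Indep (range l) := by
      rw [AlgebraicIndependent.matroid_indep_iff]
      exact h.to_subtype_range
    unfold rk
    rw [h1.eRk_eq_encard, henc]
  · intro h
    have h1 : (AlgebraicIndependent.matroid ℚ K).Indep (range l) := by
      rw [Matroid.indep_iff_eRk_eq_encard_of_finite hfin, henc]
      refine le_antisymm ?_ h
      rw [← henc]
      exact (AlgebraicIndependent.matroid ℚ K).eRk_le_encard _
    rw [AlgebraicIndependent.matroid_indep_iff] at h1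
    have h2 := AlgebraicIndependent.comp h1 (fun i => (⟨l i, i, rfl⟩ : range l))
      (fun a b hab => hl (congrArg Subtype.val hab))
    exact h2

/-- **Reduction to real logarithms and arguments.** -/
theorem mainL (L : Finset ℂ) (hL : ∀ z ∈ L, z ∈ LL) :
    (∀ (n : ℕ) (l : Fin n → ℂ), (∀ i, IsAlgebraic ℚ (Complex.exp (l i))) → LinearIndependent ℚ l →
      AlgebraicIndependent ℚ l) ↔
    (∀ (r s : ℕ) (x : Fin r → ℝ) (y : Fin s → ℝ), (∀ i, IsAlgebraic ℚ (Real.exp (x i))) →
      (∀ j, IsAlgebraic ℚ (Real.cos (y j))) → LinearIndependent ℚ x → LinearIndependent ℚ y →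
      (∀ z ∈ L, z ∈ sp x y) → AlgebraicIndependent ℚ (Sum.elim x y)) := by
  have key : ∀ {r s : ℕ} (x : Fin r → ℝ) (y : Fin s → ℝ), LinearIndependent ℚ x → LinearIndependent ℚ y →
      ∀ (_ : Function.Injective (Sum.elim x y)),
      (AlgebraicIndependent ℚ (Sum.elim x y) ↔ ((r + s : ℕ) : ℕ∞) ≤ rk ℂ (sp x y : Set ℂ)) := by
    intro r s x y hx hy hinj
    rw [algInd_iff (n := r + s) (by simp) hinj, sp, rk_span, ← rk_image oR]
    have : rk ℂ (oR '' range (Sum.elim x y)) =
        rk ℂ (range (fun i => (x i : ℂ)) ∪ range (fun j => Complex.I * (y j : ℂ))) := by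
      apply rk_eq
      · rintro _ ⟨_, ⟨i | j, rfl⟩, rfl⟩
        · exact subset_cl _ (Or.inl ⟨i, rfl⟩)
        · have : oR (Sum.elim x y (Sum.inr j)) = -Complex.I * (Complex.I * (y j : ℂ)) := by
            rw [← mul_assoc, oR_apply]; simp
          rw [this]
          exact cl_mul (cl_neg (I_mem_cl _)) (subset_cl _ (Or.inr ⟨j, rfl⟩))
      · rintro _ (⟨i, rfl⟩ | ⟨j, rfl⟩)
        · exact subset_cl _ ⟨x i, ⟨Sum.inl i, rfl⟩, rfl⟩
        · exact cl_mul (I_mem_cl _) (subset_cl _ ⟨y j, ⟨Sum.inr j, rfl⟩, rfl⟩)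
    rw [this]
  have hIy : ∀ y : ℝ, IsAlgebraic ℚ (Real.cos y) ↔ IsAlgebraic ℚ (Complex.exp (Complex.I * (y : ℂ))) := by
    intro y
    have hI : IsAlgebraic ℚ Complex.I := by
      apply IsAlgebraic.of_pow (n := 2) (by norm_num)
      rw [Complex.I_sq]
      exact isAlgebraic_one.neg
    constructor
    · intro h
      have h1 : IsAlgebraic ℚ (Complex.cos (y : ℂ)) := by
        have := h.algHom oR
        rwa [oR_apply, Complex.ofReal_cos] at this
      have h2 : IsAlgebraic ℚ (Complex.sin (y : ℂ)) := by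
        apply IsAlgebraic.of_pow (n := 2) (by norm_num)
        have : Complex.sin (y : ℂ) ^ 2 = 1 - Complex.cos (y : ℂ) ^ 2 := by
          have := Complex.sin_sq_add_cos_sq (y : ℂ)
          linear_combination this
        rw [this]
        exact isAlgebraic_one.sub (h1.pow 2)
      rw [mul_comm, Complex.exp_mul_I]
      exact h1.add (h2.mul hI)
    · intro h
      have h1 : IsAlgebraic ℚ (Complex.cos (y : ℂ)) := by
        have h3 : IsAlgebraic ℚ ((1 / 2 : ℚ) : ℂ) := isAlgebraic_algebraMap (R := ℚ) (A := ℂ) (1 / 2 : ℚ)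
        have : Complex.cos (y : ℂ) = ((1 / 2 : ℚ) : ℂ) * (Complex.exp (Complex.I * (y : ℂ)) +
            (Complex.exp (Complex.I * (y : ℂ)))⁻¹) := by
          rw [← Complex.exp_neg, Complex.cos]
          push_cast
          rw [mul_comm Complex.I, neg_mul]
          ring
        rw [this]
        exact h3.mul (h.add h.inv)
      rw [← Complex.ofReal_cos, ← oR_apply] at h1
      exact (isAlgebraic_algHom_iff oR oR.injective).1 h1
  have hex : ∀ x : ℝ, IsAlgebraic ℚ (Real.exp x) ↔ IsAlgebraic ℚ (Complex.exp (x : ℂ)) := by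
    intro x
    rw [← Complex.ofReal_exp, ← oR_apply]
    exact (isAlgebraic_algHom_iff oR oR.injective).symm
  constructor
  · intro h r s x y hax hay hx hy _
    have hli := finrank_sp hx hy
    have h1 := h (r + s) (Sum.elim (fun i => (x i : ℂ)) (fun j => Complex.I * (y j : ℂ)) ∘ finSumFinEquiv.symm)
      (by
        intro k
        simp only [Function.comp]
        rcases finSumFinEquiv.symm k with a | b
        · exact (hex _).1 (hax a)
        · exact (hIy _).1 (hay b))
      (hli.comp _ finSumFinEquiv.symm.injective)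
    have h2 : AlgebraicIndependent ℚ (Sum.elim (fun i => (x i : ℂ)) (fun j => Complex.I * (y j : ℂ))) := by
      have := h1.comp finSumFinEquiv finSumFinEquiv.injective
      convert this using 1
      ext k
      simp
    have hinj : Function.Injective (Sum.elim x y) := by
      -- a real number equal to a rational multiple would contradict algebraic independence
      have hxj := hx.injective
      have hyj := hy.injective
      rintro (a | a) (b | b) hab
      · exact congrArg Sum.inl (hxj hab)
      · exfalso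
        have hab' : x a = y b := hab
        have h3 : AlgebraicIndependent ℚ ((Sum.elim (fun i => (x i : ℂ)) (fun j => Complex.I * (y j : ℂ))) ∘
            ![Sum.inl a, Sum.inr b]) := h2.comp _ (by
          intro i j hij
          fin_cases i <;> fin_cases j <;> simp_all)
        have h4 := (algInd_iff (n := 2) (by simp) h3.injective).1 h3
        have h5 : rk ℂ (range ((Sum.elim (fun i => (x i : ℂ)) (fun j => Complex.I * (y j : ℂ))) ∘
            ![Sum.inl a, Sum.inr b])) ≤ rk ℂ {(x a : ℂ)} := by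
          apply rk_le_of_subset_cl
          rintro _ ⟨i, rfl⟩
          fin_cases i
          · exact subset_cl _ rfl
          · simp only [Function.comp]
            exact cl_mul (I_mem_cl _) (subset_cl _ (by rw [← hab']; rfl))
        have h6 : rk ℂ {(x a : ℂ)} ≤ 1 :=
          ((AlgebraicIndependent.matroid ℚ ℂ).eRk_le_encard _).trans (by simp)
        exact absurd (h4.trans (h5.trans h6)) (by norm_num)
      · exfalso
        have hab' : y a = x b := hab
        have h3 : AlgebraicIndependent ℚ ((Sum.elim (fun i => (x i : ℂ)) (fun j => Complex.I * (y j : ℂ))) ∘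
            ![Sum.inl b, Sum.inr a]) := h2.comp _ (by
          intro i j hij
          fin_cases i <;> fin_cases j <;> simp_all)
        have h4 := (algInd_iff (n := 2) (by simp) h3.injective).1 h3
        have h5 : rk ℂ (range ((Sum.elim (fun i => (x i : ℂ)) (fun j => Complex.I * (y j : ℂ))) ∘
            ![Sum.inl b, Sum.inr a])) ≤ rk ℂ {(x b : ℂ)} := by
          apply rk_le_of_subset_cl
          rintro _ ⟨i, rfl⟩
          fin_cases i
          · exact subset_cl _ rfl
          · simp only [Function.comp]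
            exact cl_mul (I_mem_cl _) (subset_cl _ (by rw [← hab']; rfl))
        have h6 : rk ℂ {(x b : ℂ)} ≤ 1 :=
          ((AlgebraicIndependent.matroid ℚ ℂ).eRk_le_encard _).trans (by simp)
        exact absurd (h4.trans (h5.trans h6)) (by norm_num)
      · exact congrArg Sum.inr (hyj hab)
    rw [key x y hx hy hinj, sp, rk_span]
    have h3 := (algInd_iff (n := r + s) (by simp) h2.injective).1 h2
    rwa [Set.Sum.elim_range] at h3
  · intro h n l hal hl
    by_contra hcon
    have hbad : BadL (Submodule.span ℚ (range l)) := by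
      refine ⟨FiniteDimensional.span_of_finite ℚ (finite_range l), ?_, ?_⟩
      · rw [Submodule.span_le]
        rintro _ ⟨i, rfl⟩
        exact hal i
      · rw [rk_span, finrank_span_eq_card hl, Fintype.card_fin]
        rwa [algInd_iff (n := n) (by simp) hl.injective, not_le] at hcon
    obtain ⟨V, ⟨fV, lV, rV⟩, hLV, hcV⟩ := hbad.symm L hL
    set R : Submodule ℚ ℝ := V.comap oR.toLinearMap with hR
    set J : Submodule ℚ ℝ := V.comap oI with hJ
    have hsup : V = R.map oR.toLinearMap ⊔ J.map oI := by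
      apply le_antisymm
      · intro v hv
        have hcv := hcV v hv
        have h1 : ((v.re : ℝ) : ℂ) ∈ V := by
          have : ((v.re : ℝ) : ℂ) = (1 / 2 : ℚ) • (v + (starRingEnd ℂ) v) := by
            rw [Complex.add_conj, Rat.smul_def]; push_cast; ring
          rw [this]
          exact V.smul_mem _ (V.add_mem hv hcv)
        have h2 : Complex.I * ((v.im : ℝ) : ℂ) ∈ V := by
          have : Complex.I * ((v.im : ℝ) : ℂ) = (1 / 2 : ℚ) • (v - (starRingEnd ℂ) v) := by
            rw [Complex.sub_conj, Rat.smul_def]; push_cast; ring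
          rw [this]
          exact V.smul_mem _ (V.sub_mem hv hcv)
        rw [Submodule.mem_sup]
        refine ⟨_, ⟨v.re, h1, rfl⟩, _, ⟨v.im, h2, rfl⟩, ?_⟩
        change (v.re : ℂ) + Complex.I * (v.im : ℂ) = v
        rw [mul_comm]
        exact Complex.re_add_im v
      · apply sup_le
        · rintro _ ⟨w, hw, rfl⟩; exact hw
        · rintro _ ⟨w, hw, rfl⟩; exact hw
    have fR : FiniteDimensional ℚ R := by
      apply Module.Finite.of_injective (oR.toLinearMap.restrict (p := R) (q := V) fun w hw => hw)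
      intro a b hab
      exact Subtype.ext (oR_inj (congrArg Subtype.val hab))
    have fJ : FiniteDimensional ℚ J := by
      apply Module.Finite.of_injective (oI.restrict (p := J) (q := V) fun w hw => hw)
      intro a b hab
      exact Subtype.ext (oI_inj (congrArg Subtype.val hab))
    have hinf : R.map oR.toLinearMap ⊓ J.map oI = ⊥ := by
      rw [eq_bot_iff]
      rintro w ⟨⟨a, _, ha⟩, ⟨b, _, hb⟩⟩
      have ha' : (a : ℂ) = w := ha
      have hb' : Complex.I * (b : ℂ) = w := hb
      have him : w.im = 0 := by rw [← ha']; simp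
      have hre : w.re = 0 := by rw [← hb']; simp
      exact (Submodule.mem_bot ℚ).2 (Complex.ext hre him)
    have hdim : Module.finrank ℚ V = Module.finrank ℚ R + Module.finrank ℚ J := by
      have h1 := Submodule.finrank_sup_add_finrank_inf_eq (R.map oR.toLinearMap) (J.map oI)
      rw [hinf, finrank_bot, ← hsup, add_zero] at h1
      rw [h1, (Submodule.equivMapOfInjective oR.toLinearMap oR_inj R).finrank_eq,
        (Submodule.equivMapOfInjective oI oI_inj J).finrank_eq]
    let bR := Module.finBasis ℚ R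
    let bJ := Module.finBasis ℚ J
    set x : Fin (Module.finrank ℚ R) → ℝ := fun i => (bR i : ℝ) with hx
    set y : Fin (Module.finrank ℚ J) → ℝ := fun i => (bJ i : ℝ) with hy
    have hxi : LinearIndependent ℚ x := bR.linearIndependent.map' R.subtype (Submodule.ker_subtype R)
    have hyi : LinearIndependent ℚ y := bJ.linearIndependent.map' J.subtype (Submodule.ker_subtype J)
    have hVsp : V = sp x y := by
      have e1 : Submodule.span ℚ (range x) = R := by
        have := congrArg (Submodule.map R.subtype) bR.span_eq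
        rwa [Submodule.map_span, ← range_comp, Submodule.map_top, Submodule.range_subtype] at this
      have e2 : Submodule.span ℚ (range y) = J := by
        have := congrArg (Submodule.map J.subtype) bJ.span_eq
        rwa [Submodule.map_span, ← range_comp, Submodule.map_top, Submodule.range_subtype] at this
      rw [hsup, sp, Submodule.span_union]
      congr 1
      · have := congrArg (Submodule.map oR.toLinearMap) e1
        rw [Submodule.map_span, ← range_comp] at this
        exact this.symm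
      · have := congrArg (Submodule.map oI) e2
        rw [Submodule.map_span, ← range_comp] at this
        exact this.symm
    have hfin := h _ _ x y
      (fun i => (hex _).2 (lV (show ((x i : ℝ) : ℂ) ∈ V from (bR i).2)))
      (fun j => (hIy _).2 (lV (show Complex.I * ((y j : ℝ) : ℂ) ∈ V from (bJ j).2)))
      hxi hyi (fun z hz => hVsp ▸ hLV z hz)
    rw [key x y hxi hyi hfin.injective, ← hVsp, ← hdim] at hfin
    exact absurd rV (not_lt.2 hfin)

end Pool.Agent.Q51.Sch
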