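import Mathlib
import Pool.Agent.Q51.Sch.Logs
import Pool.Agent.Q51.Sch.Trdeg

/-!
# Lower bounds for the transcendence degree of spaces of logarithms
-/

set_option autoImplicit false

open Set

namespace Pool.Agent.Q51.Sch

/-- the transcendence degree of a finite set -/
noncomputable def trd {K : Type} [Field K] [Algebra ℚ K] (X : Set K) : ℕ :=
  Cardinal.toNat (Algebra.trdeg ℚ (IntermediateField.adjoin ℚ X))

theorem trd_eq {K : Type} [Field K] [CharZero K] {X : Set K} (h : rk K X ≠ ⊤) : trd X = (rk K X).toNat := by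
  have hlt : Algebra.trdeg ℚ (IntermediateField.adjoin ℚ X) < Cardinal.aleph0 := by
    by_contra hcon
    rw [not_lt] at hcon
    apply h
    refine ENat.eq_top_iff_forall_ge.2 fun m => ?_
    exact (atLeast_iff m X).1 ((Cardinal.natCast_lt_aleph0 (n := m)).le.trans hcon)
  have h1 : ((trd X : ℕ) : Cardinal) = Algebra.trdeg ℚ (IntermediateField.adjoin ℚ X) :=
    Cardinal.cast_toNat_of_lt_aleph0 hlt
  have h2 : (((rk K X).toNat : ℕ) : ℕ∞) = rk K X := ENat.natCast_toNat h
  apply le_antisymm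
  · have h3 := (atLeast_iff (trd X) X).1 h1.le
    rw [← h2] at h3
    exact_mod_cast h3
  · have h3 : AtLeast K (rk K X).toNat X := (atLeast_iff _ X).2 h2.le
    unfold AtLeast at h3
    rw [← h1] at h3
    exact_mod_cast h3

/-- the transcendence degree of a space -/
noncomputable def tt (W : Submodule ℚ ℂ) : ℕ := (rk ℂ (W : Set ℂ)).toNat

theorem exists_tuple (W : Submodule ℚ ℂ) [FiniteDimensional ℚ W] :
    ∃ l : Fin (Module.finrank ℚ W) → ℂ, LinearIndependent ℚ l ∧ Submodule.span ℚ (range l) = W := by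
  let b := Module.finBasis ℚ W
  refine ⟨fun i => (b i : ℂ), b.linearIndependent.map' W.subtype (Submodule.ker_subtype W), ?_⟩
  have := congrArg (Submodule.map W.subtype) b.span_eq
  rwa [Submodule.map_span, ← range_comp, Submodule.map_top, Submodule.range_subtype] at this

theorem rk_le_fr (W : Submodule ℚ ℂ) [FiniteDimensional ℚ W] :
    rk ℂ (W : Set ℂ) ≤ (Module.finrank ℚ W : ℕ∞) := by
  obtain ⟨l, hl, hW⟩ := exists_tuple W
  have h1 : rk ℂ (W : Set ℂ) = rk ℂ (range l) := by
    conv_lhs => rw [← hW]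
    exact rk_span _
  rw [h1]
  refine ((AlgebraicIndependent.matroid ℚ ℂ).eRk_le_encard _).trans ?_
  rw [← Set.image_univ]
  refine (Set.encard_image_le _ _).trans ?_
  rw [Set.encard_univ, ENat.card_eq_coe_fintype_card, Fintype.card_fin]

theorem rk_ne_top (W : Submodule ℚ ℂ) [FiniteDimensional ℚ W] : rk ℂ (W : Set ℂ) ≠ ⊤ :=
  ne_top_of_le_ne_top (ENat.natCast_ne_top _) (rk_le_fr W)

theorem coe_tt (W : Submodule ℚ ℂ) [FiniteDimensional ℚ W] : ((tt W : ℕ) : ℕ∞) = rk ℂ (W : Set ℂ) :=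
  ENat.natCast_toNat (rk_ne_top W)

theorem tt_le (W : Submodule ℚ ℂ) [FiniteDimensional ℚ W] : tt W ≤ Module.finrank ℚ W := by
  have h := rk_le_fr W
  rw [← coe_tt] at h
  exact_mod_cast h

theorem tt_mono {A B : Submodule ℚ ℂ} [FiniteDimensional ℚ B] (h : A ≤ B) : tt A ≤ tt B := by
  have fA : FiniteDimensional ℚ A := Submodule.finiteDimensional_of_le h
  have h1 : rk ℂ (A : Set ℂ) ≤ rk ℂ (B : Set ℂ) := rk_mono h
  rw [← coe_tt, ← coe_tt] at h1
  exact_mod_cast h1

theorem tt_sub (A B : Submodule ℚ ℂ) [FiniteDimensional ℚ A] [FiniteDimensional ℚ B] :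
    tt (A ⊔ B) + tt (A ⊓ B) ≤ tt A + tt B := by
  have f1 : FiniteDimensional ℚ (A ⊓ B : Submodule ℚ ℂ) :=
    Submodule.finiteDimensional_of_le inf_le_left
  have h4 : rk ℂ ((A ⊔ B : Submodule ℚ ℂ) : Set ℂ) ≤ rk ℂ ((A : Set ℂ) ∪ B) := by
    apply rk_le_of_subset_cl
    rintro w hw
    obtain ⟨a, ha, b, hb, rfl⟩ := Submodule.mem_sup.1 hw
    exact cl_add (subset_cl _ (Or.inl ha)) (subset_cl _ (Or.inr hb))
  have h5 := rk_sub (A : Set ℂ) (B : Set ℂ)
  have h6 : rk ℂ ((A ⊔ B : Submodule ℚ ℂ) : Set ℂ) + rk ℂ ((A ⊓ B : Submodule ℚ ℂ) : Set ℂ) ≤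
      rk ℂ (A : Set ℂ) + rk ℂ (B : Set ℂ) := by
    refine le_trans (add_le_add h4 (le_refl _)) ?_
    rw [add_comm]
    exact h5
  rw [← coe_tt, ← coe_tt, ← coe_tt, ← coe_tt] at h6
  exact_mod_cast h6

theorem fd_bar (W : Submodule ℚ ℂ) [FiniteDimensional ℚ W] : FiniteDimensional ℚ (bar W) := by
  unfold bar
  infer_instance

theorem fr_bar (W : Submodule ℚ ℂ) : Module.finrank ℚ (bar W) = Module.finrank ℚ W :=
  LinearEquiv.finrank_map_eq cjE W

theorem tt_bar (W : Submodule ℚ ℂ) : tt (bar W) = tt W := by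
  unfold tt
  rw [coe_bar, rk_image]

theorem bar_le_LL {W : Submodule ℚ ℂ} (h : W ≤ LL) : bar W ≤ LL := by
  intro z hz
  have := (h (mem_bar.1 hz) : LogA _).conj
  change LogA z
  simpa using this

theorem bar_bar (W : Submodule ℚ ℂ) : bar (bar W) = W := by
  ext z
  rw [mem_bar, mem_bar]
  simp

theorem exists_compl_in {A B : Submodule ℚ ℂ} (h : A ≤ B) : ∃ C ≤ B, A ⊔ C = B ∧ A ⊓ C = ⊥ := by
  obtain ⟨A', hA'⟩ := Submodule.exists_isCompl A
  refine ⟨A' ⊓ B, inf_le_right, ?_, ?_⟩
  · rw [← sup_inf_assoc_of_le _ h, hA'.sup_eq_top, top_inf_eq]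
  · rw [← inf_assoc, hA'.inf_eq_bot, bot_inf_eq]

theorem tt_le_add {A B : Submodule ℚ ℂ} [FiniteDimensional ℚ B] (h : A ≤ B) :
    tt B + Module.finrank ℚ A ≤ tt A + Module.finrank ℚ B := by
  have fA : FiniteDimensional ℚ A := Submodule.finiteDimensional_of_le h
  obtain ⟨C, hC, h1, h2⟩ := exists_compl_in h
  have fC : FiniteDimensional ℚ C := Submodule.finiteDimensional_of_le hC
  have h3 := tt_sub A C
  rw [h1] at h3
  have h4 := tt_le C
  have h5 := Submodule.finrank_sup_add_finrank_inf_eq A C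
  rw [h1, h2, finrank_bot] at h5
  omega

/-- **Real form of convex lower bounds**, for spaces. -/
theorem stable_of_convex (f : ℕ → ℝ) (hf : ∀ a b m, a + b = 2 * m → 2 * f m ≤ f a + f b)
    (Z : Submodule ℚ ℂ) (bZ : bar Z = Z)
    (h : ∀ V : Submodule ℚ ℂ, FiniteDimensional ℚ V → V ≤ LL → bar V = V → Z ≤ V →
      f (Module.finrank ℚ V) ≤ tt V)
    (W : Submodule ℚ ℂ) [FiniteDimensional ℚ W] (hW : W ≤ LL) (hZW : Z ≤ W) :
    f (Module.finrank ℚ W) ≤ tt W := by
  have fB := fd_bar W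
  have f1 : FiniteDimensional ℚ (W ⊓ bar W : Submodule ℚ ℂ) :=
    Submodule.finiteDimensional_of_le inf_le_left
  have b1 : bar (W ⊔ bar W) = W ⊔ bar W := by
    ext z
    rw [mem_bar]
    constructor
    · intro hz
      obtain ⟨a, ha, b, hb, hab⟩ := Submodule.mem_sup.1 hz
      have e : z = (starRingEnd ℂ) b + (starRingEnd ℂ) a := by
        rw [← map_add, add_comm b a, hab]
        simp
      rw [e]
      exact Submodule.add_mem _ (Submodule.mem_sup_left (mem_bar.1 hb))
        (Submodule.mem_sup_right (mem_bar.2 (by simpa using ha)))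
    · intro hz
      obtain ⟨a, ha, b, hb, rfl⟩ := Submodule.mem_sup.1 hz
      rw [map_add]
      exact Submodule.add_mem _ (Submodule.mem_sup_right (mem_bar.2 (by simpa using ha)))
        (Submodule.mem_sup_left (mem_bar.1 hb))
  have b2 : bar (W ⊓ bar W) = W ⊓ bar W := by
    ext z
    rw [mem_bar]
    constructor
    · rintro ⟨h1, h2⟩
      refine ⟨?_, mem_bar.2 h1⟩
      have := mem_bar.1 h2
      simpa using this
    · rintro ⟨h1, h2⟩
      exact ⟨mem_bar.1 h2, mem_bar.2 (by simpa using h1)⟩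
  have hZB : Z ≤ bar W := by
    intro z hz
    rw [← bZ] at hz
    exact mem_bar.2 (hZW (mem_bar.1 hz))
  have h1 := h (W ⊔ bar W) inferInstance (sup_le hW (bar_le_LL hW)) b1 (hZW.trans le_sup_left)
  have h2 := h (W ⊓ bar W) f1 (inf_le_left.trans hW) b2 (le_inf hZW hZB)
  have h3 := tt_sub W (bar W)
  rw [tt_bar] at h3
  have h4 := Submodule.finrank_sup_add_finrank_inf_eq W (bar W)
  rw [fr_bar] at h4
  have h5 := hf _ _ (Module.finrank ℚ W) (by rw [h4]; ring)
  have h6 : ((tt (W ⊔ bar W) : ℕ) : ℝ) + ((tt (W ⊓ bar W) : ℕ) : ℝ) ≤ 2 * ((tt W : ℕ) : ℝ) := by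
    have : tt (W ⊔ bar W) + tt (W ⊓ bar W) ≤ 2 * tt W := by omega
    exact_mod_cast this
  linarith

/-- stable spaces are spanned by real and imaginary numbers -/
theorem exists_sp (V : Submodule ℚ ℂ) [fV : FiniteDimensional ℚ V] (hb : bar V = V) :
    ∃ (r s : ℕ) (x : Fin r → ℝ) (y : Fin s → ℝ), LinearIndependent ℚ x ∧ LinearIndependent ℚ y ∧
      V = sp x y ∧ Module.finrank ℚ V = r + s := by
  have hcV : ∀ v ∈ V, (starRingEnd ℂ) v ∈ V := fun v hv => by
    rw [← hb] at hv
    exact mem_bar.1 hv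
  set R : Submodule ℚ ℝ := V.comap oR.toLinearMap with hR
  set J : Submodule ℚ ℝ := V.comap oI with hJ
  have hsup : V = R.map oR.toLinearMap ⊔ J.map oI := by
    apply le_antisymm
    · intro v hv
      have hcv := hcV v hv
      have h1 : ((v.re : ℝ) : ℂ) ∈ V := by
        have : ((v.re : ℝ) : ℂ) = (1 / 2 : ℚ) • (v + (starRingEnd ℂ) v) := by
          rw [Complex.add_conj, Rat.smul_def]; push_cast; ring
        rw [this]
        exact V.smul_mem _ (V.add_mem hv hcv)
      have h2 : Complex.I * ((v.im : ℝ) : ℂ) ∈ V := by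
        have : Complex.I * ((v.im : ℝ) : ℂ) = (1 / 2 : ℚ) • (v - (starRingEnd ℂ) v) := by
          rw [Complex.sub_conj, Rat.smul_def]; push_cast; ring
        rw [this]
        exact V.smul_mem _ (V.sub_mem hv hcv)
      rw [Submodule.mem_sup]
      refine ⟨_, ⟨v.re, h1, rfl⟩, _, ⟨v.im, h2, rfl⟩, ?_⟩
      change (v.re : ℂ) + Complex.I * (v.im : ℂ) = v
      rw [mul_comm]
      exact Complex.re_add_im v
    · apply sup_le
      · rintro _ ⟨w, hw, rfl⟩; exact hw
      · rintro _ ⟨w, hw, rfl⟩; exact hw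
  have fR : FiniteDimensional ℚ R := by
    apply Module.Finite.of_injective (oR.toLinearMap.restrict (p := R) (q := V) fun w hw => hw)
    intro a b hab
    exact Subtype.ext (oR_inj (congrArg Subtype.val hab))
  have fJ : FiniteDimensional ℚ J := by
    apply Module.Finite.of_injective (oI.restrict (p := J) (q := V) fun w hw => hw)
    intro a b hab
    exact Subtype.ext (oI_inj (congrArg Subtype.val hab))
  have hinf : R.map oR.toLinearMap ⊓ J.map oI = ⊥ := by
    rw [eq_bot_iff]
    rintro w ⟨⟨a, _, ha⟩, ⟨b, _, hb⟩⟩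
    have ha' : (a : ℂ) = w := ha
    have hb' : Complex.I * (b : ℂ) = w := hb
    have him : w.im = 0 := by rw [← ha']; simp
    have hre : w.re = 0 := by rw [← hb']; simp
    exact (Submodule.mem_bot ℚ).2 (Complex.ext hre him)
  have hdim : Module.finrank ℚ V = Module.finrank ℚ R + Module.finrank ℚ J := by
    have h1 := Submodule.finrank_sup_add_finrank_inf_eq (R.map oR.toLinearMap) (J.map oI)
    rw [hinf, finrank_bot, ← hsup, add_zero] at h1
    rw [h1, (Submodule.equivMapOfInjective oR.toLinearMap oR_inj R).finrank_eq,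
      (Submodule.equivMapOfInjective oI oI_inj J).finrank_eq]
  let bR := Module.finBasis ℚ R
  let bJ := Module.finBasis ℚ J
  refine ⟨_, _, fun i => (bR i : ℝ), fun i => (bJ i : ℝ),
    bR.linearIndependent.map' R.subtype (Submodule.ker_subtype R),
    bJ.linearIndependent.map' J.subtype (Submodule.ker_subtype J), ?_, hdim⟩
  have e1 : Submodule.span ℚ (range (fun i => (bR i : ℝ))) = R := by
    have := congrArg (Submodule.map R.subtype) bR.span_eq
    rwa [Submodule.map_span, ← range_comp, Submodule.map_top, Submodule.range_subtype] at this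
  have e2 : Submodule.span ℚ (range (fun i => (bJ i : ℝ))) = J := by
    have := congrArg (Submodule.map J.subtype) bJ.span_eq
    rwa [Submodule.map_span, ← range_comp, Submodule.map_top, Submodule.range_subtype] at this
  rw [sp, Submodule.span_union]
  conv_lhs => rw [hsup, ← e1, ← e2, Submodule.map_span, Submodule.map_span, ← range_comp, ← range_comp]
  rfl

theorem log_real {x : ℝ} : IsAlgebraic ℚ (Real.exp x) ↔ IsAlgebraic ℚ (Complex.exp (x : ℂ)) := by
  rw [← Complex.ofReal_exp, ← oR_apply]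
  exact (isAlgebraic_algHom_iff oR oR.injective).symm

theorem log_im {y : ℝ} : IsAlgebraic ℚ (Real.cos y) ↔ IsAlgebraic ℚ (Complex.exp (Complex.I * (y : ℂ))) := by
  have hI : IsAlgebraic ℚ Complex.I := by
    apply IsAlgebraic.of_pow (n := 2) (by norm_num)
    rw [Complex.I_sq]
    exact isAlgebraic_one.neg
  constructor
  · intro h
    have h1 : IsAlgebraic ℚ (Complex.cos (y : ℂ)) := by
      have := h.algHom oR
      rwa [oR_apply, Complex.ofReal_cos] at this
    have h2 : IsAlgebraic ℚ (Complex.sin (y : ℂ)) := by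
      apply IsAlgebraic.of_pow (n := 2) (by norm_num)
      have : Complex.sin (y : ℂ) ^ 2 = 1 - Complex.cos (y : ℂ) ^ 2 := by
        have := Complex.sin_sq_add_cos_sq (y : ℂ)
        linear_combination this
      rw [this]
      exact isAlgebraic_one.sub (h1.pow 2)
    rw [mul_comm, Complex.exp_mul_I]
    exact h1.add (h2.mul hI)
  · intro h
    have h1 : IsAlgebraic ℚ (Complex.cos (y : ℂ)) := by
      have h3 : IsAlgebraic ℚ ((1 / 2 : ℚ) : ℂ) := isAlgebraic_algebraMap (R := ℚ) (A := ℂ) (1 / 2 : ℚ)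
      have : Complex.cos (y : ℂ) = ((1 / 2 : ℚ) : ℂ) * (Complex.exp (Complex.I * (y : ℂ)) +
          (Complex.exp (Complex.I * (y : ℂ)))⁻¹) := by
        rw [← Complex.exp_neg, Complex.cos]
        push_cast
        rw [mul_comm Complex.I, neg_mul]
        ring
      rw [this]
      exact h3.mul (h.add h.inv)
    rw [← Complex.ofReal_cos, ← oR_apply] at h1
    exact (isAlgebraic_algHom_iff oR oR.injective).1 h1

/-- the transcendence degree of the space and of the real numbers -/
theorem rk_sp {r s : ℕ} (x : Fin r → ℝ) (y : Fin s → ℝ) : rk ℂ (sp x y : Set ℂ) = rk ℝ (range x ∪ range y) := by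
  rw [sp, rk_span, ← rk_image oR]
  apply rk_eq
  · rintro _ (⟨i, rfl⟩ | ⟨j, rfl⟩)
    · exact subset_cl _ ⟨x i, Or.inl ⟨i, rfl⟩, rfl⟩
    · exact cl_mul (I_mem_cl _) (subset_cl _ ⟨y j, Or.inr ⟨j, rfl⟩, rfl⟩)
  · rintro _ ⟨_, ⟨i, rfl⟩ | ⟨j, rfl⟩, rfl⟩
    · exact subset_cl _ (Or.inl ⟨i, rfl⟩)
    · have : oR (y j) = -Complex.I * (Complex.I * (y j : ℂ)) := by
        rw [← mul_assoc, oR_apply]; simp
      rw [this]
      exact cl_mul (cl_neg (I_mem_cl _)) (subset_cl _ (Or.inr ⟨j, rfl⟩))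

theorem trd_range {n : ℕ} (l : Fin n → ℂ) : trd (range l) = tt (Submodule.span ℚ (range l)) := by
  have f1 : FiniteDimensional ℚ (Submodule.span ℚ (range l)) :=
    FiniteDimensional.span_of_finite ℚ (finite_range l)
  have h1 := rk_ne_top (Submodule.span ℚ (range l))
  rw [rk_span] at h1
  rw [trd_eq h1, tt, rk_span]

theorem trd_sp {r s : ℕ} (x : Fin r → ℝ) (y : Fin s → ℝ) : trd (range x ∪ range y) = tt (sp x y) := by
  have f1 : FiniteDimensional ℚ (sp x y) :=
    FiniteDimensional.span_of_finite ℚ ((finite_range _).union (finite_range _))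
  have h1 := rk_ne_top (sp x y)
  rw [rk_sp] at h1
  rw [trd_eq h1, tt, rk_sp]

theorem sp_le_LL {r s : ℕ} {x : Fin r → ℝ} {y : Fin s → ℝ} : sp x y ≤ LL ↔
    (∀ i, IsAlgebraic ℚ (Real.exp (x i))) ∧ (∀ j, IsAlgebraic ℚ (Real.cos (y j))) := by
  rw [sp, Submodule.span_le]
  constructor
  · intro h
    exact ⟨fun i => log_real.2 (h (Or.inl ⟨i, rfl⟩)), fun j => log_im.2 (h (Or.inr ⟨j, rfl⟩))⟩
  · rintro ⟨h1, h2⟩ _ (⟨i, rfl⟩ | ⟨j, rfl⟩)
    · exact log_real.1 (h1 i)
    · exact log_im.1 (h2 j)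

theorem fr_sp {r s : ℕ} {x : Fin r → ℝ} {y : Fin s → ℝ} (hx : LinearIndependent ℚ x)
    (hy : LinearIndependent ℚ y) : Module.finrank ℚ (sp x y) = r + s := by
  have h1 := finrank_sp hx hy
  have h2 := finrank_span_eq_card h1
  rw [Set.Sum.elim_range] at h2
  rw [sp, h2]
  simp

theorem bar_sp {r s : ℕ} (x : Fin r → ℝ) (y : Fin s → ℝ) : bar (sp x y) = sp x y := by
  have h1 : ∀ z ∈ sp x y, (starRingEnd ℂ) z ∈ sp x y := by
    intro z hz
    induction hz using Submodule.span_induction with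
    | mem z h =>
      rcases h with ⟨i, rfl⟩ | ⟨j, rfl⟩
      · rw [Complex.conj_ofReal]
        exact Submodule.subset_span (Or.inl ⟨i, rfl⟩)
      · have : (starRingEnd ℂ) (Complex.I * (y j : ℂ)) = -(Complex.I * (y j : ℂ)) := by simp
        show (starRingEnd ℂ) (Complex.I * (y j : ℂ)) ∈ sp x y
        rw [this]
        exact Submodule.neg_mem _ (Submodule.subset_span (Or.inr ⟨j, rfl⟩))
    | zero => simp
    | add a b _ _ ha hb => rw [map_add]; exact Submodule.add_mem _ ha hb
    | smul q a _ ha =>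
      have : (starRingEnd ℂ) (q • a) = q • (starRingEnd ℂ) a := by
        rw [Rat.smul_def, Rat.smul_def, map_mul, map_ratCast]
      rw [this]
      exact Submodule.smul_mem _ _ ha
  ext z
  rw [mem_bar]
  constructor
  · intro hz
    have := h1 _ hz
    simpa using this
  · exact h1 z

/-- **Part one.** -/
theorem partOne (L : Finset ℂ) (hL : ∀ z ∈ L, IsAlgebraic ℚ (Complex.exp z)) (f : ℕ → ℝ)
    (hf : ∀ a b m, a + b = 2 * m → 2 * f m ≤ f a + f b) (hfL : L = ∅ ∨ ∀ n, f n + 1 ≤ f (n + 1)) :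
    (∀ (n : ℕ) (l : Fin n → ℂ), (∀ i, IsAlgebraic ℚ (Complex.exp (l i))) → LinearIndependent ℚ l →
      f n ≤ trd (range l)) ↔
    (∀ (r s : ℕ) (x : Fin r → ℝ) (y : Fin s → ℝ), (∀ i, IsAlgebraic ℚ (Real.exp (x i))) →
      (∀ j, IsAlgebraic ℚ (Real.cos (y j))) → LinearIndependent ℚ x → LinearIndependent ℚ y →
      (∀ z ∈ L, z ∈ sp x y) → f (r + s) ≤ trd (range x ∪ range y)) := by
  classical
  constructor
  · intro h r s x y hx hy hxi hyi _
    rw [trd_sp]
    have f1 : FiniteDimensional ℚ (sp x y) :=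
      FiniteDimensional.span_of_finite ℚ ((finite_range _).union (finite_range _))
    obtain ⟨l, hl, hsp⟩ := exists_tuple (sp x y)
    have h1 := h _ l (fun i => (sp_le_LL.2 ⟨hx, hy⟩) (by
      rw [← hsp]
      exact Submodule.subset_span ⟨i, rfl⟩)) hl
    rw [trd_range, hsp, fr_sp hxi hyi] at h1
    exact h1
  · intro h n l hal hl
    rw [trd_range]
    set W := Submodule.span ℚ (range l) with hWdef
    have fW : FiniteDimensional ℚ W := FiniteDimensional.span_of_finite ℚ (finite_range l)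
    have lW : W ≤ LL := by
      rw [hWdef, Submodule.span_le]
      rintro _ ⟨i, rfl⟩
      exact hal i
    have hdW : Module.finrank ℚ W = n := by
      rw [hWdef, finrank_span_eq_card hl, Fintype.card_fin]
    set Zs : Finset ℂ := L ∪ L.image (starRingEnd ℂ) with hZdef
    set Z : Submodule ℚ ℂ := Submodule.span ℚ (Zs : Set ℂ) with hZ
    have fZ : FiniteDimensional ℚ Z := FiniteDimensional.span_finset ℚ Zs
    have lZ : Z ≤ LL := by
      rw [hZ, Submodule.span_le]
      intro z hz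
      rcases Finset.mem_union.1 hz with h | h
      · exact hL z h
      · obtain ⟨w, hw, rfl⟩ := Finset.mem_image.1 h
        exact LogA.conj (hL w hw)
    have hZc : ∀ z ∈ Zs, (starRingEnd ℂ) z ∈ Zs := by
      intro z hz
      rcases Finset.mem_union.1 hz with h | h
      · exact Finset.mem_union_right _ (Finset.mem_image_of_mem _ h)
      · obtain ⟨w, hw, rfl⟩ := Finset.mem_image.1 h
        exact Finset.mem_union_left _ (by simpa using hw)
    have hZ1 : ∀ z ∈ Z, (starRingEnd ℂ) z ∈ Z := by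
      intro z hz
      induction hz using Submodule.span_induction with
      | mem z h => exact Submodule.subset_span (hZc z h)
      | zero => simp
      | add a b _ _ ha hb => rw [map_add]; exact Submodule.add_mem _ ha hb
      | smul q a _ ha =>
        have : (starRingEnd ℂ) (q • a) = q • (starRingEnd ℂ) a := by
          rw [Rat.smul_def, Rat.smul_def, map_mul, map_ratCast]
        rw [this]
        exact Submodule.smul_mem _ _ ha
    have bZ : bar Z = Z := by
      ext z
      rw [mem_bar]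
      constructor
      · intro hz
        have := hZ1 _ hz
        simpa using this
      · exact hZ1 z
    have h1 := stable_of_convex f hf Z bZ (by
      intro V fV hV hb hZV
      obtain ⟨r, s, x, y, hx, hy, hVs, hdim⟩ := exists_sp V hb
      rw [hdim, hVs, ← trd_sp]
      rw [hVs] at hV
      obtain ⟨h2, h3⟩ := sp_le_LL.1 hV
      refine h r s x y h2 h3 hx hy (fun z hz => ?_)
      rw [← hVs]
      exact hZV (Submodule.subset_span (Finset.mem_union_left _ hz))) (W ⊔ Z) (sup_le lW lZ) le_sup_right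
    rcases hfL with hfL | hfL
    · have hZ0 : Z = ⊥ := by
        rw [hZ, hZdef, hfL]
        simp
      rw [hZ0, sup_bot_eq, hdW] at h1
      exact h1
    · have h2 := tt_le_add (le_sup_left : W ≤ W ⊔ Z)
      rw [hdW] at h2
      obtain ⟨k, hk⟩ := Nat.exists_eq_add_of_le (Submodule.finrank_mono (le_sup_left : W ≤ W ⊔ Z))
      rw [hdW] at hk
      have h3 : ∀ k : ℕ, f n + k ≤ f (n + k) := by
        intro k
        induction k with
        | zero => simp
        | succ k ih =>
          have := hfL (n + k)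
          push_cast
          have e : n + (k + 1) = n + k + 1 := by ring
          rw [e]
          linarith
      have h4 := h3 k
      rw [hk] at h1 h2
      have h5 : ((tt (W ⊔ Z) : ℕ) : ℝ) ≤ tt W + k := by
        have : tt (W ⊔ Z) ≤ tt W + k := by omega
        exact_mod_cast this
      linarith

/-- the exceptional space -/
theorem exists_exc (p q : ℕ) (b : ℤ)
    (h : ∀ V : Submodule ℚ ℂ, FiniteDimensional ℚ V → V ≤ LL →
      (p : ℤ) * Module.finrank ℚ V - b ≤ q * tt V) :
    ∃ E : Submodule ℚ ℂ, FiniteDimensional ℚ E ∧ E ≤ LL ∧ bar E = E ∧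
      ∀ W : Submodule ℚ ℂ, FiniteDimensional ℚ W → W ≤ LL →
        (p : ℤ) * Module.finrank ℚ W - p * Module.finrank ℚ (W ⊓ E : Submodule ℚ ℂ) ≤
          q * tt W - q * tt (W ⊓ E) := by
  classical
  set de : Submodule ℚ ℂ → ℤ := fun V => q * tt V - p * Module.finrank ℚ V with hde
  set OK : Submodule ℚ ℂ → Prop := fun V => FiniteDimensional ℚ V ∧ V ≤ LL with hOK
  have hne : ∃ m : ℤ, ∃ V, OK V ∧ de V = m := ⟨_, ⊥, ⟨inferInstance, bot_le⟩, rfl⟩
  obtain ⟨m, ⟨V₀, hV₀, hm⟩, hmin⟩ := Int.exists_least_of_bdd (P := fun m => ∃ V, OK V ∧ de V = m)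
    ⟨-b, by
      rintro z ⟨V, hV, rfl⟩
      have := h V hV.1 hV.2
      simp only [hde]
      linarith⟩ hne
  -- a minimiser of least dimension
  have hex : ∃ n : ℕ, ∃ V, OK V ∧ de V = m ∧ Module.finrank ℚ V = n := ⟨_, V₀, hV₀, hm, rfl⟩
  obtain ⟨E, hE, hEm, hEn⟩ := Nat.find_spec hex
  have hmin2 : ∀ V, OK V → de V = m → Module.finrank ℚ E ≤ Module.finrank ℚ V := by
    intro V hV hVm
    rw [hEn]
    exact Nat.find_min' hex ⟨V, hV, hVm, rfl⟩
  have hsub : ∀ A B, OK A → OK B → de (A ⊔ B) + de (A ⊓ B) ≤ de A + de B := by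
    rintro A B ⟨fA, -⟩ ⟨fB, -⟩
    have h1 := tt_sub A B
    have h2 := Submodule.finrank_sup_add_finrank_inf_eq A B
    simp only [hde]
    have h3 : ((tt (A ⊔ B) : ℕ) : ℤ) + tt (A ⊓ B) ≤ tt A + tt B := by exact_mod_cast h1
    have h4 : ((Module.finrank ℚ (A ⊔ B : Submodule ℚ ℂ) : ℕ) : ℤ) +
      Module.finrank ℚ (A ⊓ B : Submodule ℚ ℂ) = Module.finrank ℚ A + Module.finrank ℚ B := by
      exact_mod_cast h2
    have h5 : (0 : ℤ) ≤ q := Int.natCast_nonneg q
    have h6 := mul_le_mul_of_nonneg_left h3 h5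
    have h7 : (p : ℤ) * Module.finrank ℚ (A ⊔ B : Submodule ℚ ℂ) +
      p * Module.finrank ℚ (A ⊓ B : Submodule ℚ ℂ) = p * Module.finrank ℚ A + p * Module.finrank ℚ B := by
      rw [← mul_add, h4, mul_add]
    linarith
  have hokS : ∀ A B, OK A → OK B → OK (A ⊔ B) := by
    rintro A B ⟨fA, lA⟩ ⟨fB, lB⟩
    exact ⟨inferInstance, sup_le lA lB⟩
  have hokI : ∀ A B, OK A → OK (A ⊓ B) := by
    rintro A B ⟨fA, lA⟩
    exact ⟨Submodule.finiteDimensional_of_le inf_le_left, inf_le_left.trans lA⟩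
  have hle : ∀ V, OK V → m ≤ de V := fun V hV => hmin _ ⟨V, hV, rfl⟩
  refine ⟨E, hE.1, hE.2, ?_, ?_⟩
  · -- stable
    have fE := hE.1
    have hbE : OK (bar E) := ⟨fd_bar E, bar_le_LL hE.2⟩
    have hdb : de (bar E) = m := by
      rw [← hEm]
      simp only [hde]
      rw [tt_bar, fr_bar]
    have h1 := hsub E (bar E) hE hbE
    have h2 := hle _ (hokS _ _ hE hbE)
    have h3 := hle _ (hokI E (bar E) hE)
    have h4 : de (E ⊓ bar E) = m := by
      rw [hEm, hdb] at h1
      linarith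
    have h5 := hmin2 _ (hokI E (bar E) hE) h4
    have h6 : E ⊓ bar E = E := Submodule.eq_of_le_of_finrank_le inf_le_left h5
    have h7 : E ≤ bar E := inf_eq_left.1 h6
    have fbE := hbE.1
    exact (Submodule.eq_of_le_of_finrank_le h7 (by rw [fr_bar])).symm
  · intro W fW lW
    have hW : OK W := ⟨fW, lW⟩
    have h1 := hsub W E hW hE
    have h2 := hle _ (hokS _ _ hW hE)
    have h3 : de (W ⊓ E) ≤ de W := by
      rw [hEm] at h1
      linarith
    simp only [hde] at h3
    linarith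

/-- **Part two.** -/
theorem partTwo (c : ℚ) (hc : 0 ≤ c) :
    (∃ b : ℚ, ∀ (n : ℕ) (l : Fin n → ℂ), (∀ i, IsAlgebraic ℚ (Complex.exp (l i))) →
      LinearIndependent ℚ l → c * n - b ≤ trd (range l)) ↔
    (∃ E : Submodule ℚ ℂ, FiniteDimensional ℚ E ∧
      (∀ z ∈ E, IsAlgebraic ℚ (Complex.exp z) ∧ (starRingEnd ℂ) z ∈ E) ∧
      ∀ (n : ℕ) (l : Fin n → ℂ), (∀ i, IsAlgebraic ℚ (Complex.exp (l i))) →
        LinearIndependent ℚ l → Disjoint (Submodule.span ℚ (range l)) E → c * n ≤ trd (range l)) := by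
  constructor
  · rintro ⟨b, h⟩
    have hq : (0 : ℚ) < c.den := by exact_mod_cast c.den_pos
    have hcq : c * c.den = c.num.toNat := by
      have h1 : ((c.num.toNat : ℕ) : ℤ) = c.num := Int.toNat_of_nonneg (Rat.num_nonneg.2 hc)
      have h2 : ((c.num.toNat : ℕ) : ℚ) = c.num := by exact_mod_cast congrArg (fun z : ℤ => (z : ℚ)) h1
      rw [h2, Rat.mul_den_eq_num]
    obtain ⟨E, fE, lE, bE, hE⟩ := exists_exc c.num.toNat c.den ⌈b * c.den⌉ (by
      intro V fV lV
      obtain ⟨l, hl, hV⟩ := exists_tuple V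
      have h1 := h _ l (fun i => lV (by
        rw [← hV]
        exact Submodule.subset_span ⟨i, rfl⟩)) hl
      rw [trd_range, hV] at h1
      have h2 := mul_le_mul_of_nonneg_right h1 hq.le
      have h3 : (c.num.toNat : ℚ) * Module.finrank ℚ V - ⌈b * c.den⌉ ≤ c.den * tt V := by
        have := Int.le_ceil (b * c.den)
        rw [← hcq]
        nlinarith
      exact_mod_cast h3)
    refine ⟨E, fE, fun z hz => ⟨lE hz, by rw [← bE] at hz; exact mem_bar.1 hz⟩, ?_⟩
    intro n l hal hl hdis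
    have fW : FiniteDimensional ℚ (Submodule.span ℚ (range l)) :=
      FiniteDimensional.span_of_finite ℚ (finite_range l)
    have h1 := hE (Submodule.span ℚ (range l)) fW (by
      rw [Submodule.span_le]
      rintro _ ⟨i, rfl⟩
      exact hal i)
    rw [disjoint_iff.1 hdis, finrank_bot, finrank_span_eq_card hl, Fintype.card_fin] at h1
    have h0 : tt (⊥ : Submodule ℚ ℂ) = 0 := by
      have := tt_le (⊥ : Submodule ℚ ℂ)
      rw [finrank_bot] at this
      omega
    rw [h0] at h1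
    rw [trd_range]
    have h2 : (c.num.toNat : ℚ) * n ≤ c.den * tt (Submodule.span ℚ (range l)) := by
      have h3 : (c.num.toNat : ℤ) * n ≤ c.den * tt (Submodule.span ℚ (range l)) := by
        simpa using h1
      exact_mod_cast h3
    rw [← hcq] at h2
    have h4 : (c * n) * c.den ≤ (tt (Submodule.span ℚ (range l)) : ℚ) * c.den := by linarith
    exact le_of_mul_le_mul_right h4 hq
  · rintro ⟨E, fE, hE, h⟩
    refine ⟨c * Module.finrank ℚ E, fun n l hal hl => ?_⟩
    set W := Submodule.span ℚ (range l) with hW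
    have fW : FiniteDimensional ℚ W := FiniteDimensional.span_of_finite ℚ (finite_range l)
    have lW : W ≤ LL := by
      rw [hW, Submodule.span_le]
      rintro _ ⟨i, rfl⟩
      exact hal i
    obtain ⟨C, hC, h1, h2⟩ := exists_compl_in (inf_le_left : W ⊓ E ≤ W)
    have fC : FiniteDimensional ℚ C := Submodule.finiteDimensional_of_le hC
    have fI : FiniteDimensional ℚ (W ⊓ E : Submodule ℚ ℂ) := Submodule.finiteDimensional_of_le inf_le_left
    have h3 := Submodule.finrank_sup_add_finrank_inf_eq (W ⊓ E) C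
    rw [h1, h2, finrank_bot, add_zero, finrank_span_eq_card hl, Fintype.card_fin] at h3
    have h4 : Module.finrank ℚ (W ⊓ E : Submodule ℚ ℂ) ≤ Module.finrank ℚ E :=
      Submodule.finrank_mono inf_le_right
    obtain ⟨k, hk, hkC⟩ := exists_tuple C
    have h5 := h _ k (fun i => lW (hC (by
      rw [← hkC]
      exact Submodule.subset_span ⟨i, rfl⟩))) hk (by
        rw [hkC, disjoint_iff]
        have : C ⊓ E = (W ⊓ E) ⊓ C := by
          rw [inf_comm C E, inf_comm W E, inf_assoc, inf_eq_right.2 hC]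
        rw [this]
        exact h2)
    rw [trd_range, hkC] at h5
    rw [trd_range, ← hW]
    have h6 : ((tt C : ℕ) : ℚ) ≤ tt W := by exact_mod_cast tt_mono hC
    have h7 : (n : ℚ) ≤ Module.finrank ℚ E + Module.finrank ℚ C := by
      have : n ≤ Module.finrank ℚ E + Module.finrank ℚ C := by omega
      exact_mod_cast this
    nlinarith [mul_le_mul_of_nonneg_left h7 hc]

end Pool.Agent.Q51.Sch
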